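import Mathlib

/-!
Statements of the steps of the proof of: lower bounds for Mahler measures of irreducible integer
polynomials with many real (or sectorial, or p-adic of bounded degree) roots.
-/

set_option autoImplicit false

namespace Pool.Agent.H420R4

open Polynomial Real

noncomputable section

/-- energy of a finite set of complex numbers -/
def energy (W : Finset ℂ) : ℝ := ∑ z ∈ W, ∑ w ∈ W.erase z, Real.log ‖z - w‖

/-- logarithmic Mahler measure of an integer polynomial -/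
def lm (f : ℤ[X]) : ℝ := Real.log (f.map (Int.castRingHom ℂ)).mahlerMeasure

/-- the set of complex roots -/
def crts (f : ℤ[X]) : Finset ℂ := (f.map (Int.castRingHom ℂ)).roots.toFinset

/-- T1: energy of a finite set one part of which is clustered. -/
def St_T1 : Prop := ∀ (W C : Finset ℂ) (ρ R : ℝ), C ⊆ W → 0 < ρ → 1 ≤ R →
  (∀ z ∈ C, ‖z‖ ≤ R) → (∀ z ∈ C, ∀ w ∈ C, ‖z - w‖ ≤ ρ) →
  energy W + (C.card : ℝ) * (C.card - 1) * Real.log (C.card / (4 * Real.exp 1 * W.card * ρ)) ≤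
    2 * W.card * Real.log W.card + 2 * C.card * W.card * Real.log R +
      2 * W.card * ∑ z ∈ W, Real.posLog ‖z‖

/-- T2a: in bounded degree all units become close to 1 after raising to a fixed power. -/
def St_T2a : Prop := ∀ (p : ℕ) [Fact p.Prime] (n : ℕ), ∃ E : ℕ, 1 ≤ E ∧ ∀ z : PadicAlgCl p,
  (minpoly ℚ_[p] z).natDegree ≤ n → ‖z‖ = 1 → ‖z ^ E - 1‖ ≤ (p : ℝ) ^ (-2 : ℤ)

/-- T2b: no torsion near 1. -/
def St_T2b : Prop := ∀ (p : ℕ) [Fact p.Prime] (c c' : PadicAlgCl p) (j : ℕ),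
  ‖c - 1‖ ≤ (p : ℝ) ^ (-2 : ℤ) → ‖c' - 1‖ ≤ (p : ℝ) ^ (-2 : ℤ) → 1 ≤ j → c ^ j = c' ^ j → c = c'

/-- T2c: few roots of bounded degree are not units. -/
def St_T2c : Prop := ∀ (p : ℕ) [Fact p.Prime] (n : ℕ) (f : ℤ[X]) (Z : Finset (PadicAlgCl p)),
  f.coeff 0 ≠ 0 → (∀ z ∈ Z, aeval z f = 0 ∧ (minpoly ℚ_[p] z).natDegree ≤ n ∧ ‖z‖ ≠ 1) →
  (Z.card : ℝ) * Real.log p ≤ 2 * n * lm f

/-- T3: a squarefree polynomial vanishing at all the powers `z ^ (E * j)`, `1 ≤ j ≤ N`. -/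
def St_T3 : Prop := ∀ (f : ℤ[X]), Irreducible f → 0 < f.natDegree → ∀ (E N : ℕ), 1 ≤ E → 1 ≤ N →
  ∃ G : ℤ[X], (G.map (Int.castRingHom ℚ)).Separable ∧ 0 < G.natDegree ∧
    G.natDegree ≤ N * f.natDegree ∧ lm G ≤ E * (N : ℝ) ^ 2 * lm f ∧
    (∀ z : ℂ, aeval z f = 0 → ∀ j ∈ Finset.Icc 1 N, aeval (z ^ (E * j)) G = 0) ∧
    (∀ (p : ℕ) [Fact p.Prime] (z : PadicAlgCl p), aeval z f = 0 →
      ∀ j ∈ Finset.Icc 1 N, aeval (z ^ (E * j)) G = 0)

/-- T4: multiplicatively dependent conjugates. -/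
def St_T4 : Prop := ∀ (A : Type) [Field A] [IsAlgClosed A] [CharZero A] (f : ℤ[X]),
  Irreducible f → f.coeff 0 ≠ 0 → ∀ (z z' : A) (k l : ℕ), aeval z f = 0 → aeval z' f = 0 →
  k ≠ l → 0 < k → 0 < l → z ^ k = z' ^ l → lm f = 0

/-- T5: discriminant at infinity and at p. -/
def St_T5 : Prop := ∀ (p : ℕ) [Fact p.Prime] (G : ℤ[X]) (C : Finset (PadicAlgCl p)),
  (G.map (Int.castRingHom ℚ)).Separable → 0 < G.natDegree → (∀ c ∈ C, aeval c G = 0) →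
  (∀ c ∈ C, ∀ c' ∈ C, ‖c - c'‖ ≤ (p : ℝ) ^ (-2 : ℤ)) →
  (C.card : ℝ) * (C.card - 1) * (2 * Real.log p) ≤
    2 * G.natDegree * Real.log |(G.leadingCoeff : ℝ)| + energy (crts G)

/-- T6: most roots are close to the unit circle in absolute value. -/
def St_T6 : Prop := ∀ (f : ℤ[X]) (S : Finset ℂ), f.coeff 0 ≠ 0 → (∀ z ∈ S, aeval z f = 0) →
  ∑ z ∈ S, |Real.log ‖z‖| ≤ 2 * lm f

end

end Pool.Agent.H420R4
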