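import Mathlib
import Pool.Agent.H420R4.ML.Stubs

/-!
The archimedean step.
-/

set_option autoImplicit false

namespace Pool.Agent.H420R4

open Polynomial Real

noncomputable section

lemma map_ne_zero_C {G : ℤ[X]} (hG : G ≠ 0) : G.map (Int.castRingHom ℂ) ≠ 0 := by
  rwa [Ne, Polynomial.map_eq_zero_iff (RingHom.injective_int _)]

lemma mem_crts {G : ℤ[X]} (hG : G ≠ 0) (z : ℂ) : z ∈ crts G ↔ aeval z G = 0 := by
  unfold crts
  rw [Multiset.mem_toFinset, mem_roots (map_ne_zero_C hG), IsRoot.def, eval_map, aeval_def]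
  rfl

lemma sep_C {G : ℤ[X]} (h : (G.map (Int.castRingHom ℚ)).Separable) :
    (G.map (Int.castRingHom ℂ)).Separable := by
  have h1 := h.map (f := algebraMap ℚ ℂ)
  have h2 : (algebraMap ℚ ℂ).comp (Int.castRingHom ℚ) = Int.castRingHom ℂ :=
    RingHom.ext_int _ _
  rwa [Polynomial.map_map, h2] at h1

lemma card_crts {G : ℤ[X]} (h : (G.map (Int.castRingHom ℚ)).Separable) :
    (crts G).card = G.natDegree := by
  unfold crts
  rw [Multiset.toFinset_card_of_nodup (nodup_roots (sep_C h)),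
    ← (IsAlgClosed.splits _).natDegree_eq_card_roots,
    natDegree_map_eq_of_injective (RingHom.injective_int _)]

lemma lm_eq {G : ℤ[X]} (h : (G.map (Int.castRingHom ℚ)).Separable) :
    lm G = Real.log |(G.leadingCoeff : ℝ)| + ∑ z ∈ crts G, Real.posLog ‖z‖ := by
  unfold lm
  rw [← Polynomial.logMahlerMeasure_eq_log_MahlerMeasure,
    logMahlerMeasure_eq_log_leadingCoeff_add_sum_log_roots]
  congr 1
  · rw [leadingCoeff_map_of_injective (RingHom.injective_int _)]
    simp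
  · unfold crts
    rw [Finset.sum_eq_multiset_sum, Multiset.toFinset_val,
      Multiset.dedup_eq_self.mpr (nodup_roots (sep_C h))]

lemma card_le_pow_image {A : Type*} [Field A] [DecidableEq A] (S : Finset A) (E : ℕ)
    (hE : 1 ≤ E) :
    S.card ≤ E * (S.image (fun z => z ^ E)).card := by
  apply Finset.card_le_mul_card_image
  intro b _
  have h1 : (S.filter (fun z => z ^ E = b)) ⊆ (nthRoots E b).toFinset := by
    intro z hz
    rw [Multiset.mem_toFinset, mem_nthRoots (by omega)]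
    exact (Finset.mem_filter.mp hz).2
  exact (Finset.card_le_card h1).trans ((Multiset.toFinset_card_le _).trans (card_nthRoots _ _))

/-- the numerical end of both steps -/
lemma finish (N n1 E X D T : ℕ) (m L : ℝ) (hX : 2 ≤ X) (hE : 1 ≤ E)
    (hT : T ≤ X * D) (hT1 : 1 ≤ T) (hD : 1 ≤ D) (hN : N ≤ 2 * E * n1) (hm : 0 ≤ m)
    (hL : L ≤ E * (X : ℝ) ^ 2 * m)
    (h : ((X * n1 : ℕ) : ℝ) ^ 2 / 4 ≤ 2 * T * Real.log T + 2 * T * L) :
    X * ((N : ℝ) ^ 2 / D) / (16 * (E : ℝ) ^ 2) ≤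
      2 * Real.log (X * D) + 2 * E * (X : ℝ) ^ 2 * m := by
  have hX' : (2 : ℝ) ≤ X := by exact_mod_cast hX
  have hD' : (1 : ℝ) ≤ D := by exact_mod_cast hD
  have hE' : (1 : ℝ) ≤ E := by exact_mod_cast hE
  have hT' : (T : ℝ) ≤ X * D := by exact_mod_cast hT
  have hT1' : (1 : ℝ) ≤ T := by exact_mod_cast hT1
  have hN' : (N : ℝ) ≤ 2 * E * n1 := by exact_mod_cast hN
  have h1 : Real.log T ≤ Real.log (X * D) := Real.log_le_log (by linarith) hT'
  have h2 : 0 ≤ Real.log T := Real.log_nonneg hT1'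
  have h3 : (T : ℝ) * Real.log T ≤ X * D * Real.log (X * D) := by
    apply mul_le_mul hT' h1 h2 (by positivity)
  have h4 : (T : ℝ) * L ≤ X * D * (E * (X : ℝ) ^ 2 * m) := by
    calc (T : ℝ) * L ≤ T * (E * (X : ℝ) ^ 2 * m) := by gcongr
      _ ≤ _ := by gcongr
  have h5 : ((X * n1 : ℕ) : ℝ) ^ 2 / 4 ≤ X * D * (2 * Real.log (X * D) +
      2 * E * (X : ℝ) ^ 2 * m) := by linarith
  have h6 : (N : ℝ) ^ 2 ≤ (2 * E * n1) ^ 2 := by gcongr
  push_cast at h5
  have h7 : X * ((N : ℝ) ^ 2 / D) / (16 * (E : ℝ) ^ 2) * (X * D) ≤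
      (2 * Real.log (X * D) + 2 * E * (X : ℝ) ^ 2 * m) * (X * D) := by
    have h8 : X * ((N : ℝ) ^ 2 / D) / (16 * (E : ℝ) ^ 2) * (X * D) =
        (X : ℝ) ^ 2 * (N : ℝ) ^ 2 / (16 * (E : ℝ) ^ 2) := by
      field_simp
    rw [h8, div_le_iff₀ (by positivity)]
    have h9 : (X : ℝ) ^ 2 * (N : ℝ) ^ 2 ≤ (X : ℝ) ^ 2 * (2 * E * n1) ^ 2 := by gcongr
    have h10 : ((X : ℝ) * n1) ^ 2 / 4 * (16 * (E : ℝ) ^ 2) ≤
        X * D * (2 * Real.log (X * D) + 2 * E * (X : ℝ) ^ 2 * m) * (16 * (E : ℝ) ^ 2) :=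
      mul_le_mul_of_nonneg_right h5 (by positivity)
    have h11 : ((X : ℝ) * n1) ^ 2 / 4 * (16 * (E : ℝ) ^ 2) =
      (X : ℝ) ^ 2 * (2 * E * n1) ^ 2 := by ring
    have h12 : X * D * (2 * Real.log (X * D) + 2 * E * (X : ℝ) ^ 2 * m) * (16 * (E : ℝ) ^ 2) =
      (2 * Real.log (X * D) + 2 * E * (X : ℝ) ^ 2 * m) * (X * D) * (16 * (E : ℝ) ^ 2) := by ring
    linarith
  exact le_of_mul_le_mul_right h7 (by positivity)

lemma arch_num (N n1 E X D T : ℕ) (m δ L en lc σs : ℝ) (hcase : δ ≤ n1 / (120 * D))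
    (hδpos : 0 < δ) (hn1 : 1 ≤ n1) (hX : 2 ≤ X) (hE : 1 ≤ E) (hT : T ≤ X * D) (hT1 : 1 ≤ T)
    (hD : 1 ≤ D) (hN : N ≤ 2 * E * n1) (hm : 0 ≤ m) (hL : L ≤ E * (X : ℝ) ^ 2 * m)
    (hE1 : en + ((X * n1 : ℕ) : ℝ) * (((X * n1 : ℕ) : ℝ) - 1) *
      Real.log (((X * n1 : ℕ) : ℝ) / (4 * Real.exp 1 * T * (4 * δ))) ≤
      2 * T * Real.log T + 2 * ((X * n1 : ℕ) : ℝ) * T * δ + 2 * T * σs)
    (hE2 : 0 ≤ 2 * T * lc + en) (hLm : L = lc + σs) :
    X * ((N : ℝ) ^ 2 / D) / (16 * (E : ℝ) ^ 2) ≤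
      2 * Real.log (X * D) + 2 * E * (X : ℝ) ^ 2 * m := by
  have hX' : (2 : ℝ) ≤ X := by exact_mod_cast hX
  have hD' : (1 : ℝ) ≤ D := by exact_mod_cast hD
  have hn1' : (1 : ℝ) ≤ n1 := by exact_mod_cast hn1
  have hTpos : (1 : ℝ) ≤ T := by exact_mod_cast hT1
  have hTXD : (T : ℝ) ≤ X * D := by exact_mod_cast hT
  apply finish N n1 E X D T m L hX hE hT hT1 hD hN hm hL
  generalize hn : ((X * n1 : ℕ) : ℝ) = n at hE1 ⊢
  have hn' : n = X * n1 := by rw [← hn]; push_cast; ring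
  have hn2 : 2 ≤ n := by
    rw [hn']
    calc (2 : ℝ) = 2 * 1 := by norm_num
      _ ≤ X * n1 := mul_le_mul hX' hn1' (by norm_num) (by positivity)
  have hn0 : 0 < n := by linarith
  have h1 : δ * (120 * D) ≤ n1 := by
    rwa [le_div_iff₀ (by positivity)] at hcase
  have h5 : (T : ℝ) * δ ≤ X * D * δ := mul_le_mul_of_nonneg_right hTXD hδpos.le
  have h6 : (X : ℝ) * (δ * (120 * D)) ≤ X * n1 := mul_le_mul_of_nonneg_left h1 (by linarith)
  have h7 : (T : ℝ) * δ ≤ n / 120 := by rw [hn']; linarith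
  have hlog1 : 1 ≤ Real.log (n / (4 * Real.exp 1 * T * (4 * δ))) := by
    rw [Real.le_log_iff_exp_le (by positivity), le_div_iff₀ (by positivity)]
    have he : Real.exp 1 * Real.exp 1 ≤ 7.5 := by
      have := Real.exp_one_lt_d9
      have h2 := Real.exp_pos 1
      nlinarith
    have h3 : Real.exp 1 * (4 * Real.exp 1 * T * (4 * δ)) =
        (Real.exp 1 * Real.exp 1) * (16 * (T * δ)) := by ring
    rw [h3]
    have h4 : (Real.exp 1 * Real.exp 1) * (16 * (T * δ)) ≤ 7.5 * (16 * (T * δ)) := by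
      apply mul_le_mul_of_nonneg_right he (by positivity)
    linarith
  have hstep : n * (n - 1) ≤ 2 * T * Real.log T + 2 * n * T * δ + 2 * T * L := by
    have h1 : n * (n - 1) ≤ n * (n - 1) * Real.log (n / (4 * Real.exp 1 * T * (4 * δ))) := by
      apply le_mul_of_one_le_right _ hlog1
      exact mul_nonneg hn0.le (by linarith)
    have h2 : (2 : ℝ) * T * L = 2 * T * lc + 2 * T * σs := by rw [hLm]; ring
    linarith
  have hδT : 2 * n * T * δ ≤ n ^ 2 / 60 := by
    have h5 : 2 * n * T * δ = 2 * n * (T * δ) := by ring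
    rw [h5]
    calc 2 * n * (T * δ) ≤ 2 * n * (n / 120) := by gcongr
      _ = n ^ 2 / 60 := by ring
  have h1 : n * 2 ≤ n * n := mul_le_mul_of_nonneg_left hn2 (by linarith)
  have h2 : n * (n - 1) = n ^ 2 - n := by ring
  have h3 : n * n = n ^ 2 := by ring
  linarith

lemma arch_step (t1 : St_T1) (t3 : St_T3) (t4 : St_T4) (t5 : St_T5) (t6 : St_T6) (f : ℤ[X])
    (hf : Irreducible f) (h0 : f.coeff 0 ≠ 0) (hm : 0 < lm f) (hD : 0 < f.natDegree)
    (E : ℕ) (hE : 1 ≤ E) (θ : ℝ) (hθ : 0 ≤ θ) (S : Finset ℂ)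
    (hS : ∀ z ∈ S, aeval z f = 0 ∧ |Complex.arg (z ^ E)| ≤ θ) (X : ℕ) (hX : 2 ≤ X) :
    1 / (1000 * (E : ℝ) ^ 2) * ((S.card : ℝ) ^ 2 / f.natDegree) / X ≤ lm f + S.card * θ ∨
    1 / (1000 * (E : ℝ) ^ 2) * X * ((S.card : ℝ) ^ 2 / f.natDegree) ≤
      2 * Real.log (X * f.natDegree) + 2 * E * (X : ℝ) ^ 2 * lm f := by
  classical
  set D := f.natDegree with hDdef
  set N := S.card with hN
  set m := lm f with hmdef
  have hf0 : f ≠ 0 := hf.ne_zero
  have hX' : (2 : ℝ) ≤ X := by exact_mod_cast hX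
  have hD' : (1 : ℝ) ≤ D := by exact_mod_cast hD
  have hE' : (1 : ℝ) ≤ E := by exact_mod_cast hE
  have hND : N ≤ D := by
    have h1 : S ⊆ crts f := fun z hz => (mem_crts hf0 z).mpr (hS z hz).1
    refine (Finset.card_le_card h1).trans ?_
    unfold crts
    refine (Multiset.toFinset_card_le _).trans ((card_roots' _).trans ?_)
    exact natDegree_map_le
  have hND' : (N : ℝ) ≤ D := by exact_mod_cast hND
  rcases Nat.eq_zero_or_pos N with hN0 | hNpos
  · right
    have : (N : ℝ) = 0 := by exact_mod_cast hN0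
    rw [this]
    have h1 : 0 ≤ Real.log (X * D) := Real.log_nonneg (by nlinarith)
    have h2 : 0 ≤ 2 * E * (X : ℝ) ^ 2 * m := by positivity
    have h3 : 1 / (1000 * (E : ℝ) ^ 2) * X * ((0 : ℝ) ^ 2 / D) = 0 := by simp
    rw [h3]
    linarith
  have hN' : (1 : ℝ) ≤ N := by exact_mod_cast hNpos
  -- good roots
  set S' := S.filter (fun z => |Real.log ‖z‖| ≤ 4 * m / N) with hS'
  have hgood : N ≤ 2 * S'.card := by
    have h1 := t6 f S h0 (fun z hz => (hS z hz).1)
    have h2 : ((S.filter (fun z => ¬ |Real.log ‖z‖| ≤ 4 * m / N)).card : ℝ) * (4 * m / N) ≤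
        2 * m := by
      refine le_trans ?_ h1
      rw [← nsmul_eq_mul]
      refine (Finset.card_nsmul_le_sum _ _ _ ?_).trans
        (Finset.sum_le_sum_of_subset_of_nonneg (Finset.filter_subset _ _)
          (fun _ _ _ => abs_nonneg _))
      intro z hz
      exact (not_le.mp (Finset.mem_filter.mp hz).2).le
    have h3 : (2 : ℝ) * (S.filter (fun z => ¬ |Real.log ‖z‖| ≤ 4 * m / N)).card ≤ N := by
      have h4 : ((S.filter (fun z => ¬ |Real.log ‖z‖| ≤ 4 * m / N)).card : ℝ) * (4 * m / N) =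
        (2 * (S.filter (fun z => ¬ |Real.log ‖z‖| ≤ 4 * m / N)).card) * (2 * m) / N := by ring
      rw [h4, div_le_iff₀ (by linarith)] at h2
      have : (2 * ((S.filter (fun z => ¬ |Real.log ‖z‖| ≤ 4 * m / N)).card : ℝ)) * (2 * m) ≤
        N * (2 * m) := by linarith
      exact le_of_mul_le_mul_right this (by positivity)
    have h5 : 2 * (S.filter (fun z => ¬ |Real.log ‖z‖| ≤ 4 * m / N)).card ≤ N := by
      exact_mod_cast h3
    have h6 : S'.card + (S.filter (fun z => ¬ |Real.log ‖z‖| ≤ 4 * m / N)).card = N :=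
      Finset.card_filter_add_card_filter_not (s := S) (fun z => |Real.log ‖z‖| ≤ 4 * m / N)
    omega
  set C1 := S'.image (fun z => z ^ E) with hC1
  set n1 := C1.card with hn1
  have hS'n : S'.card ≤ E * n1 := card_le_pow_image S' E hE
  have hNn : N ≤ 2 * E * n1 := by nlinarith
  have hn1pos : 1 ≤ n1 := by
    by_contra h
    have : n1 = 0 := by omega
    rw [this] at hNn
    omega
  have hn1' : (1 : ℝ) ≤ n1 := by exact_mod_cast hn1pos
  have hNn' : (N : ℝ) ≤ 2 * E * n1 := by exact_mod_cast hNn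
  set η := E * (4 * m / N) + θ with hη
  have hηpos : 0 < η := by positivity
  set δ := X * η with hδ
  have hδpos : 0 < δ := by positivity
  by_cases hcase : δ ≤ n1 / (120 * D)
  swap
  · left
    push Not at hcase
    have h1 : (N : ℝ) / (240 * E * D) < δ := by
      refine lt_of_le_of_lt ?_ hcase
      rw [div_le_div_iff₀ (by positivity) (by positivity)]
      have h11 : (N : ℝ) * (120 * D) ≤ 2 * E * n1 * (120 * D) := by gcongr
      linarith
    have h2 : δ * N = X * (4 * E * m + N * θ) := by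
      rw [hδ, hη]
      field_simp
    have h3 : (N : ℝ) / (240 * E * D) * N < X * (4 * E * m + N * θ) := by
      rw [← h2]
      exact mul_lt_mul_of_pos_right h1 (by linarith)
    have h4 : X * (4 * E * m + N * θ) ≤ X * (4 * E * (m + N * θ)) := by
      apply mul_le_mul_of_nonneg_left _ (by positivity)
      have h41 : 0 ≤ N * θ := by positivity
      have h42 : 1 * (N * θ) ≤ (4 * E) * (N * θ) := mul_le_mul_of_nonneg_right (by linarith) h41
      linarith
    have h5 : (N : ℝ) / (240 * E * D) * N = (N : ℝ) ^ 2 / D / (240 * E) := by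
      field_simp
    rw [h5] at h3
    have h6 : (N : ℝ) ^ 2 / D / (240 * E) ≤ (m + N * θ) * (4 * E * X) := by linarith
    have h7 : (N : ℝ) ^ 2 / D ≤ (m + N * θ) * (4 * E * X) * (240 * E) := by
      rwa [div_le_iff₀ (by positivity)] at h6
    have h8 : 1 / (1000 * (E : ℝ) ^ 2) * ((N : ℝ) ^ 2 / D) / X =
        ((N : ℝ) ^ 2 / D) / (1000 * (E : ℝ) ^ 2 * X) := by
      field_simp
    rw [h8, div_le_iff₀ (by positivity)]
    have h9 : 0 ≤ m + N * θ := by positivity
    refine h7.trans ?_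
    have h10 : (m + N * θ) * (4 * E * X) * (240 * E) = (m + N * θ) * (960 * (E : ℝ) ^ 2 * X) := by
      ring
    rw [h10]
    apply mul_le_mul_of_nonneg_left _ h9
    nlinarith [show (0 : ℝ) ≤ (E : ℝ) ^ 2 * X by positivity]
  right
  have hn1N : (n1 : ℝ) ≤ N := by
    have : n1 ≤ N := (Finset.card_image_le).trans (Finset.card_filter_le _ _)
    exact_mod_cast this
  have hδ1 : δ ≤ 1 := by
    refine hcase.trans ?_
    rw [div_le_one (by positivity)]
    linarith
  -- logarithms of the elements of C1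
  have hlogc : ∀ c ∈ C1, c ≠ 0 ∧ ‖Complex.log c‖ ≤ η := by
    intro c hc
    obtain ⟨z, hz, rfl⟩ := Finset.mem_image.mp hc
    obtain ⟨hzS, hzlog⟩ := Finset.mem_filter.mp hz
    obtain ⟨hz1, hz2⟩ := hS z hzS
    have hz0 : z ≠ 0 := by
      rintro rfl
      apply h0
      have : (aeval (0 : ℂ) f) = (f.coeff 0 : ℂ) := by
        rw [← coeff_zero_eq_aeval_zero']
        rfl
      rw [this] at hz1
      exact_mod_cast hz1
    refine ⟨pow_ne_zero _ hz0, ?_⟩
    have h1 : Complex.log (z ^ E) = (Real.log ‖z ^ E‖ : ℂ) + Complex.arg (z ^ E) * Complex.I := rfl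
    rw [h1]
    refine (norm_add_le _ _).trans ?_
    rw [norm_mul, Complex.norm_I, mul_one, Complex.norm_real, Complex.norm_real, norm_pow,
      Real.log_pow, Real.norm_eq_abs, Real.norm_eq_abs, abs_mul, abs_of_nonneg
      (show (0 : ℝ) ≤ (E : ℝ) by positivity), hη]
    gcongr
  have hu : ∀ c ∈ C1, ∀ j ∈ Finset.Icc 1 X, c ^ j = Complex.exp (j * Complex.log c) ∧
      ‖(j : ℂ) * Complex.log c‖ ≤ δ := by
    intro c hc j hj
    obtain ⟨hc0, hcl⟩ := hlogc c hc
    constructor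
    · rw [Complex.exp_nat_mul, Complex.exp_log hc0]
    · rw [norm_mul, Complex.norm_natCast, hδ]
      have : (j : ℝ) ≤ X := by exact_mod_cast (Finset.mem_Icc.mp hj).2
      gcongr
  set C := (C1 ×ˢ Finset.Icc 1 X).image (fun q => q.1 ^ q.2) with hC
  have hCcard : C.card = X * n1 := by
    rw [hC, Finset.card_image_of_injOn, Finset.card_product, Nat.card_Icc]
    · simp [mul_comm, hn1]
    · rintro ⟨c, j⟩ hq ⟨c', j'⟩ hq' heq
      simp only [Finset.coe_product, Set.mem_prod, Finset.mem_coe] at hq hq'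
      obtain ⟨hc, hj⟩ := hq
      obtain ⟨hc', hj'⟩ := hq'
      simp only at heq hc hj hc' hj'
      have hjj : j = j' := by
        by_contra hne
        obtain ⟨z, hz, rfl⟩ := Finset.mem_image.mp hc
        obtain ⟨z', hz', rfl⟩ := Finset.mem_image.mp hc'
        have h1 := t4 ℂ f hf h0 z z' (E * j) (E * j') (hS z (Finset.mem_filter.mp hz).1).1
          (hS z' (Finset.mem_filter.mp hz').1).1
          (by
            intro h
            exact hne (Nat.eq_of_mul_eq_mul_left (by omega) h))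
          (Nat.mul_pos (by omega) (by have := (Finset.mem_Icc.mp hj).1; omega))
          (Nat.mul_pos (by omega) (by have := (Finset.mem_Icc.mp hj').1; omega))
          (by rw [pow_mul, pow_mul]; exact heq)
        exact hm.ne' h1
      subst hjj
      obtain ⟨h1, h2⟩ := hu c hc j hj
      obtain ⟨h3, h4⟩ := hu c' hc' j hj
      have hpi : (3 : ℝ) < π := Real.pi_gt_three
      have h5 : Complex.log (Complex.exp ((j : ℂ) * Complex.log c)) = (j : ℂ) * Complex.log c := by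
        have h6 := (Complex.abs_im_le_norm ((j : ℂ) * Complex.log c)).trans h2
        have h7 := abs_le.mp h6
        exact Complex.log_exp (by linarith [h7.1]) (by linarith [h7.2])
      have h6 : Complex.log (Complex.exp ((j : ℂ) * Complex.log c')) =
          (j : ℂ) * Complex.log c' := by
        have h6 := (Complex.abs_im_le_norm ((j : ℂ) * Complex.log c')).trans h4
        have h7 := abs_le.mp h6
        exact Complex.log_exp (by linarith [h7.1]) (by linarith [h7.2])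
      have h7 : (j : ℂ) * Complex.log c = (j : ℂ) * Complex.log c' := by
        rw [← h5, ← h6, ← h1, ← h3, heq]
      have hj0 : (j : ℂ) ≠ 0 := by
        have := (Finset.mem_Icc.mp hj).1
        exact_mod_cast (by omega : j ≠ 0)
      have h8 := mul_left_cancel₀ hj0 h7
      have h9 : c = c' := by
        rw [← Complex.exp_log (hlogc c hc).1, h8, Complex.exp_log (hlogc c' hc').1]
      rw [h9]
  -- the auxiliary polynomial
  obtain ⟨G, hsep, hGpos, hGdeg, hGm, hGroot, -⟩ := t3 f hf hD E X hE (by omega)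
  have hG0 : G ≠ 0 := by
    rintro rfl
    simp at hGpos
  set W := crts G with hW
  set T := G.natDegree with hT
  have hWT : W.card = T := card_crts hsep
  have hCW : C ⊆ W := by
    intro w hw
    obtain ⟨⟨c, j⟩, hq, rfl⟩ := Finset.mem_image.mp hw
    obtain ⟨hc, hj⟩ := Finset.mem_product.mp hq
    obtain ⟨z, hz, hzc⟩ := Finset.mem_image.mp hc
    rw [hW, mem_crts hG0]
    simp only at hzc hj ⊢
    rw [← hzc, ← pow_mul]
    exact hGroot z (hS z (Finset.mem_filter.mp hz).1).1 j hj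
  have hnear : ∀ w ∈ C, ‖w‖ ≤ Real.exp δ ∧ ‖w - 1‖ ≤ 2 * δ := by
    intro w hw
    obtain ⟨⟨c, j⟩, hq, rfl⟩ := Finset.mem_image.mp hw
    obtain ⟨hc, hj⟩ := Finset.mem_product.mp hq
    obtain ⟨h1, h2⟩ := hu c hc j hj
    simp only
    rw [h1]
    constructor
    · rw [Complex.norm_exp]
      apply Real.exp_le_exp.mpr
      exact (Complex.re_le_norm _).trans h2
    · refine (Complex.norm_exp_sub_one_le (h2.trans hδ1)).trans ?_
      linarith
  have hpair : ∀ z ∈ C, ∀ w ∈ C, ‖z - w‖ ≤ 4 * δ := by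
    intro z hz w hw
    have h1 : z - w = (z - 1) - (w - 1) := by ring
    rw [h1]
    refine (norm_sub_le _ _).trans ?_
    linarith [(hnear z hz).2, (hnear w hw).2]
  have hE1 := t1 W C (4 * δ) (Real.exp δ) hCW (by positivity) (Real.one_le_exp hδpos.le)
    (fun z hz => (hnear z hz).1) hpair
  have : Fact (Nat.Prime 2) := ⟨Nat.prime_two⟩
  have hE2 := t5 2 G ∅ hsep hGpos (by simp) (by simp)
  simp only [Finset.card_empty, Nat.cast_zero, zero_mul] at hE2
  rw [Real.log_exp, hCcard, hWT] at hE1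
  have hlmG := lm_eq hsep
  rw [← hW] at hlmG hE2
  have hfin := arch_num N n1 E X D T m δ (lm G) (energy W) (Real.log |(G.leadingCoeff : ℝ)|)
    (∑ z ∈ W, Real.posLog ‖z‖) hcase hδpos hn1pos hX hE hGdeg hGpos hD hNn hm.le hGm hE1 hE2 hlmG
  refine le_trans ?_ hfin
  have h1 : 1 / (1000 * (E : ℝ) ^ 2) * X * ((N : ℝ) ^ 2 / D) =
      X * ((N : ℝ) ^ 2 / D) / (1000 * (E : ℝ) ^ 2) := by field_simp
  rw [h1]
  apply div_le_div_of_nonneg_left (by positivity) (by positivity)
  nlinarith [show (0 : ℝ) ≤ (E : ℝ) ^ 2 by positivity]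

end

end Pool.Agent.H420R4
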