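import Mathlib

/-!
Final optimisation.
-/

set_option autoImplicit false

namespace Pool.Agent.H420R4

open Real

noncomputable section

lemma final_arith (E : ℕ) (hE : 1 ≤ E) (κ : ℝ) (hκ : 0 < κ) (hκ1 : κ ≤ 1) :
    ∃ c : ℝ, 0 < c ∧ ∀ (D : ℕ) (A m M : ℝ), 1 ≤ D → 0 ≤ m → m ≤ M →
      (A = 0 ∨ 1 / (D : ℝ) ≤ A) →
      (∀ X : ℕ, 2 ≤ X → κ * A / X ≤ M ∨
        κ * X * A ≤ 2 * Real.log (X * D) + 2 * E * (X : ℝ) ^ 2 * m) →
      c * (A * min 1 (A / Real.log (2 * D))) ≤ M := by
  -- choose K with κ K / 2 ≥ 2 * (3 + 2 log (K + 3))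
  obtain ⟨K, hK1, hK⟩ : ∃ K : ℝ, 1 ≤ K ∧ 2 * (3 + 2 * Real.log (K + 3)) ≤ κ * K / 2 := by
    refine ⟨(1000 / κ) ^ 2, ?_, ?_⟩
    · have : 1 ≤ 1000 / κ := by rw [le_div_iff₀ hκ]; linarith
      nlinarith
    · set y := 1000 / κ with hy
      have hy1 : 1000 ≤ y := by rw [hy, le_div_iff₀ hκ]; nlinarith
      have h1 : Real.log (y ^ 2 + 3) ≤ 2 * y := by
        have h2 : y ^ 2 + 3 ≤ (2 * y) ^ 2 := by nlinarith
        have h3 := Real.log_le_log (by positivity) h2
        rw [Real.log_pow] at h3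
        have h4 := Real.log_le_sub_one_of_pos (show (0 : ℝ) < 2 * y by positivity)
        have h5 : Real.log (2 * y) ≤ y := by
          have h6 : Real.log (2 * y) = Real.log 2 + Real.log y := by
            rw [Real.log_mul (by norm_num) (by positivity)]
          have h7 : Real.log y ≤ y - 1 := Real.log_le_sub_one_of_pos (by positivity)
          have h8 : Real.log 2 ≤ 1 := by
            have := Real.log_two_lt_d9
            linarith
          linarith
        push_cast at h3
        linarith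
      have h2 : κ * y = 1000 := by rw [hy]; field_simp
      have h3 : κ * y ^ 2 = 1000 * y := by rw [pow_two, ← mul_assoc, h2]
      rw [h3]
      nlinarith
  refine ⟨κ / (4 * E * (K + 3)), by positivity, ?_⟩
  intro D A m M hD hm hmM hA hX
  have hE' : (1 : ℝ) ≤ E := by exact_mod_cast hE
  have hD' : (1 : ℝ) ≤ D := by exact_mod_cast hD
  rcases hA with rfl | hA
  · simp; linarith
  have hApos : 0 < A := lt_of_lt_of_le (by positivity) hA
  have hlog2 : 1 / 2 ≤ Real.log 2 := by
    have := Real.log_two_gt_d9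
    linarith
  have hlogD : Real.log 2 ≤ Real.log (2 * D) := Real.log_le_log (by norm_num) (by linarith)
  set ℓ := Real.log (2 * D) with hℓ
  have hℓpos : 0 < ℓ := by linarith
  set X : ℕ := ⌈K * ℓ / A⌉₊ + 2 with hXdef
  have hX2 : 2 ≤ X := by omega
  have hX2' : (2 : ℝ) ≤ X := by exact_mod_cast hX2
  have hXlow : K * ℓ / A ≤ X := by
    have := Nat.le_ceil (K * ℓ / A)
    have h2 : ((⌈K * ℓ / A⌉₊ : ℕ) : ℝ) ≤ X := by exact_mod_cast (by omega)
    linarith
  have hXup : (X : ℝ) ≤ K * ℓ / A + 3 := by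
    have := Nat.ceil_lt_add_one (show 0 ≤ K * ℓ / A by positivity)
    rw [hXdef]
    push_cast
    linarith
  have hXA : K * ℓ ≤ X * A := by
    rw [div_le_iff₀ hApos] at hXlow
    linarith
  -- log (X D) ≤ (3 + 2 log (K+3)) ℓ
  have hlogXD : Real.log (X * D) ≤ (3 + 2 * Real.log (K + 3)) * ℓ := by
    have h1 : (X : ℝ) * D ≤ (K + 3) * (2 * D) ^ 3 := by
      have h2 : K * ℓ / A ≤ K * ℓ * D := by
        rw [div_le_iff₀ hApos]
        have h3 : 1 ≤ D * A := by
          rw [div_le_iff₀ (by positivity)] at hA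
          linarith
        have h4 : 0 ≤ K * ℓ := by positivity
        nlinarith
      have h3 : ℓ ≤ 2 * D := by
        have := Real.log_le_sub_one_of_pos (show (0 : ℝ) < 2 * D by positivity)
        linarith
      have h4 : K * ℓ * D ≤ K * (2 * D) * D := by gcongr
      have h5 : (X : ℝ) * D ≤ (K * (2 * D) * D + 3) * D := by
        apply mul_le_mul_of_nonneg_right _ (by positivity)
        linarith
      have h6 : (D : ℝ) ≤ D ^ 3 := by
        have := pow_le_pow_right₀ hD' (show 1 ≤ 3 by norm_num)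
        simpa using this
      have h7 : (K * (2 * D) * D + 3) * D = 2 * K * (D : ℝ) ^ 3 + 3 * D := by ring
      have h8 : (K + 3) * (2 * (D : ℝ)) ^ 3 = 8 * K * (D : ℝ) ^ 3 + 24 * (D : ℝ) ^ 3 := by ring
      rw [h7] at h5
      rw [h8]
      have h9 : 0 ≤ K * (D : ℝ) ^ 3 := by positivity
      nlinarith
    have h2 := Real.log_le_log (by positivity) h1
    rw [Real.log_mul (x := K + 3) (by positivity) (by positivity), Real.log_pow] at h2
    have h3 : 0 ≤ Real.log (K + 3) := Real.log_nonneg (by linarith)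
    have h4 : Real.log (K + 3) ≤ 2 * Real.log (K + 3) * ℓ := by nlinarith
    push_cast at h2
    rw [← hℓ] at h2
    linarith
  -- main inequality
  have hmain : κ * A / (4 * E * X) ≤ M := by
    rcases hX X hX2 with h | h
    · refine le_trans ?_ h
      apply div_le_div_of_nonneg_left (by positivity) (by positivity)
      nlinarith
    · have h1 : 2 * Real.log (X * D) ≤ κ * X * A / 2 := by
        have h2 : 2 * (3 + 2 * Real.log (K + 3)) * ℓ ≤ κ * K / 2 * ℓ :=
          mul_le_mul_of_nonneg_right hK hℓpos.le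
        have h3 : κ * (K * ℓ) ≤ κ * (X * A) := mul_le_mul_of_nonneg_left hXA hκ.le
        linarith
      have h2 : κ * X * A / 2 ≤ 2 * E * (X : ℝ) ^ 2 * m := by linarith
      have h3 : κ * A / (4 * E * X) ≤ m := by
        rw [div_le_iff₀ (by positivity)]
        have h4 : κ * A * X ≤ m * (4 * E * X) * X := by nlinarith
        exact le_of_mul_le_mul_right h4 (by positivity)
      linarith
  refine le_trans ?_ hmain
  have hXup2 : (X : ℝ) * min 1 (A / ℓ) ≤ K + 3 := by
    rcases le_total (A / ℓ) 1 with h | h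
    · rw [min_eq_right h]
      have h1 : A ≤ ℓ := by rwa [div_le_one hℓpos] at h
      calc (X : ℝ) * (A / ℓ) ≤ (K * ℓ / A + 3) * (A / ℓ) := by gcongr
        _ = K + 3 * (A / ℓ) := by field_simp
        _ ≤ K + 3 := by linarith
    · rw [min_eq_left h, mul_one]
      have h1 : ℓ ≤ A := by rwa [one_le_div hℓpos] at h
      have h2 : K * ℓ / A ≤ K := by
        rw [div_le_iff₀ hApos]
        nlinarith
      linarith
  rw [le_div_iff₀ (by positivity)]
  have h1 : κ / (4 * E * (K + 3)) * (A * min 1 (A / ℓ)) * (4 * E * X) =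
      κ * A * (X * min 1 (A / ℓ)) / (K + 3) := by
    field_simp
  rw [h1, div_le_iff₀ (by positivity)]
  apply mul_le_mul_of_nonneg_left hXup2 (by positivity)

end

end Pool.Agent.H420R4
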