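import Mathlib

/-!
Divided differences of monomials and a Vandermonde bound for clustered points.
-/

set_option autoImplicit false

namespace Pool.Agent.H420R4

open Polynomial Real

noncomputable section

/-- divided difference of `x ^ m` at the first `i + 1` points of `c`. -/
def dd (c : ℕ → ℂ) (i m : ℕ) : ℂ :=
  ∑ j ∈ Finset.range (i + 1), c j ^ m / ∏ l ∈ (Finset.range (i + 1)).erase j, (c j - c l)

lemma dd_zero_right (c : ℕ → ℂ) (i : ℕ) (hc : Set.InjOn c (Finset.range (i + 1))) :
    dd c i 0 = if i = 0 then 1 else 0 := by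
  have h1 := Lagrange.coeff_eq_sum (s := Finset.range (i + 1)) (v := c) hc (P := (1 : ℂ[X])) (by
    rw [Polynomial.degree_one, Finset.card_range]
    exact_mod_cast Nat.succ_pos i)
  simp only [Finset.card_range, Nat.add_sub_cancel, eval_one] at h1
  unfold dd
  simp only [pow_zero]
  rw [← h1, Polynomial.coeff_one]

lemma dd_succ (c : ℕ → ℂ) (i m : ℕ) (hc : Set.InjOn c (Finset.range (i + 2))) :
    dd c (i + 1) (m + 1) = c (i + 1) * dd c (i + 1) m + dd c i m := by
  unfold dd
  rw [Finset.mul_sum, ← sub_eq_iff_eq_add', ← Finset.sum_sub_distrib, Finset.sum_range_succ]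
  have h1 : c (i + 1) ^ (m + 1) / ∏ l ∈ (Finset.range (i + 1 + 1)).erase (i + 1),
      (c (i + 1) - c l) - c (i + 1) * (c (i + 1) ^ m /
        ∏ l ∈ (Finset.range (i + 1 + 1)).erase (i + 1), (c (i + 1) - c l)) = 0 := by
    ring
  rw [h1, add_zero]
  refine Finset.sum_congr rfl fun j hj => ?_
  have hj' := Finset.mem_range.mp hj
  have h2 : (Finset.range (i + 1 + 1)).erase j =
      insert (i + 1) ((Finset.range (i + 1)).erase j) := by
    ext l
    simp only [Finset.mem_erase, Finset.mem_range, Finset.mem_insert]
    omega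
  have h3 : (i + 1) ∉ (Finset.range (i + 1)).erase j := by
    simp
  rw [h2, Finset.prod_insert h3]
  have h4 : c j - c (i + 1) ≠ 0 := by
    rw [sub_ne_zero]
    intro h
    have := hc (by simp; omega) (by simp) h
    omega
  have h5 : ∏ l ∈ (Finset.range (i + 1)).erase j, (c j - c l) ≠ 0 := by
    rw [Finset.prod_ne_zero_iff]
    intro l hl
    rw [sub_ne_zero]
    intro h
    simp only [Finset.mem_erase, Finset.mem_range] at hl
    have := hc (by simp; omega) (by simp; omega) h
    omega
  field_simp
  ring

lemma norm_dd_le (c : ℕ → ℂ) (R : ℝ) (hR : 1 ≤ R) (i m : ℕ)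
    (hc : Set.InjOn c (Finset.range (i + 1))) (hn : ∀ j ≤ i, ‖c j‖ ≤ R) :
    ‖dd c i m‖ ≤ m.choose i * R ^ m := by
  induction m generalizing i with
  | zero =>
    rw [dd_zero_right c i hc]
    split_ifs with h
    · subst h; simp
    · simp; 
  | succ m ih =>
    cases i with
    | zero =>
      simp only [dd, zero_add, Finset.range_one, Finset.sum_singleton, Nat.choose_zero_right,
        Nat.cast_one, one_mul]
      have : (({0} : Finset ℕ).erase 0) = ∅ := by simp
      rw [this, Finset.prod_empty, div_one, norm_pow]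
      exact pow_le_pow_left₀ (norm_nonneg _) (hn 0 le_rfl) _
    | succ i =>
      rw [dd_succ c i m hc]
      have h1 := ih (i + 1) hc hn
      have h2 := ih i (hc.mono (by
        intro x hx
        simp only [Finset.coe_range, Set.mem_Iio] at hx ⊢
        omega)) (fun j hj => hn j (by omega))
      refine (norm_add_le _ _).trans ?_
      rw [norm_mul, Nat.choose_succ_succ, Nat.cast_add, pow_succ]
      have h3 : ‖c (i + 1)‖ * ‖dd c (i + 1) m‖ ≤ R * (m.choose (i + 1) * R ^ m) :=
        mul_le_mul (hn _ le_rfl) h1 (norm_nonneg _) (by linarith)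
      have h4 : (m.choose i : ℝ) * R ^ m ≤ m.choose i * (R ^ m * R) := by
        apply mul_le_mul_of_nonneg_left _ (by positivity)
        exact le_mul_of_one_le_right (by positivity) hR
      linarith

lemma sum_log_pow_fact (n : ℕ) (T : ℝ) (hT : 0 < T) :
    ∑ i ∈ Finset.range n, Real.log (T ^ i / (i.factorial : ℝ)) ≤
      (n : ℝ) * (n - 1) / 2 * Real.log (4 * Real.exp 1 * T / n) := by
  have hlog4 : 1 ≤ Real.log 4 := by
    have h1 : (4 : ℝ) = 2 ^ 2 := by norm_num
    rw [h1, Real.log_pow]
    have := Real.log_two_gt_d9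
    push_cast
    linarith
  -- termwise
  have h1 : ∀ i : ℕ, Real.log (T ^ i / (i.factorial : ℝ)) ≤
      i * (1 + Real.log T) - i * Real.log i := by
    intro i
    rcases Nat.eq_zero_or_pos i with rfl | hi
    · simp
    have hi' : (0 : ℝ) < i := by exact_mod_cast hi
    have hf : (0 : ℝ) < i.factorial := by exact_mod_cast i.factorial_pos
    have h2 : (i : ℝ) ^ i / i.factorial ≤ Real.exp i := Real.pow_div_factorial_le_exp i hi'.le i
    have h3 := Real.log_le_log (by positivity) h2
    rw [Real.log_exp, Real.log_div (by positivity) (by positivity), Real.log_pow] at h3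
    rw [Real.log_div (by positivity) (by positivity), Real.log_pow]
    linarith
  have h2 : ∀ n : ℕ, (n : ℝ) * (n - 1) / 2 * (Real.log n - Real.log 4) ≤
      ∑ i ∈ Finset.range n, (i : ℝ) * Real.log i := by
    intro n
    induction n with
    | zero => simp
    | succ k ih =>
      rw [Finset.sum_range_succ]
      rcases Nat.eq_zero_or_pos k with rfl | hk
      · simp
      have hk' : (1 : ℝ) ≤ k := by exact_mod_cast hk
      have h3 : Real.log ((k : ℝ) + 1) ≤ Real.log k + 1 / k := by
        have h4 : (k : ℝ) + 1 = k * (1 + 1 / k) := by field_simp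
        rw [h4, Real.log_mul (by positivity) (by positivity)]
        have := Real.log_le_sub_one_of_pos (show (0 : ℝ) < 1 + 1 / k by positivity)
        linarith
      push_cast
      have h5 : ((k : ℝ) + 1) * ((k : ℝ) + 1 - 1) / 2 * (Real.log (k + 1) - Real.log 4) ≤
          ((k : ℝ) + 1) * k / 2 * (Real.log k + 1 / k - Real.log 4) := by
        rw [add_sub_cancel_right]
        apply mul_le_mul_of_nonneg_left (by linarith) (by positivity)
      have h6 : ((k : ℝ) + 1) * k / 2 * (Real.log k + 1 / k - Real.log 4) =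
          (k : ℝ) * (k - 1) / 2 * (Real.log k - Real.log 4) + k * Real.log k +
            ((k + 1) / 2 - k * Real.log 4) := by
        field_simp
        ring
      have h7 : ((k : ℝ) + 1) / 2 - k * Real.log 4 ≤ 0 := by nlinarith
      linarith
  refine (Finset.sum_le_sum fun i _ => h1 i).trans ?_
  rw [Finset.sum_sub_distrib, ← Finset.sum_mul]
  have h3 : ∑ i ∈ Finset.range n, (i : ℝ) = (n : ℝ) * (n - 1) / 2 := by
    have := Finset.sum_range_id_mul_two n
    have h4 : ((∑ i ∈ Finset.range n, i : ℕ) : ℝ) * 2 = ((n * (n - 1) : ℕ) : ℝ) := by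
      exact_mod_cast this
    rcases Nat.eq_zero_or_pos n with rfl | hn
    · simp
    rw [Nat.cast_mul, Nat.cast_sub hn, Nat.cast_one, Nat.cast_sum] at h4
    linarith
  rw [h3]
  rcases Nat.eq_zero_or_pos n with rfl | hn
  · simp
  have hn' : (0 : ℝ) < n := by exact_mod_cast hn
  have h5 : Real.log (4 * Real.exp 1 * T / n) =
      1 + Real.log T + Real.log 4 - Real.log n := by
    rw [Real.log_div (by positivity) (by positivity), Real.log_mul (by positivity) (by positivity),
      Real.log_mul (by positivity) (by positivity), Real.log_exp]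
    ring
  rw [h5]
  have := h2 n
  linarith

end

end Pool.Agent.H420R4
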