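import Mathlib
import Pool.Agent.H420R4.ML.Stubs

/-! Gauss's lemma for integer polynomials over `ℂ` and over `PadicAlgCl p` (auxiliary). -/

set_option autoImplicit false

namespace Pool.Agent.H420R4.GA

open Polynomial Real

section gen

variable {A : Type*} [Field A] [CharZero A]

theorem inj : Function.Injective (Int.castRingHom A) := RingHom.injective_int _

theorem lc_map (G : ℤ[X]) : (G.map (Int.castRingHom A)).leadingCoeff = (G.leadingCoeff : A) := by
  rw [leadingCoeff_map_of_injective inj]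
  rfl

theorem natDegree_map' (G : ℤ[X]) : (G.map (Int.castRingHom A)).natDegree = G.natDegree :=
  natDegree_map_eq_of_injective inj G

theorem mem_roots'' {G : ℤ[X]} (hG : G ≠ 0) (z : A) :
    z ∈ (G.map (Int.castRingHom A)).roots ↔ aeval z G = 0 := by
  rw [mem_roots ((Polynomial.map_ne_zero_iff inj).2 hG), IsRoot, eval_map, aeval_def]
  rfl

variable [IsAlgClosed A]

theorem map_eq (G : ℤ[X]) : G.map (Int.castRingHom A) =
    C (G.leadingCoeff : A) * ((G.map (Int.castRingHom A)).roots.map (fun a => X - C a)).prod := by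
  conv_lhs => rw [(IsAlgClosed.splits (G.map (Int.castRingHom A))).eq_prod_roots, lc_map]

theorem card_roots' (G : ℤ[X]) : (G.map (Int.castRingHom A)).roots.card = G.natDegree := by
  rw [← natDegree_map' (A := A) G]
  exact ((IsAlgClosed.splits (G.map (Int.castRingHom A))).natDegree_eq_card_roots).symm

end gen

section padic

variable (p : ℕ) [hp : Fact p.Prime]

/-- the norm as an absolute value -/
noncomputable def av : AbsoluteValue (PadicAlgCl p) ℝ := NormedField.toAbsoluteValue (PadicAlgCl p)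

theorem av_apply (x : PadicAlgCl p) : av p x = ‖x‖ := rfl

theorem av_na : IsNonarchimedean (av p) := PadicAlgCl.isNonarchimedean p

theorem norm_int (m : ℤ) : ‖(m : PadicAlgCl p)‖ = ‖(m : ℚ_[p])‖ := by
  have h := PadicAlgCl.norm_extends p (m : ℚ_[p])
  rw [← h]
  congr 1

theorem norm_int_le_one (m : ℤ) : ‖(m : PadicAlgCl p)‖ ≤ 1 := by
  rw [norm_int]
  exact Padic.norm_int_le_one m

theorem inv_abs_le_norm_int {m : ℤ} (hm : m ≠ 0) : (|(m : ℝ)|)⁻¹ ≤ ‖(m : PadicAlgCl p)‖ := by
  rw [norm_int]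
  have h0 : (m : ℚ_[p]) ≠ 0 := by exact_mod_cast hm
  have h1 := Padic.norm_eq_zpow_neg_valuation h0
  have hp1 : (1 : ℝ) < p := by exact_mod_cast hp.out.one_lt
  have hp0 : (0 : ℝ) < p := by linarith
  have h2 : 0 ≤ (m : ℚ_[p]).valuation := by
    by_contra hneg
    push Not at hneg
    have h3 := Padic.norm_int_le_one (p := p) m
    rw [h1] at h3
    have h4 : (1 : ℝ) < (p : ℝ) ^ (-(m : ℚ_[p]).valuation) :=
      one_lt_zpow₀ hp1 (by omega)
    linarith
  obtain ⟨n, hn⟩ := Int.eq_ofNat_of_zero_le h2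
  rw [hn] at h1
  have h3 : (p ^ n : ℤ) ∣ m := (Padic.norm_int_le_pow_iff_dvd m n).1 h1.le
  have h4 : (p ^ n : ℤ) ≤ |m| := Int.le_of_dvd (abs_pos.2 hm) ((dvd_abs _ _).2 h3)
  have h5 : (p : ℝ) ^ n ≤ |(m : ℝ)| := by exact_mod_cast h4
  rw [h1, zpow_neg, zpow_natCast]
  exact inv_anti₀ (by positivity) h5

theorem gauss_X_sub_C (z : PadicAlgCl p) : (X - C z).gaussNorm (av p) 1 = max 1 ‖z‖ := by
  apply le_antisymm
  · obtain ⟨i, hi⟩ := exists_eq_gaussNorm (av p) 1 (X - C z)
    rw [hi, one_pow, mul_one, av_apply]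
    rcases i with _ | _ | i
    · simp
    · simp [coeff_X]
    · simp [coeff_X]
  · refine max_le ?_ ?_
    · have h := le_gaussNorm (av p) (X - C z) (zero_le_one) 1
      rw [av_apply] at h
      simpa [coeff_X, coeff_C] using h
    · have h := le_gaussNorm (av p) (X - C z) (zero_le_one) 0
      rw [av_apply] at h
      simpa [coeff_X, coeff_C] using h

theorem gauss_prod (s : Multiset (PadicAlgCl p)) :
    ((s.map (fun a => X - C a)).prod).gaussNorm (av p) 1 = (s.map (fun a => max 1 ‖a‖)).prod := by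
  induction s using Multiset.induction_on with
  | empty =>
    simp only [Multiset.map_zero, Multiset.prod_zero]
    rw [← C_1, gaussNorm_C]
    simp
  | cons a s ih =>
    rw [Multiset.map_cons, Multiset.prod_cons, Multiset.map_cons, Multiset.prod_cons,
      gaussNorm_mul (av_na p) one_pos, ih, gauss_X_sub_C]

theorem gauss_le_one (G : ℤ[X]) : (G.map (Int.castRingHom (PadicAlgCl p))).gaussNorm (av p) 1 ≤ 1 := by
  obtain ⟨i, hi⟩ := exists_eq_gaussNorm (av p) 1 (G.map (Int.castRingHom (PadicAlgCl p)))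
  rw [hi, one_pow, mul_one, coeff_map, av_apply]
  exact norm_int_le_one p _

/-- Gauss's lemma -/
theorem gauss_ineq (G : ℤ[X]) : ‖(G.leadingCoeff : PadicAlgCl p)‖ *
    ((G.map (Int.castRingHom (PadicAlgCl p))).roots.map (fun a => max 1 ‖a‖)).prod ≤ 1 := by
  have h := gauss_le_one p G
  rw [map_eq G, gaussNorm_mul (av_na p) one_pos, gaussNorm_C, gauss_prod, av_apply] at h
  exact h

end padic

end Pool.Agent.H420R4.GA
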