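import Mathlib
import Pool.Agent.H420R4.ML.Stubs
import Pool.Agent.H420R4.ML.DD

/-!
Energy of a finite set a part of which is clustered.
-/

set_option autoImplicit false

namespace Pool.Agent.H420R4

open Polynomial Real

noncomputable section

/-- extension of a finite sequence by zero -/
def ext0 {T : ℕ} (z : Fin T → ℂ) (i : ℕ) : ℂ := if h : i < T then z ⟨i, h⟩ else 0

lemma ext0_val {T : ℕ} (z : Fin T → ℂ) (i : Fin T) : ext0 z i = z i := by
  simp [ext0, i.2]

lemma ext0_injOn {T : ℕ} {z : Fin T → ℂ} (hz : Function.Injective z) {n : ℕ} (hn : n ≤ T) :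
    Set.InjOn (ext0 z) (Finset.range n) := by
  intro a ha b hb hab
  simp only [Finset.coe_range, Set.mem_Iio] at ha hb
  have ha' : a < T := by omega
  have hb' : b < T := by omega
  simp only [ext0, ha', hb', dif_pos] at hab
  have := hz hab
  exact Fin.mk_eq_mk.mp this

/-- the lower triangular matrix of divided differences -/
def Lm {T : ℕ} (z : Fin T → ℂ) (n : ℕ) : Matrix (Fin T) (Fin T) ℂ :=
  Matrix.of fun i j => if i.val < n then
    (if j.val ≤ i.val then
      (∏ l ∈ (Finset.range (i.val + 1)).erase j.val, (ext0 z j - ext0 z l))⁻¹ else 0)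
    else (if i = j then 1 else 0)

lemma det_Lm {T : ℕ} (z : Fin T → ℂ) (n : ℕ) (hn : n ≤ T) :
    (Lm z n).det = ∏ i ∈ Finset.range n, (∏ l ∈ Finset.range i, (ext0 z i - ext0 z l))⁻¹ := by
  rw [Matrix.det_of_isLowerTriangular]
  · have h1 : ∀ i : Fin T, Lm z n i i = (fun i : ℕ => if i < n then
        (∏ l ∈ Finset.range i, (ext0 z i - ext0 z l))⁻¹ else 1) i := by
      intro i
      simp only [Lm, Matrix.of_apply, le_refl, if_true]
      split_ifs with h
      · have h2 : (Finset.range (i.val + 1)).erase i.val = Finset.range i.val := by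
          ext l
          simp only [Finset.mem_erase, Finset.mem_range]
          omega
        rw [h2]
      · rfl
    rw [Finset.prod_congr rfl fun i _ => h1 i, Fin.prod_univ_eq_prod_range
      (fun i : ℕ => if i < n then (∏ l ∈ Finset.range i, (ext0 z i - ext0 z l))⁻¹ else 1) T,
      ← Finset.prod_filter]
    refine Finset.prod_congr ?_ fun _ _ => rfl
    ext i
    simp only [Finset.mem_filter, Finset.mem_range]
    omega
  · intro i j hij
    simp only [OrderDual.toDual_lt_toDual] at hij
    simp only [Lm, Matrix.of_apply]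
    have h2 : ¬ (j.val ≤ i.val) := by
      have : i.val < j.val := hij
      omega
    have h3 : ¬ (i = j) := ne_of_lt hij
    simp [h2, h3]

lemma Lm_mul {T : ℕ} (z : Fin T → ℂ) (n : ℕ) (i m : Fin T) :
    (Lm z n * Matrix.vandermonde z) i m =
      if i.val < n then dd (ext0 z) i m else z i ^ (m : ℕ) := by
  rw [Matrix.mul_apply]
  simp only [Lm, Matrix.of_apply, Matrix.vandermonde_apply]
  split_ifs with h
  · unfold dd
    have h1 : ∀ j : Fin T, (if j.val ≤ i.val then
        (∏ l ∈ (Finset.range (i.val + 1)).erase j.val, (ext0 z j - ext0 z l))⁻¹ else 0) *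
          z j ^ (m : ℕ) = (fun j : ℕ => if j ≤ i.val then ext0 z j ^ (m : ℕ) /
            ∏ l ∈ (Finset.range (i.val + 1)).erase j, (ext0 z j - ext0 z l) else 0) j := by
      intro j
      simp only [ext0_val]
      split_ifs with h2
      · rw [div_eq_inv_mul]
      · simp
    rw [Finset.sum_congr rfl fun j _ => h1 j, Fin.sum_univ_eq_sum_range
      (fun j : ℕ => if j ≤ i.val then ext0 z j ^ (m : ℕ) /
            ∏ l ∈ (Finset.range (i.val + 1)).erase j, (ext0 z j - ext0 z l) else 0) T,
      ← Finset.sum_filter]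
    refine Finset.sum_congr ?_ fun _ _ => rfl
    ext l
    simp only [Finset.mem_filter, Finset.mem_range]
    have := i.2
    omega
  · simp

lemma norm_det_le_prod {T : ℕ} (M : Matrix (Fin T) (Fin T) ℂ) (B : Fin T → ℝ)
    (hB : ∀ i j, ‖M i j‖ ≤ B i) : ‖M.det‖ ≤ T.factorial * ∏ i, B i := by
  rw [Matrix.det_apply]
  refine (norm_sum_le _ _).trans ?_
  have h1 : ∀ σ ∈ (Finset.univ : Finset (Equiv.Perm (Fin T))),
      ‖Equiv.Perm.sign σ • ∏ i, M (σ i) i‖ ≤ ∏ i, B i := by
    intro σ _
    have h2 : ‖Equiv.Perm.sign σ • ∏ i, M (σ i) i‖ = ∏ i : Fin T, ‖M (σ i) i‖ := by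
      rw [Units.smul_def, zsmul_eq_mul, norm_mul, norm_prod]
      rcases Int.units_eq_one_or (Equiv.Perm.sign σ) with h | h <;> simp [h]
    rw [h2, ← Equiv.prod_comp σ B]
    exact Finset.prod_le_prod (fun i _ => norm_nonneg _) (fun i _ => hB _ _)
  refine (Finset.sum_le_sum h1).trans (le_of_eq ?_)
  rw [Finset.sum_const, Finset.card_univ, Fintype.card_perm, Fintype.card_fin, nsmul_eq_mul]

lemma log_det_vandermonde_le {T : ℕ} (z : Fin T → ℂ) (hz : Function.Injective z) (n : ℕ)
    (hn : n ≤ T) (ρ R : ℝ) (_hρ : 0 < ρ) (hR : 1 ≤ R)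
    (h1 : ∀ i : Fin T, i.val < n → ‖z i‖ ≤ R)
    (h2 : ∀ i j : Fin T, i.val < n → j.val < n → ‖z i - z j‖ ≤ ρ) :
    Real.log ‖(Matrix.vandermonde z).det‖ ≤ T * Real.log T +
      (n : ℝ) * (n - 1) / 2 * (Real.log (4 * Real.exp 1 * T / n) + Real.log ρ) +
      n * T * Real.log R + T * ∑ i, Real.posLog ‖z i‖ := by
  rcases Nat.eq_zero_or_pos T with rfl | hT
  · have : n = 0 := by omega
    subst this
    simp
  have hT' : (0 : ℝ) < T := by exact_mod_cast hT
  have hT1 : (1 : ℝ) ≤ T := by exact_mod_cast hT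
  set V := Matrix.vandermonde z with hV
  have hVdet : V.det ≠ 0 := Matrix.det_vandermonde_ne_zero_iff.mpr hz
  -- the bound for the entries
  let b : ℕ → ℝ := fun i => T ^ i / (i.factorial : ℝ) * R ^ T
  let B : Fin T → ℝ := fun i => if i.val < n then b i else Real.exp (T * Real.posLog ‖z i‖)
  have hBpos : ∀ i, 0 < B i := by
    intro i
    simp only [B, b]
    split_ifs
    · have := i.val.factorial_pos
      positivity
    · positivity
  have hent : ∀ i m, ‖(Lm z n * V) i m‖ ≤ B i := by
    intro i m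
    rw [hV, Lm_mul]
    simp only [B]
    split_ifs with h
    · have h3 := norm_dd_le (ext0 z) R hR i.val m.val (ext0_injOn hz (by omega)) (by
        intro j hj
        have hjT : j < T := by omega
        have := h1 ⟨j, hjT⟩ (by simp; omega)
        simpa [ext0, hjT] using this)
      refine h3.trans ?_
      simp only [b]
      apply mul_le_mul _ (pow_le_pow_right₀ hR m.2.le) (by positivity) (by positivity)
      refine (Nat.choose_le_pow_div i.val m.val).trans ?_
      have : ((m.val : ℕ) : ℝ) ≤ T := by exact_mod_cast m.2.le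
      gcongr
    · rw [norm_pow]
      have h3 : ‖z i‖ ≤ Real.exp (Real.posLog ‖z i‖) := by
        rcases eq_or_ne (z i) 0 with h0 | h0
        · rw [h0, norm_zero]; positivity
        · rw [← Real.log_le_iff_le_exp (norm_pos_iff.mpr h0), Real.posLog_apply]
          exact le_max_right _ _
      calc ‖z i‖ ^ (m : ℕ) ≤ (Real.exp (Real.posLog ‖z i‖)) ^ (m : ℕ) := by gcongr
        _ = Real.exp (m * Real.posLog ‖z i‖) := by rw [← Real.exp_nat_mul]
        _ ≤ _ := by
          apply Real.exp_le_exp.mpr
          apply mul_le_mul_of_nonneg_right _ (Real.posLog_nonneg)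
          exact_mod_cast m.2.le
  have hdet := norm_det_le_prod _ B hent
  rw [Matrix.det_mul, norm_mul, det_Lm z n hn] at hdet
  -- the triangular determinant
  have hinj := ext0_injOn hz hn
  have hne : ∀ i ∈ Finset.range n, ∏ l ∈ Finset.range i, (ext0 z i - ext0 z l) ≠ 0 := by
    intro i hi
    rw [Finset.prod_ne_zero_iff]
    intro l hl
    rw [sub_ne_zero]
    intro h
    have hi' := Finset.mem_range.mp hi
    have hl' := Finset.mem_range.mp hl
    have := hinj (by simpa using hi') (by simp; omega) h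
    omega
  have hpr : ∀ i ∈ Finset.range n, ‖∏ l ∈ Finset.range i, (ext0 z i - ext0 z l)‖ ≤ ρ ^ i := by
    intro i hi
    have hi' := Finset.mem_range.mp hi
    rw [norm_prod]
    refine (Finset.prod_le_prod (fun l _ => norm_nonneg _) (g := fun _ => ρ) ?_).trans ?_
    · intro l hl
      have hl' := Finset.mem_range.mp hl
      have hiT : i < T := by omega
      have hlT : l < T := by omega
      have := h2 ⟨i, hiT⟩ ⟨l, hlT⟩ (by simpa using hi') (by simp; omega)
      simpa [ext0, hiT, hlT] using this
    · simp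
  have hLne : ∏ i ∈ Finset.range n, (∏ l ∈ Finset.range i, (ext0 z i - ext0 z l))⁻¹ ≠ 0 := by
    rw [Finset.prod_ne_zero_iff]
    intro i hi
    exact inv_ne_zero (hne i hi)
  have hL : - ((n : ℝ) * (n - 1) / 2 * Real.log ρ) ≤
      Real.log ‖∏ i ∈ Finset.range n, (∏ l ∈ Finset.range i, (ext0 z i - ext0 z l))⁻¹‖ := by
    rw [norm_prod, Real.log_prod]
    · have h3 : ∀ i ∈ Finset.range n, -((i : ℝ) * Real.log ρ) ≤
          Real.log ‖(∏ l ∈ Finset.range i, (ext0 z i - ext0 z l))⁻¹‖ := by
        intro i hi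
        rw [norm_inv, Real.log_inv, neg_le_neg_iff]
        have := Real.log_le_log (norm_pos_iff.mpr (hne i hi)) (hpr i hi)
        rwa [Real.log_pow] at this
      refine le_trans (le_of_eq ?_) (Finset.sum_le_sum h3)
      rw [Finset.sum_neg_distrib, ← Finset.sum_mul]
      congr 2
      have := Finset.sum_range_id_mul_two n
      have h4 : ((∑ i ∈ Finset.range n, i : ℕ) : ℝ) * 2 = ((n * (n - 1) : ℕ) : ℝ) := by
        exact_mod_cast this
      rcases Nat.eq_zero_or_pos n with rfl | hn
      · simp
      rw [Nat.cast_mul, Nat.cast_sub hn, Nat.cast_one, Nat.cast_sum] at h4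
      linarith
    · intro i hi
      rw [norm_ne_zero_iff]
      exact inv_ne_zero (hne i hi)
  -- take logarithms
  have hfact : (0 : ℝ) < T.factorial := by exact_mod_cast T.factorial_pos
  have h5 := Real.log_le_log (mul_pos (norm_pos_iff.mpr hLne) (norm_pos_iff.mpr hVdet)) hdet
  rw [Real.log_mul (norm_pos_iff.mpr hLne).ne' (norm_pos_iff.mpr hVdet).ne',
    Real.log_mul hfact.ne' (Finset.prod_pos fun i _ => hBpos i).ne',
    Real.log_prod (fun i _ => (hBpos i).ne')] at h5
  have h6 : Real.log T.factorial ≤ T * Real.log T := by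
    rw [← Real.log_pow]
    apply Real.log_le_log hfact
    exact_mod_cast Nat.factorial_le_pow T
  have h7 : ∑ i, Real.log (B i) ≤ ∑ i ∈ Finset.range n, Real.log (T ^ i / (i.factorial : ℝ)) +
      n * T * Real.log R + T * ∑ i, Real.posLog ‖z i‖ := by
    have h8 : ∀ i : Fin T, Real.log (B i) ≤
        (fun i : ℕ => if i < n then Real.log (T ^ i / (i.factorial : ℝ)) + T * Real.log R else 0) i
          + T * Real.posLog ‖z i‖ := by
      intro i
      simp only [B, b]
      have hp : (0 : ℝ) ≤ T * Real.posLog ‖z i‖ := mul_nonneg hT'.le Real.posLog_nonneg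
      split_ifs with h
      · have hf := i.val.factorial_pos
        have hf' : (0 : ℝ) < i.val.factorial := by exact_mod_cast hf
        rw [Real.log_mul (by positivity) (by positivity), Real.log_pow R]
        linarith
      · rw [Real.log_exp]
        linarith
    refine (Finset.sum_le_sum fun i _ => h8 i).trans (le_of_eq ?_)
    rw [Finset.sum_add_distrib, ← Finset.mul_sum, Fin.sum_univ_eq_sum_range
      (fun i : ℕ => if i < n then Real.log (T ^ i / (i.factorial : ℝ)) + T * Real.log R else 0) T,
      ← Finset.sum_filter]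
    have h9 : (Finset.range T).filter (fun i => i < n) = Finset.range n := by
      ext i
      simp only [Finset.mem_filter, Finset.mem_range]
      omega
    rw [h9, Finset.sum_add_distrib, Finset.sum_const, Finset.card_range, nsmul_eq_mul]
    ring
  have h10 := sum_log_pow_fact n T hT'
  have h11 : (n : ℝ) * (n - 1) / 2 * (Real.log (4 * Real.exp 1 * T / n) + Real.log ρ) =
    (n : ℝ) * (n - 1) / 2 * Real.log (4 * Real.exp 1 * T / n) +
      (n : ℝ) * (n - 1) / 2 * Real.log ρ := by ring
  rw [h11]
  linarith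

lemma energy_eq_fin {m : ℕ} (z : Fin m → ℂ) :
    ∑ i, ∑ j ∈ Finset.univ.erase i, Real.log ‖z i - z j‖ =
      2 * ∑ i, ∑ j ∈ Finset.Ioi i, Real.log ‖z j - z i‖ := by
  have h1 : ∀ i : Fin m, ∑ j ∈ Finset.univ.erase i, Real.log ‖z i - z j‖ =
      ∑ j ∈ Finset.Ioi i, Real.log ‖z j - z i‖ + ∑ j ∈ Finset.Iio i, Real.log ‖z i - z j‖ := by
    intro i
    have h2 : (Finset.univ.erase i : Finset (Fin m)) = Finset.Ioi i ∪ Finset.Iio i := by
      ext j
      simp only [Finset.mem_erase, Finset.mem_univ, and_true, Finset.mem_union,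
        Finset.mem_Ioi, Finset.mem_Iio]
      constructor
      · intro h
        rcases lt_or_gt_of_ne h with h | h
        · exact Or.inr h
        · exact Or.inl h
      · rintro (h | h)
        · exact ne_of_gt h
        · exact ne_of_lt h
    have h3 : Disjoint (Finset.Ioi i) (Finset.Iio i) := by
      rw [Finset.disjoint_left]
      intro j hj hj'
      exact absurd (Finset.mem_Ioi.mp hj) (not_lt.mpr (Finset.mem_Iio.mp hj').le)
    rw [h2, Finset.sum_union h3]
    congr 1
    refine Finset.sum_congr rfl fun j _ => ?_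
    rw [norm_sub_rev]
  rw [Finset.sum_congr rfl fun i _ => h1 i, Finset.sum_add_distrib, two_mul]
  congr 1
  rw [Finset.sum_comm' (t := fun i : Fin m => Finset.Iio i) (t' := Finset.univ)
    (s' := fun j : Fin m => Finset.Ioi j)]
  intro i j
  simp

theorem t1 : St_T1 := by
  intro W C ρ R hCW hρ hR h1 h2
  rcases W.eq_empty_or_nonempty with rfl | hW
  · have : C = ∅ := Finset.subset_empty.mp hCW
    subst this
    simp [energy]
  set n := C.card with hn
  set k := (W \ C).card with hk
  have hT : W.card = n + k := by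
    rw [hn, hk, Finset.card_sdiff_of_subset hCW]
    have := Finset.card_le_card hCW
    omega
  have hTpos : 0 < n + k := by rw [← hT]; exact Finset.card_pos.mpr hW
  let e : Fin n ≃ C := (Finset.equivFinOfCardEq hn.symm).symm
  let e' : Fin k ≃ (W \ C : Finset ℂ) := (Finset.equivFinOfCardEq hk.symm).symm
  let z : Fin (n + k) → ℂ := Fin.append (fun i => (e i : ℂ)) (fun i => (e' i : ℂ))
  have hmem : ∀ i : Fin (n + k), i.val < n → z i ∈ C := by
    intro i hi
    have h3 : i = Fin.castAdd k ⟨i.val, hi⟩ := by ext; simp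
    rw [h3]
    simp only [z, Fin.append_left]
    exact (e _).2
  have hmem' : ∀ i : Fin (n + k), z i ∈ W := by
    intro i
    refine Fin.addCases (fun j => ?_) (fun j => ?_) i
    · simp only [z, Fin.append_left]
      exact hCW (e _).2
    · simp only [z, Fin.append_right]
      exact (Finset.mem_sdiff.mp (e' _).2).1
  have hz : Function.Injective z := by
    intro i j
    refine Fin.addCases (fun a => ?_) (fun a => ?_) i <;>
      refine Fin.addCases (fun b => ?_) (fun b => ?_) j <;>
      simp only [z, Fin.append_left, Fin.append_right] <;> intro hij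
    · rw [e.injective (Subtype.ext hij)]
    · exfalso
      have := (Finset.mem_sdiff.mp (e' b).2).2
      exact this (hij ▸ (e a).2)
    · exfalso
      have := (Finset.mem_sdiff.mp (e' a).2).2
      exact this (hij ▸ (e b).2)
    · rw [e'.injective (Subtype.ext hij)]
  have himg : Finset.univ.map ⟨z, hz⟩ = W := by
    apply Finset.eq_of_subset_of_card_le
    · intro w hw
      simp only [Finset.mem_map, Finset.mem_univ, true_and, Function.Embedding.coeFn_mk] at hw
      obtain ⟨i, rfl⟩ := hw
      exact hmem' i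
    · rw [Finset.card_map, Finset.card_univ, Fintype.card_fin, hT]
  have hE : energy W = ∑ i, ∑ j ∈ Finset.univ.erase i, Real.log ‖z i - z j‖ := by
    unfold energy
    conv_lhs => rw [← himg]
    rw [Finset.sum_map]
    refine Finset.sum_congr rfl fun i _ => ?_
    have h2 : (Finset.univ.map ⟨z, hz⟩).erase ((⟨z, hz⟩ : Fin (n + k) ↪ ℂ) i) =
        (Finset.univ.erase i).map ⟨z, hz⟩ := by
      rw [Finset.map_erase]
    rw [h2, Finset.sum_map]
    rfl
  have hS : ∑ w ∈ W, Real.posLog ‖w‖ = ∑ i, Real.posLog ‖z i‖ := by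
    conv_lhs => rw [← himg]
    rw [Finset.sum_map]
    rfl
  have h3 : ∑ i, ∑ j ∈ Finset.Ioi i, Real.log ‖z j - z i‖ =
      Real.log ‖(Matrix.vandermonde z).det‖ := by
    rw [Matrix.det_vandermonde, norm_prod, Real.log_prod]
    · refine Finset.sum_congr rfl fun i _ => ?_
      rw [norm_prod, Real.log_prod]
      intro j hj
      rw [norm_ne_zero_iff, sub_ne_zero]
      exact hz.ne (ne_of_gt (Finset.mem_Ioi.mp hj))
    · intro i _
      rw [norm_ne_zero_iff, Finset.prod_ne_zero_iff]
      intro j hj
      rw [sub_ne_zero]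
      exact hz.ne (ne_of_gt (Finset.mem_Ioi.mp hj))
  have h4 := log_det_vandermonde_le z hz n (by omega) ρ R hρ hR
    (fun i hi => h1 _ (hmem i hi)) (fun i j hi hj => h2 _ (hmem i hi) _ (hmem j hj))
  rw [hE, energy_eq_fin, h3, hS, hT]
  rcases Nat.eq_zero_or_pos n with hn0 | hnpos
  · have hn0' : (n : ℝ) = 0 := by exact_mod_cast hn0
    have e1 : ∀ x : ℝ, (n : ℝ) * (n - 1) * x = 0 := by intro x; rw [hn0']; ring
    have e2 : ∀ x : ℝ, (n : ℝ) * (n - 1) / 2 * x = 0 := by intro x; rw [hn0']; ring
    rw [e1]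
    rw [e2] at h4
    linarith
  have hn' : (0 : ℝ) < n := by exact_mod_cast hnpos
  have hT' : (0 : ℝ) < ((n + k : ℕ) : ℝ) := by exact_mod_cast hTpos
  have h5 : Real.log ((n : ℝ) / (4 * Real.exp 1 * ((n + k : ℕ) : ℝ) * ρ)) =
      - (Real.log (4 * Real.exp 1 * ((n + k : ℕ) : ℝ) / n) + Real.log ρ) := by
    rw [← Real.log_mul (by positivity) hρ.ne', ← Real.log_inv]
    congr 1
    field_simp
  rw [h5]
  linarith

end

end Pool.Agent.H420R4
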