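import Mathlib
import Pool.Agent.H420R4.ML.Stubs

set_option autoImplicit false

namespace Pool.Agent.H420R4

open Polynomial Real

namespace T4

lemma lm_eq_zero_of_dvd (f : ℤ[X]) (hf : Irreducible f) (n : ℕ) (hn : 0 < n)
    (h : f ∣ X ^ n - 1) : lm f = 0 := by
  rw [← prod_cyclotomic_eq_X_pow_sub_one hn ℤ] at h
  obtain ⟨d, hd, hdvd⟩ := hf.prime.exists_mem_finset_dvd h
  have hd0 : 0 < d := Nat.pos_of_mem_divisors hd
  have hass : Associated f (cyclotomic d ℤ) :=
    hf.associated_of_dvd (cyclotomic.irreducible hd0) hdvd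
  obtain ⟨u, hu⟩ := hass
  obtain ⟨r, hr, hru⟩ := Polynomial.isUnit_iff.1 u.isUnit
  have hM : (cyclotomic d ℤ).map (Int.castRingHom ℂ) =
      f.map (Int.castRingHom ℂ) * C ((r : ℤ) : ℂ) := by
    rw [← hu, Polynomial.map_mul, ← hru, Polynomial.map_C]
    rfl
  have h1 : ((cyclotomic d ℤ).map (Int.castRingHom ℂ)).mahlerMeasure = 1 := by
    have := cyclotomic_mahlerMeasure_eq_one (R := ℤ) d
    exact this
  have hr1 : ‖((r : ℤ) : ℂ)‖ = 1 := by
    rcases Int.isUnit_iff.1 hr with h | h <;> simp [h]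
  have h2 : (f.map (Int.castRingHom ℂ)).mahlerMeasure = 1 := by
    rw [hM, mahlerMeasure_mul, mahlerMeasure_const, hr1, mul_one] at h1
    exact h1
  rw [lm, h2, Real.log_one]

end T4

open T4 in
theorem t4 : St_T4 := by
  intro A _ _ _ f hf h0 z z' k l hz hz' hkl hk hl hzz
  -- degree is positive
  have hdeg : f.natDegree ≠ 0 := by
    intro hd
    rw [natDegree_eq_zero] at hd
    obtain ⟨a, rfl⟩ := hd
    rw [aeval_C] at hz
    have : (a : A) = 0 := by simpa using hz
    have ha : a = 0 := by exact_mod_cast this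
    apply h0
    rw [ha]
    simp
  have hprim : f.IsPrimitive := hf.isPrimitive hdeg
  have hirrQ : Irreducible (f.map (Int.castRingHom ℚ)) :=
    (IsPrimitive.Int.irreducible_iff_irreducible_map_cast hprim).1 hf
  set fQ := f.map (Int.castRingHom ℚ) with hfQ
  have haev : ∀ w : A, aeval w fQ = aeval w f := by
    intro w
    rw [hfQ]
    have : f.map (Int.castRingHom ℚ) = f.map (algebraMap ℤ ℚ) := rfl
    rw [this, aeval_map_algebraMap]
  have hzQ : aeval z fQ = 0 := by rw [haev, hz]
  have hzQ' : aeval z' fQ = 0 := by rw [haev, hz']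
  have hmz : fQ * C fQ.leadingCoeff⁻¹ = minpoly ℚ z := minpoly.eq_of_irreducible hirrQ hzQ
  have hmz' : fQ * C fQ.leadingCoeff⁻¹ = minpoly ℚ z' := minpoly.eq_of_irreducible hirrQ hzQ'
  -- the splitting field inside A
  have hsp : (fQ.map (algebraMap ℚ A)).Splits := IsAlgClosed.splits _
  have hE : fQ.IsSplittingField ℚ (IntermediateField.adjoin ℚ (fQ.rootSet A)) :=
    IntermediateField.adjoin_rootSet_isSplittingField hsp
  set E := IntermediateField.adjoin ℚ (fQ.rootSet A) with hEdef
  have : Normal ℚ E := Normal.of_isSplittingField fQ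
  have : FiniteDimensional ℚ E := IsSplittingField.finiteDimensional E fQ
  have hmem : ∀ w : A, aeval w fQ = 0 → w ∈ E := by
    intro w hw
    apply IntermediateField.subset_adjoin
    rw [mem_rootSet]
    exact ⟨hirrQ.ne_zero, hw⟩
  let x : E := ⟨z, hmem z hzQ⟩
  let x' : E := ⟨z', hmem z' hzQ'⟩
  have hminx : minpoly ℚ x = minpoly ℚ z := by
    have := minpoly.algebraMap_eq (A := ℚ) (B := E) (B' := A) (algebraMap E A).injective x
    rw [← this]; rfl
  have hx'root : aeval x' (minpoly ℚ x) = 0 := by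
    rw [hminx, ← hmz, hmz']
    have h1 : aeval (algebraMap E A x') (minpoly ℚ z') = 0 := minpoly.aeval ℚ z'
    rw [aeval_algebraMap_apply] at h1
    exact (algebraMap E A).injective (by rw [h1, map_zero])
  have halg : IsAlgebraic ℚ x := Algebra.IsAlgebraic.isAlgebraic x
  obtain ⟨s, hs⟩ := minpoly.exists_algEquiv_of_root' halg hx'root
  have hxx : x ^ k = (s x) ^ l := by
    rw [hs]
    apply Subtype.ext
    exact hzz
  have hind : ∀ r : ℕ, x ^ (k ^ r) = ((s ^ r) x) ^ (l ^ r) := by
    intro r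
    induction r with
    | zero => simp
    | succ r ih =>
      have h1 : ((s ^ r) x) ^ k = ((s ^ (r + 1)) x) ^ l := by
        rw [← map_pow, hxx, map_pow, pow_succ, AlgEquiv.mul_apply]
      rw [pow_succ k r, pow_mul, ih, ← pow_mul, mul_comm (l ^ r) k, pow_mul, h1, ← pow_mul,
        pow_succ l r, mul_comm l]
  have hfin : IsOfFinOrder s := isOfFinOrder_of_finite s
  have hrpos : 0 < orderOf s := hfin.orderOf_pos
  have hfinal := hind (orderOf s)
  rw [pow_orderOf_eq_one, AlgEquiv.one_apply] at hfinal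
  have hne : k ^ orderOf s ≠ l ^ orderOf s := by
    intro h
    exact hkl (Nat.pow_left_injective hrpos.ne' h)
  have hz0 : z ≠ 0 := by
    intro h
    rw [h, aeval_def, eval₂_at_zero] at hz
    have : (f.coeff 0 : A) = 0 := by simpa using hz
    exact h0 (by exact_mod_cast this)
  have hzfinal : z ^ (k ^ orderOf s) = z ^ (l ^ orderOf s) := by
    have := congrArg (Subtype.val) hfinal
    simpa [x] using this
  have key : ∀ a b : ℕ, a < b → z ^ a = z ^ b → lm f = 0 := by
    intro a b hab h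
    have h1 : z ^ (b - a) = 1 := by
      have h2 : z ^ a * z ^ (b - a) = z ^ a * 1 := by
        rw [← pow_add, Nat.add_sub_cancel' hab.le, mul_one, ← h]
      exact mul_left_cancel₀ (pow_ne_zero _ hz0) h2
    apply lm_eq_zero_of_dvd f hf (b - a) (by omega)
    rw [IsPrimitive.Int.dvd_iff_map_cast_dvd_map_cast _ _ hprim]
    have h3 : aeval z ((X ^ (b - a) - 1 : ℤ[X]).map (Int.castRingHom ℚ)) = 0 := by
      simp [h1]
    have h4 : minpoly ℚ z ∣ (X ^ (b - a) - 1 : ℤ[X]).map (Int.castRingHom ℚ) :=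
      minpoly.dvd ℚ z h3
    rw [← hmz] at h4
    exact (Dvd.intro _ rfl).trans h4
  rcases lt_or_gt_of_ne hne with h | h
  · exact key _ _ h hzfinal
  · exact key _ _ h hzfinal.symm

end Pool.Agent.H420R4
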