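import Mathlib
import Pool.Agent.H420R4.ML.Stubs
import Pool.Agent.H420R4.ML.Gauss

/-! T5: the discriminant at infinity and at `p`. -/

set_option autoImplicit false

namespace Pool.Agent.H420R4

open Polynomial Real GA

namespace T5aux

section gen

variable {A : Type*} [Field A] [CharZero A]

theorem separable_map {G : ℤ[X]} (hG : (G.map (Int.castRingHom ℚ)).Separable) :
    (G.map (Int.castRingHom A)).Separable := by
  have h := hG.map (f := algebraMap ℚ A)
  rw [Polynomial.map_map] at h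
  have e : (algebraMap ℚ A).comp (Int.castRingHom ℚ) = Int.castRingHom A := RingHom.ext_int _ _
  rwa [e] at h

variable [IsAlgClosed A] [DecidableEq A]

theorem res_eq {G : ℤ[X]} (hG : (G.map (Int.castRingHom ℚ)).Separable) :
    ((resultant G (derivative G) G.natDegree (G.natDegree - 1) : ℤ) : A) =
      (G.leadingCoeff : A) ^ (G.natDegree - 1) * ((G.leadingCoeff : A) ^ G.natDegree *
      ∏ y ∈ (G.map (Int.castRingHom A)).roots.toFinset,
        ∏ w ∈ (G.map (Int.castRingHom A)).roots.toFinset.erase y, (y - w)) := by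
  set GA := G.map (Int.castRingHom A) with hGA
  set W := GA.roots.toFinset with hW
  have hnd : GA.roots.Nodup := nodup_roots (separable_map hG)
  have hval : W.val = GA.roots := Multiset.toFinset_val GA.roots ▸ hnd.dedup
  have hcard : W.card = G.natDegree := by
    rw [Finset.card_def, hval, hGA, H420R4.GA.card_roots']
  have h1 := resultant_map_map G (derivative G) G.natDegree (G.natDegree - 1) (Int.castRingHom A)
  have h2 : GA.natDegree = G.natDegree := natDegree_map' G
  have h3 : (derivative GA).natDegree ≤ G.natDegree - 1 := by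
    rw [← h2]
    exact natDegree_derivative_le GA
  have h4 := resultant_eq_prod_eval GA (derivative GA) (G.natDegree - 1) h3
    (IsAlgClosed.splits GA)
  rw [← derivative_map, ← hGA] at h1
  rw [h2] at h4
  rw [show ((resultant G (derivative G) G.natDegree (G.natDegree - 1) : ℤ) : A) =
    Int.castRingHom A (resultant G (derivative G) G.natDegree (G.natDegree - 1)) from rfl,
    ← h1, h4, hGA, lc_map]
  congr 1
  have h5 : GA = C (G.leadingCoeff : A) * Lagrange.nodal W id := by
    rw [Lagrange.nodal, Finset.prod, hval]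
    exact map_eq G
  have h6 : (GA.roots.map fun y => eval y (derivative GA)).prod = ∏ y ∈ W, eval y (derivative GA) := by
    rw [Finset.prod, hval]
  rw [← hGA, h6]
  have h7 : ∀ y ∈ W, eval y (derivative GA) = (G.leadingCoeff : A) * ∏ w ∈ W.erase y, (y - w) := by
    intro y hy
    rw [h5, derivative_C_mul, eval_C_mul]
    congr 1
    have h8 := Lagrange.eval_nodal_derivative_eval_node_eq (v := (id : A → A)) hy
    rw [Lagrange.eval_nodal] at h8
    exact h8
  rw [Finset.prod_congr rfl h7, Finset.prod_mul_distrib, Finset.prod_const, hcard]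

end gen

section pairs

variable {A : Type*} [DecidableEq A]

theorem prod_pairs_left (W : Finset A) (m : A → ℝ) :
    ∏ y ∈ W, ∏ _w ∈ W.erase y, m y = (∏ y ∈ W, m y) ^ (W.card - 1) := by
  rw [← Finset.prod_pow]
  refine Finset.prod_congr rfl fun y hy => ?_
  rw [Finset.prod_const, Finset.card_erase_of_mem hy]

theorem prod_pairs_right (W : Finset A) (m : A → ℝ) :
    ∏ y ∈ W, ∏ w ∈ W.erase y, m w = (∏ y ∈ W, m y) ^ (W.card - 1) := by
  rw [← prod_pairs_left]
  refine Finset.prod_comm' ?_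
  intro x y
  simp only [Finset.mem_erase]
  tauto

theorem prod_pairs_sub {W C : Finset A} (hC : C ⊆ W) (q : ℝ) :
    ∏ y ∈ W, ∏ w ∈ W.erase y, (if y ∈ C ∧ w ∈ C then q else 1) = q ^ (C.card * (C.card - 1)) := by
  have h1 : ∀ y ∈ W, ∏ w ∈ W.erase y, (if y ∈ C ∧ w ∈ C then q else 1) =
      if y ∈ C then q ^ (C.card - 1) else 1 := by
    intro y hy
    by_cases hyC : y ∈ C
    · rw [if_pos hyC]
      have h2 : ∀ w ∈ W.erase y, (if y ∈ C ∧ w ∈ C then q else 1) = if w ∈ C then q else 1 := by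
        intro w _
        simp [hyC]
      rw [Finset.prod_congr rfl h2, Finset.prod_ite, Finset.prod_const, Finset.prod_const_one,
        mul_one]
      congr 1
      rw [← Finset.card_erase_of_mem hyC]
      congr 1
      ext w
      simp only [Finset.mem_filter, Finset.mem_erase]
      constructor
      · rintro ⟨⟨h, -⟩, h'⟩
        exact ⟨h, h'⟩
      · rintro ⟨h, h'⟩
        exact ⟨⟨h, hC h'⟩, h'⟩
    · rw [if_neg hyC]
      refine Finset.prod_eq_one fun w _ => ?_
      rw [if_neg (fun h => hyC h.1)]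
  rw [Finset.prod_congr rfl h1, Finset.prod_ite, Finset.prod_const, Finset.prod_const_one,
    mul_one, ← pow_mul]
  congr 1
  rw [mul_comm (C.card - 1)]
  congr 2
  ext w
  simp only [Finset.mem_filter]
  exact ⟨fun h => h.2, fun h => ⟨hC h, h⟩⟩

end pairs

end T5aux

open T5aux

theorem t5 : St_T5 := by
  classical
  intro p hp G C hsep hdeg hC hclose
  set T := G.natDegree with hT
  set n := C.card with hn
  set q : ℝ := (p : ℝ) ^ (-2 : ℤ) with hq
  have hp1 : (1 : ℝ) < p := by exact_mod_cast hp.out.one_lt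
  have hp0 : (0 : ℝ) < p := by linarith
  have hq0 : 0 < q := by positivity
  have hq1 : q ≤ 1 := by
    rw [hq]
    exact zpow_le_one_of_nonpos₀ hp1.le (by norm_num)
  have hG0 : G ≠ 0 := by
    intro h0
    rw [hT, h0, natDegree_zero] at hdeg
    exact absurd hdeg (lt_irrefl 0)
  have hlc : G.leadingCoeff ≠ 0 := leadingCoeff_ne_zero.2 hG0
  set Δ : ℤ := resultant G (derivative G) G.natDegree (G.natDegree - 1) with hΔ
  -- at infinity
  have hinf := res_eq (A := ℂ) hsep
  rw [← hΔ, ← hT] at hinf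
  have hcr : (G.map (Int.castRingHom ℂ)).roots.toFinset = crts G := by
    unfold crts
    congr
  rw [hcr] at hinf
  have hlcC : (G.leadingCoeff : ℂ) ≠ 0 := by exact_mod_cast hlc
  have hΔ0 : Δ ≠ 0 := by
    intro h
    rw [h, Int.cast_zero] at hinf
    have : (G.leadingCoeff : ℂ) ^ (T - 1) * ((G.leadingCoeff : ℂ) ^ T *
      ∏ y ∈ crts G, ∏ w ∈ (crts G).erase y, (y - w)) ≠ 0 := by
      refine mul_ne_zero (pow_ne_zero _ hlcC) (mul_ne_zero (pow_ne_zero _ hlcC) ?_)
      refine Finset.prod_ne_zero_iff.2 fun y _ => Finset.prod_ne_zero_iff.2 fun w hw => ?_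
      exact sub_ne_zero.2 (Finset.ne_of_mem_erase hw).symm
    exact this hinf.symm
  have hlog : Real.log |(Δ : ℝ)| = (T - 1 : ℕ) * Real.log |(G.leadingCoeff : ℝ)| +
      (T * Real.log |(G.leadingCoeff : ℝ)| + energy (crts G)) := by
    have h1 : |(Δ : ℝ)| = ‖(Δ : ℂ)‖ := (Complex.norm_intCast Δ).symm
    have h2 : ‖(G.leadingCoeff : ℂ)‖ = |(G.leadingCoeff : ℝ)| := Complex.norm_intCast _
    have h3 : |(G.leadingCoeff : ℝ)| ≠ 0 := by
      rw [abs_ne_zero]
      exact_mod_cast hlc
    have h4 : ∀ y ∈ crts G, ∏ w ∈ (crts G).erase y, ‖y - w‖ ≠ 0 := fun y _ =>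
      Finset.prod_ne_zero_iff.2 fun w hw =>
        norm_ne_zero_iff.2 (sub_ne_zero.2 (Finset.ne_of_mem_erase hw).symm)
    rw [h1, hinf, norm_mul, norm_mul, norm_pow, norm_pow, norm_prod, h2]
    simp only [norm_prod]
    rw [Real.log_mul (pow_ne_zero _ h3) (mul_ne_zero (pow_ne_zero _ h3)
      (Finset.prod_ne_zero_iff.2 h4)), Real.log_mul (pow_ne_zero _ h3)
      (Finset.prod_ne_zero_iff.2 h4), Real.log_pow, Real.log_pow, Real.log_prod h4]
    congr 2
    unfold energy
    refine Finset.sum_congr rfl fun y _ => ?_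
    rw [Real.log_prod fun w hw =>
      norm_ne_zero_iff.2 (sub_ne_zero.2 (Finset.ne_of_mem_erase hw).symm)]
  -- at p
  have hpad := res_eq (A := PadicAlgCl p) hsep
  rw [← hΔ, ← hT] at hpad
  set W := (G.map (Int.castRingHom (PadicAlgCl p))).roots.toFinset with hW
  have hCW : C ⊆ W := by
    intro c hc
    rw [hW, Multiset.mem_toFinset, mem_roots'' hG0]
    exact hC c hc
  have hnd : (G.map (Int.castRingHom (PadicAlgCl p))).roots.Nodup := nodup_roots (separable_map hsep)
  have hval : W.val = (G.map (Int.castRingHom (PadicAlgCl p))).roots := by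
    rw [hW, Multiset.toFinset_val]
    exact hnd.dedup
  have hcard : W.card = T := by
    rw [Finset.card_def, hval, H420R4.GA.card_roots']
  set m : PadicAlgCl p → ℝ := fun a => max 1 ‖a‖ with hm
  have hm1 : ∀ a, 1 ≤ m a := fun a => le_max_left _ _
  have hgauss := gauss_ineq p G
  rw [← hval] at hgauss
  have hgauss' : ‖(G.leadingCoeff : PadicAlgCl p)‖ * ∏ y ∈ W, m y ≤ 1 := hgauss
  set L := ‖(G.leadingCoeff : PadicAlgCl p)‖ with hL
  have hL1 : L ≤ 1 := norm_int_le_one p _
  have hL0 : 0 ≤ L := norm_nonneg _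
  set M := ∏ y ∈ W, m y with hM
  have hM0 : 0 ≤ M := Finset.prod_nonneg fun y _ => zero_le_one.trans (hm1 y)
  have hpair : ∀ y ∈ W, ∀ w ∈ W.erase y, ‖y - w‖ ≤
      (if y ∈ C ∧ w ∈ C then q else 1) * (m y * m w) := by
    intro y _ w _
    have h1 : (1 : ℝ) ≤ m y * m w := by
      have := mul_le_mul (hm1 y) (hm1 w) zero_le_one (zero_le_one.trans (hm1 y))
      rwa [mul_one] at this
    split_ifs with h
    · calc ‖y - w‖ ≤ q := hclose y h.1 w h.2
        _ = q * 1 := (mul_one q).symm
        _ ≤ q * (m y * m w) := mul_le_mul_of_nonneg_left h1 hq0.le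
    · rw [one_mul]
      have h2 : ‖y - w‖ ≤ max ‖y‖ ‖w‖ := by
        have := PadicAlgCl.isNonarchimedean p y (-w)
        rwa [norm_neg, ← sub_eq_add_neg] at this
      refine h2.trans (max_le ?_ ?_)
      · calc ‖y‖ ≤ m y := le_max_right _ _
          _ = m y * 1 := (mul_one _).symm
          _ ≤ m y * m w := mul_le_mul_of_nonneg_left (hm1 w) (zero_le_one.trans (hm1 y))
      · calc ‖w‖ ≤ m w := le_max_right _ _
          _ = 1 * m w := (one_mul _).symm
          _ ≤ m y * m w := mul_le_mul_of_nonneg_right (hm1 y) (zero_le_one.trans (hm1 w))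
  have hprod : ∏ y ∈ W, ∏ w ∈ W.erase y, ‖y - w‖ ≤
      q ^ (n * (n - 1)) * (M ^ (T - 1) * M ^ (T - 1)) := by
    calc ∏ y ∈ W, ∏ w ∈ W.erase y, ‖y - w‖
        ≤ ∏ y ∈ W, ∏ w ∈ W.erase y, ((if y ∈ C ∧ w ∈ C then q else 1) * (m y * m w)) :=
          Finset.prod_le_prod (fun y _ => Finset.prod_nonneg fun w _ => norm_nonneg _)
            (fun y hy => Finset.prod_le_prod (fun w _ => norm_nonneg _) (fun w hw => hpair y hy w hw))
      _ = q ^ (n * (n - 1)) * (M ^ (T - 1) * M ^ (T - 1)) := by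
          simp only [Finset.prod_mul_distrib]
          rw [prod_pairs_sub hCW, prod_pairs_left, prod_pairs_right, hcard]
  have hnorm : ‖(Δ : PadicAlgCl p)‖ ≤ q ^ (n * (n - 1)) := by
    rw [hpad, norm_mul, norm_mul, norm_pow, norm_pow, norm_prod]
    simp only [norm_prod]
    rw [← hL]
    have hT1 : T = (T - 1) + 1 := by omega
    calc L ^ (T - 1) * (L ^ T * ∏ y ∈ W, ∏ w ∈ W.erase y, ‖y - w‖)
        ≤ L ^ (T - 1) * (L ^ T * (q ^ (n * (n - 1)) * (M ^ (T - 1) * M ^ (T - 1)))) := by gcongr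
      _ = q ^ (n * (n - 1)) * L * ((L * M) ^ (T - 1)) ^ 2 := by
          conv_lhs => rw [hT1]
          simp only [Nat.add_sub_cancel]
          ring
      _ ≤ q ^ (n * (n - 1)) * 1 * 1 := by
          gcongr
          refine pow_le_one₀ (by positivity) (pow_le_one₀ (by positivity) hgauss')
      _ = q ^ (n * (n - 1)) := by ring
  rw [norm_int] at hnorm
  have hq2 : q ^ (n * (n - 1)) = (p : ℝ) ^ (-((2 * (n * (n - 1)) : ℕ) : ℤ)) := by
    rw [hq, ← zpow_natCast, ← zpow_mul]
    congr 1
  rw [hq2, Padic.norm_int_le_pow_iff_dvd] at hnorm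
  have h4 : (p ^ (2 * (n * (n - 1))) : ℤ) ≤ |Δ| :=
    Int.le_of_dvd (abs_pos.2 hΔ0) ((dvd_abs _ _).2 hnorm)
  have h5 : (p : ℝ) ^ (2 * (n * (n - 1))) ≤ |(Δ : ℝ)| := by exact_mod_cast h4
  have h6 : ((2 * (n * (n - 1)) : ℕ) : ℝ) * Real.log p ≤ Real.log |(Δ : ℝ)| := by
    rw [← Real.log_pow]
    exact Real.log_le_log (by positivity) h5
  have h7 : ((2 * (n * (n - 1)) : ℕ) : ℝ) * Real.log p = (n : ℝ) * (n - 1) * (2 * Real.log p) := by
    rcases Nat.eq_zero_or_pos n with h | h
    · rw [h]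
      simp
    · push_cast [Nat.cast_sub h]
      ring
  have h8 : 0 ≤ Real.log |(G.leadingCoeff : ℝ)| := by
    apply Real.log_nonneg
    have : 1 ≤ |G.leadingCoeff| := Int.one_le_abs hlc
    exact_mod_cast this
  have h9 : ((T - 1 : ℕ) : ℝ) ≤ (T : ℝ) := by exact_mod_cast Nat.sub_le _ _
  have h10 := mul_le_mul_of_nonneg_right h9 h8
  rw [← h7]
  linarith

end Pool.Agent.H420R4
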