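import Mathlib
import Pool.Agent.H420R4.ML.Stubs
import Pool.Agent.H420R4.ML.Gauss
import Pool.Agent.H420R4.ML.T1
import Pool.Agent.H420R4.ML.T4
import Pool.Agent.H420R4.ML.T5
import Pool.Agent.H420R4.ML.Arch

/-!
Resultants of `f` with `X ^ k - 1` and the energy of the powers of one zero.
-/

set_option autoImplicit false

namespace Pool.Agent.H420R4

open Polynomial Real GA

noncomputable section

/-- the resultant with `X ^ k - 1` over an algebraically closed field -/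
lemma res_pow {A : Type*} [Field A] [CharZero A] [IsAlgClosed A] (f : ℤ[X]) (k : ℕ) :
    ((resultant f (X ^ k - 1) f.natDegree k : ℤ) : A) = (f.leadingCoeff : A) ^ k *
      ((f.map (Int.castRingHom A)).roots.map (fun z => z ^ k - 1)).prod := by
  have h1 := resultant_map_map f (X ^ k - 1) f.natDegree k (Int.castRingHom A)
  have h2 : (f.map (Int.castRingHom A)).natDegree = f.natDegree := natDegree_map' f
  have h3 : ((X ^ k - 1 : ℤ[X]).map (Int.castRingHom A)).natDegree ≤ k := by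
    refine natDegree_map_le.trans ?_
    have : (X ^ k - 1 : ℤ[X]) = X ^ k - C 1 := by simp
    rw [this, natDegree_X_pow_sub_C]
  have h4 := resultant_eq_prod_eval (f.map (Int.castRingHom A))
    ((X ^ k - 1 : ℤ[X]).map (Int.castRingHom A)) k h3 (IsAlgClosed.splits _)
  rw [h2, lc_map] at h4
  rw [show ((resultant f (X ^ k - 1) f.natDegree k : ℤ) : A) =
    Int.castRingHom A (resultant f (X ^ k - 1) f.natDegree k) from rfl, ← h1, h4]
  congr 3
  funext z
  simp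

lemma irr_sep {f : ℤ[X]} (hf : Irreducible f) (hD : 0 < f.natDegree) :
    (f.map (Int.castRingHom ℚ)).Separable := by
  have hp : f.IsPrimitive := hf.isPrimitive (by omega)
  have h1 := (IsPrimitive.Int.irreducible_iff_irreducible_map_cast hp).mp hf
  exact h1.separable

lemma lc_log_nonneg {f : ℤ[X]} (hf : f ≠ 0) : 0 ≤ Real.log |(f.leadingCoeff : ℝ)| := by
  apply Real.log_nonneg
  have : 1 ≤ |f.leadingCoeff| := Int.one_le_abs (leadingCoeff_ne_zero.2 hf)
  exact_mod_cast this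

lemma val_crts {f : ℤ[X]} (h : (f.map (Int.castRingHom ℚ)).Separable) :
    (crts f).val = (f.map (Int.castRingHom ℂ)).roots := by
  unfold crts
  rw [Multiset.toFinset_val]
  exact (nodup_roots (sep_C h)).dedup

/-- a zero of a noncyclotomic irreducible polynomial is not a root of unity -/
lemma not_unity {A : Type} [Field A] [IsAlgClosed A] [CharZero A] {f : ℤ[X]} (hf : Irreducible f)
    (h0 : f.coeff 0 ≠ 0) (hm : 0 < lm f) {z : A} (hz : aeval z f = 0) {k : ℕ} (hk : 1 ≤ k) :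
    z ^ k ≠ 1 := by
  intro h
  have h1 := t4 A f hf h0 z z (k + 1) 1 hz hz (by omega) (by omega) (by omega) (by
    rw [pow_succ, h, one_mul, pow_one])
  exact hm.ne' h1

lemma root_ne_zero {A : Type*} [Field A] [CharZero A] {f : ℤ[X]}
    (h0 : f.coeff 0 ≠ 0) {z : A} (hz : aeval z f = 0) : z ≠ 0 := by
  rintro rfl
  rw [← coeff_zero_eq_aeval_zero'] at hz
  have : ((f.coeff 0 : ℤ) : A) = 0 := hz
  exact h0 (by exact_mod_cast this)

/-- norm of `z ^ k - 1` -/
lemma norm_pow_sub_one (p : ℕ) [Fact p.Prime] (f : ℤ[X]) (hf : Irreducible f)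
    (h0 : f.coeff 0 ≠ 0) (hm : 0 < lm f) (hD : 0 < f.natDegree) (k : ℕ) (hk : 1 ≤ k)
    (C : Finset (PadicAlgCl p)) (hC : ∀ c ∈ C, aeval c f = 0)
    (hclose : ∀ c ∈ C, ‖c ^ k - 1‖ ≤ (p : ℝ) ^ (-2 : ℤ)) :
    2 * (C.card : ℝ) * Real.log p ≤ k * Real.log |(f.leadingCoeff : ℝ)| +
      ∑ z ∈ crts f, Real.log ‖z ^ k - 1‖ := by
  classical
  have hf0 : f ≠ 0 := hf.ne_zero
  have hsep := irr_sep hf hD
  have hlc : f.leadingCoeff ≠ 0 := leadingCoeff_ne_zero.2 hf0
  set Δ : ℤ := resultant f (X ^ k - 1) f.natDegree k with hΔ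
  set q : ℝ := (p : ℝ) ^ (-2 : ℤ) with hq
  have hp1 : (1 : ℝ) < p := by exact_mod_cast (Fact.out : p.Prime).one_lt
  have hp0 : (0 : ℝ) < p := by linarith
  have hq0 : 0 < q := by positivity
  -- at infinity
  have hinf := res_pow (A := ℂ) f k
  rw [← hΔ, ← val_crts hsep] at hinf
  change (Δ : ℂ) = (f.leadingCoeff : ℂ) ^ k * ∏ z ∈ crts f, (z ^ k - 1) at hinf
  have hne : ∀ z ∈ crts f, z ^ k - 1 ≠ 0 := by
    intro z hz
    rw [sub_ne_zero]
    exact not_unity hf h0 hm ((mem_crts hf0 z).mp hz) hk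
  have hlcC : (f.leadingCoeff : ℂ) ≠ 0 := by exact_mod_cast hlc
  have hΔ0 : Δ ≠ 0 := by
    intro h
    rw [h, Int.cast_zero] at hinf
    exact (mul_ne_zero (pow_ne_zero _ hlcC) (Finset.prod_ne_zero_iff.2 hne)) hinf.symm
  have hlog : Real.log |(Δ : ℝ)| = k * Real.log |(f.leadingCoeff : ℝ)| +
      ∑ z ∈ crts f, Real.log ‖z ^ k - 1‖ := by
    have h1 : |(Δ : ℝ)| = ‖(Δ : ℂ)‖ := (Complex.norm_intCast Δ).symm
    have h2 : ‖(f.leadingCoeff : ℂ)‖ = |(f.leadingCoeff : ℝ)| := Complex.norm_intCast _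
    have h3 : |(f.leadingCoeff : ℝ)| ≠ 0 := by
      rw [abs_ne_zero]
      exact_mod_cast hlc
    have h4 : ∀ z ∈ crts f, ‖z ^ k - 1‖ ≠ 0 := fun z hz => norm_ne_zero_iff.2 (hne z hz)
    rw [h1, hinf, norm_mul, norm_pow, norm_prod, h2, Real.log_mul (pow_ne_zero _ h3)
      (Finset.prod_ne_zero_iff.2 h4), Real.log_pow, Real.log_prod h4]
  -- at p
  have hpad := res_pow (A := PadicAlgCl p) f k
  rw [← hΔ] at hpad
  have hnd : (f.map (Int.castRingHom (PadicAlgCl p))).roots.Nodup :=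
    nodup_roots (T5aux.separable_map hsep)
  set W := (f.map (Int.castRingHom (PadicAlgCl p))).roots.toFinset with hW
  have hval : W.val = (f.map (Int.castRingHom (PadicAlgCl p))).roots := by
    rw [hW, Multiset.toFinset_val]
    exact hnd.dedup
  rw [← hval] at hpad
  change (Δ : PadicAlgCl p) = (f.leadingCoeff : PadicAlgCl p) ^ k * ∏ z ∈ W, (z ^ k - 1) at hpad
  have hCW : C ⊆ W := by
    intro c hc
    rw [hW, Multiset.mem_toFinset, mem_roots'' hf0]
    exact hC c hc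
  have hgauss := gauss_ineq p f
  rw [← hval] at hgauss
  have hgauss' : ‖(f.leadingCoeff : PadicAlgCl p)‖ * ∏ y ∈ W, max 1 ‖y‖ ≤ 1 := hgauss
  set L := ‖(f.leadingCoeff : PadicAlgCl p)‖ with hL
  have hL0 : 0 ≤ L := norm_nonneg _
  have hM0 : 0 ≤ ∏ y ∈ W, max 1 ‖y‖ :=
    Finset.prod_nonneg fun y _ => zero_le_one.trans (le_max_left _ _)
  have hterm : ∀ y ∈ W, ‖y ^ k - 1‖ ≤ (if y ∈ C then q else 1) * (max 1 ‖y‖) ^ k := by
    intro y _
    have hm1 : (1 : ℝ) ≤ (max 1 ‖y‖) ^ k := one_le_pow₀ (le_max_left _ _)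
    split_ifs with h
    · calc ‖y ^ k - 1‖ ≤ q := hclose y h
        _ = q * 1 := (mul_one q).symm
        _ ≤ q * (max 1 ‖y‖) ^ k := mul_le_mul_of_nonneg_left hm1 hq0.le
    · rw [one_mul, sub_eq_add_neg]
      refine (PadicAlgCl.isNonarchimedean p (y ^ k) (-1)).trans (max_le ?_ ?_)
      · rw [norm_pow]
        exact pow_le_pow_left₀ (norm_nonneg _) (le_max_right _ _) k
      · rw [norm_neg, norm_one]
        exact hm1
  have hnorm : ‖(Δ : PadicAlgCl p)‖ ≤ q ^ C.card := by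
    rw [hpad, norm_mul, norm_pow, norm_prod, ← hL]
    calc L ^ k * ∏ z ∈ W, ‖z ^ k - 1‖
        ≤ L ^ k * ∏ z ∈ W, ((if z ∈ C then q else 1) * (max 1 ‖z‖) ^ k) := by
          apply mul_le_mul_of_nonneg_left _ (by positivity)
          exact Finset.prod_le_prod (fun _ _ => norm_nonneg _) hterm
      _ = q ^ C.card * (L * ∏ z ∈ W, max 1 ‖z‖) ^ k := by
          rw [Finset.prod_mul_distrib, Finset.prod_pow, Finset.prod_ite, Finset.prod_const_one,
            mul_one, Finset.prod_const, mul_pow]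
          have : W.filter (fun z => z ∈ C) = C := by
            ext z
            simp only [Finset.mem_filter]
            exact ⟨fun h => h.2, fun h => ⟨hCW h, h⟩⟩
          rw [this]
          ring
      _ ≤ q ^ C.card * 1 := by
          apply mul_le_mul_of_nonneg_left _ (by positivity)
          exact pow_le_one₀ (mul_nonneg hL0 hM0) hgauss'
      _ = q ^ C.card := mul_one _
  rw [norm_int] at hnorm
  have hq2 : q ^ C.card = (p : ℝ) ^ (-((2 * C.card : ℕ) : ℤ)) := by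
    rw [hq, ← zpow_natCast, ← zpow_mul]
    congr 1
  rw [hq2, Padic.norm_int_le_pow_iff_dvd] at hnorm
  have h4 : (p ^ (2 * C.card) : ℤ) ≤ |Δ| :=
    Int.le_of_dvd (abs_pos.2 hΔ0) ((dvd_abs _ _).2 hnorm)
  have h5 : (p : ℝ) ^ (2 * C.card) ≤ |(Δ : ℝ)| := by exact_mod_cast h4
  have h6 : ((2 * C.card : ℕ) : ℝ) * Real.log p ≤ Real.log |(Δ : ℝ)| := by
    rw [← Real.log_pow]
    exact Real.log_le_log (by positivity) h5
  rw [hlog] at h6
  push_cast at h6
  exact h6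

/-- half of the energy of the first `X` powers of `w` -/
def VE (w : ℂ) (X : ℕ) : ℝ := ∑ i : Fin X, ∑ j ∈ Finset.Ioi i, Real.log ‖w ^ (j : ℕ) - w ^ (i : ℕ)‖

lemma VE_upper (w : ℂ) (X : ℕ) (hw0 : w ≠ 0) (hw : ∀ k : ℕ, 1 ≤ k → w ^ k ≠ 1) :
    VE w X ≤ X * Real.log X + (X : ℝ) ^ 3 * Real.posLog ‖w‖ := by
  have hz : Function.Injective (fun i : Fin X => w ^ (i : ℕ)) := by
    intro i j hij
    simp only at hij
    by_contra hne
    have hne' : (i : ℕ) ≠ j := fun h => hne (Fin.ext h)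
    rcases lt_or_gt_of_ne hne' with h | h
    · have h1 : w ^ ((j : ℕ) - i) = 1 := by
        have h2 : w ^ (j : ℕ) = w ^ (i : ℕ) * w ^ ((j : ℕ) - i) := by
          rw [← pow_add]; congr 1; omega
        rw [h2] at hij
        have h3 : w ^ (i : ℕ) ≠ 0 := pow_ne_zero _ hw0
        exact (mul_eq_left₀ h3).mp hij.symm
      exact hw _ (by omega) h1
    · have h1 : w ^ ((i : ℕ) - j) = 1 := by
        have h2 : w ^ (i : ℕ) = w ^ (j : ℕ) * w ^ ((i : ℕ) - j) := by
          rw [← pow_add]; congr 1; omega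
        rw [h2] at hij
        have h3 : w ^ (j : ℕ) ≠ 0 := pow_ne_zero _ hw0
        exact (mul_eq_left₀ h3).mp hij
      exact hw _ (by omega) h1
  have h1 := log_det_vandermonde_le (fun i : Fin X => w ^ (i : ℕ)) hz 0 (Nat.zero_le _) 1 1
    one_pos le_rfl (fun i hi => absurd hi (Nat.not_lt_zero _))
    (fun i j hi => absurd hi (Nat.not_lt_zero _))
  simp only [Nat.cast_zero, zero_mul, zero_div, add_zero] at h1
  have h3 : VE w X = Real.log ‖(Matrix.vandermonde (fun i : Fin X => w ^ (i : ℕ))).det‖ := by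
    unfold VE
    rw [Matrix.det_vandermonde, norm_prod, Real.log_prod]
    · refine Finset.sum_congr rfl fun i _ => ?_
      rw [norm_prod, Real.log_prod]
      intro j hj
      rw [norm_ne_zero_iff, sub_ne_zero]
      exact hz.ne (ne_of_gt (Finset.mem_Ioi.mp hj))
    · intro i _
      rw [norm_ne_zero_iff, Finset.prod_ne_zero_iff]
      intro j hj
      rw [sub_ne_zero]
      exact hz.ne (ne_of_gt (Finset.mem_Ioi.mp hj))
  rw [h3]
  refine h1.trans ?_
  have h4 : ∑ i : Fin X, Real.posLog ‖w ^ (i : ℕ)‖ ≤ (X : ℝ) ^ 2 * Real.posLog ‖w‖ := by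
    have h5 : ∀ i ∈ (Finset.univ : Finset (Fin X)), Real.posLog ‖w ^ (i : ℕ)‖ ≤
        X * Real.posLog ‖w‖ := by
      intro i _
      rw [norm_pow, Real.posLog_pow]
      apply mul_le_mul_of_nonneg_right _ Real.posLog_nonneg
      exact_mod_cast i.2.le
    refine (Finset.sum_le_sum h5).trans (le_of_eq ?_)
    rw [Finset.sum_const, Finset.card_univ, Fintype.card_fin, nsmul_eq_mul]
    ring
  have h6 : (X : ℝ) * ∑ i : Fin X, Real.posLog ‖w ^ (i : ℕ)‖ ≤
      X * ((X : ℝ) ^ 2 * Real.posLog ‖w‖) := mul_le_mul_of_nonneg_left h4 (by positivity)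
  have h7 : (X : ℝ) * ((X : ℝ) ^ 2 * Real.posLog ‖w‖) = (X : ℝ) ^ 3 * Real.posLog ‖w‖ := by ring
  linarith

lemma card_pairs (X : ℕ) : ∑ i : Fin X, ((Finset.Ioi i).card : ℝ) = (X : ℝ) * (X - 1) / 2 := by
  have h1 : ∀ i : Fin X, ((Finset.Ioi i).card : ℝ) = (fun i : ℕ => ((X - 1 - i : ℕ) : ℝ)) i := by
    intro i
    simp [Fin.card_Ioi]
  rw [Finset.sum_congr rfl fun i _ => h1 i, Fin.sum_univ_eq_sum_range
    (fun i : ℕ => ((X - 1 - i : ℕ) : ℝ)) X, Finset.sum_range_reflect (fun i : ℕ => (i : ℝ)) X]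
  have := Finset.sum_range_id_mul_two X
  have h4 : ((∑ i ∈ Finset.range X, i : ℕ) : ℝ) * 2 = ((X * (X - 1) : ℕ) : ℝ) := by
    exact_mod_cast this
  rcases Nat.eq_zero_or_pos X with rfl | hX
  · simp
  rw [Nat.cast_mul, Nat.cast_sub hX, Nat.cast_one, Nat.cast_sum] at h4
  linarith

lemma VE_upper_close (w : ℂ) (X : ℕ) (ρ : ℝ) (hw0 : w ≠ 0)
    (hw : ∀ k : ℕ, 1 ≤ k → w ^ k ≠ 1)
    (hclose : ∀ i j : ℕ, i < X → j < X → ‖w ^ j - w ^ i‖ ≤ ρ) :
    VE w X ≤ (X : ℝ) * (X - 1) / 2 * Real.log ρ := by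
  unfold VE
  have h1 : ∀ i : Fin X, ∑ j ∈ Finset.Ioi i, Real.log ‖w ^ (j : ℕ) - w ^ (i : ℕ)‖ ≤
      ((Finset.Ioi i).card : ℝ) * Real.log ρ := by
    intro i
    rw [← nsmul_eq_mul, ← Finset.sum_const]
    apply Finset.sum_le_sum
    intro j hj
    have hij' : i < j := Finset.mem_Ioi.mp hj
    have hij : (i : ℕ) < j := hij'
    apply Real.log_le_log _ (hclose i j i.2 j.2)
    rw [norm_pos_iff, sub_ne_zero]
    intro h
    have h2 : w ^ (j : ℕ) = w ^ (i : ℕ) * w ^ ((j : ℕ) - i) := by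
      rw [← pow_add]; congr 1; omega
    rw [h2] at h
    have h3 : w ^ (i : ℕ) ≠ 0 := pow_ne_zero _ hw0
    exact hw ((j : ℕ) - i) (by omega) ((mul_eq_left₀ h3).mp h)
  refine (Finset.sum_le_sum fun i _ => h1 i).trans ?_
  rw [← Finset.sum_mul, card_pairs]

lemma sum_log_roots {f : ℤ[X]} (hf : Irreducible f) (hD : 0 < f.natDegree)
    (h0 : f.coeff 0 ≠ 0) :
    0 ≤ Real.log |(f.leadingCoeff : ℝ)| + ∑ z ∈ crts f, Real.log ‖z‖ := by
  have hsep := irr_sep hf hD
  have hf0 := hf.ne_zero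
  have hlc : f.leadingCoeff ≠ 0 := leadingCoeff_ne_zero.2 hf0
  have h1 : ((f.coeff 0 : ℤ) : ℂ) = (f.leadingCoeff : ℂ) * ∏ z ∈ crts f, (0 - z) := by
    have h2 := congrArg (eval 0) (map_eq (A := ℂ) f)
    rw [← val_crts hsep, eval_mul, eval_C, eval_multiset_prod, Multiset.map_map,
      ← coeff_zero_eq_eval_zero, coeff_map] at h2
    rw [show ((f.coeff 0 : ℤ) : ℂ) = Int.castRingHom ℂ (f.coeff 0) from rfl, h2]
    congr 1
    rw [Finset.prod]
    congr 1
    apply Multiset.map_congr rfl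
    intro z _
    simp
  have hne : ∀ z ∈ crts f, ‖(0 : ℂ) - z‖ ≠ 0 := by
    intro z hz
    rw [zero_sub, norm_neg, norm_ne_zero_iff]
    exact root_ne_zero h0 ((mem_crts hf0 z).mp hz)
  have h3 : |(f.coeff 0 : ℝ)| = |(f.leadingCoeff : ℝ)| * ∏ z ∈ crts f, ‖(0 : ℂ) - z‖ := by
    have h4 := congrArg norm h1
    rw [norm_mul, norm_prod, Complex.norm_intCast, Complex.norm_intCast] at h4
    exact h4
  have h4 : |(f.leadingCoeff : ℝ)| ≠ 0 := by
    rw [abs_ne_zero]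
    exact_mod_cast hlc
  have h5 := congrArg Real.log h3
  rw [Real.log_mul h4 (Finset.prod_ne_zero_iff.2 hne), Real.log_prod hne] at h5
  have h6 : 0 ≤ Real.log |(f.coeff 0 : ℝ)| := by
    apply Real.log_nonneg
    have : 1 ≤ |f.coeff 0| := Int.one_le_abs h0
    exact_mod_cast this
  rw [h5] at h6
  simpa using h6

lemma VE_sum_lower (p : ℕ) [Fact p.Prime] (f : ℤ[X]) (hf : Irreducible f)
    (h0 : f.coeff 0 ≠ 0) (hm : 0 < lm f) (hD : 0 < f.natDegree) (E X : ℕ) (hE : 1 ≤ E)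
    (C : Finset (PadicAlgCl p)) (hC : ∀ c ∈ C, aeval c f = 0)
    (hclose : ∀ c ∈ C, ∀ j : ℕ, 1 ≤ j → ‖c ^ (E * j) - 1‖ ≤ (p : ℝ) ^ (-2 : ℤ)) :
    (X : ℝ) * (X - 1) / 2 * (2 * C.card * Real.log p - E * X * lm f) ≤
      ∑ z ∈ crts f, VE (z ^ E) X := by
  have hf0 := hf.ne_zero
  have hlcn := lc_log_nonneg hf0
  have hlcm : Real.log |(f.leadingCoeff : ℝ)| ≤ lm f := by
    rw [lm_eq (irr_sep hf hD)]
    have : 0 ≤ ∑ z ∈ crts f, Real.posLog ‖z‖ := Finset.sum_nonneg fun _ _ => Real.posLog_nonneg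
    linarith
  have hs := sum_log_roots hf hD h0
  unfold VE
  rw [Finset.sum_comm]
  have h1 : ∀ i : Fin X, ((Finset.Ioi i).card : ℝ) * (2 * C.card * Real.log p - E * X * lm f) ≤
      ∑ z ∈ crts f, ∑ j ∈ Finset.Ioi i, Real.log ‖(z ^ E) ^ (j : ℕ) - (z ^ E) ^ (i : ℕ)‖ := by
    intro i
    rw [Finset.sum_comm, ← nsmul_eq_mul, ← Finset.sum_const]
    apply Finset.sum_le_sum
    intro j hj
    have hij' : i < j := Finset.mem_Ioi.mp hj
    have hij : (i : ℕ) < j := hij'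
    have h2 : ∀ z ∈ crts f, Real.log ‖(z ^ E) ^ (j : ℕ) - (z ^ E) ^ (i : ℕ)‖ =
        (E * i : ℝ) * Real.log ‖z‖ + Real.log ‖z ^ (E * ((j : ℕ) - i)) - 1‖ := by
      intro z hz
      have hz0 : z ≠ 0 := root_ne_zero h0 ((mem_crts hf0 z).mp hz)
      have h3 : (z ^ E) ^ (j : ℕ) - (z ^ E) ^ (i : ℕ) =
          z ^ (E * i) * (z ^ (E * ((j : ℕ) - i)) - 1) := by
        rw [mul_sub, mul_one, ← pow_add, ← pow_mul, ← pow_mul]
        congr 2
        rw [← mul_add]
        congr 1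
        omega
      have h4 : z ^ (E * ((j : ℕ) - i)) - 1 ≠ 0 := by
        rw [sub_ne_zero]
        exact not_unity hf h0 hm ((mem_crts hf0 z).mp hz)
          (Nat.mul_pos (by omega) (by omega))
      rw [h3, norm_mul, norm_pow, Real.log_mul (pow_ne_zero _ (norm_ne_zero_iff.2 hz0))
        (norm_ne_zero_iff.2 h4), Real.log_pow]
      push_cast
      ring
    rw [Finset.sum_congr rfl h2, Finset.sum_add_distrib, ← Finset.mul_sum]
    have h5 := norm_pow_sub_one p f hf h0 hm hD (E * ((j : ℕ) - i))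
      (Nat.mul_pos (by omega) (by omega)) C hC (fun c hc => hclose c hc _ (by omega))
    have h6 : ((E * ((j : ℕ) - i) : ℕ) : ℝ) = E * ((j : ℕ) - (i : ℕ)) := by
      rw [Nat.cast_mul, Nat.cast_sub hij.le]
    rw [h6] at h5
    have h7 : 0 ≤ (E * i : ℝ) * (Real.log |(f.leadingCoeff : ℝ)| + ∑ z ∈ crts f, Real.log ‖z‖) :=
      mul_nonneg (by positivity) hs
    have h8 : (E : ℝ) * j * Real.log |(f.leadingCoeff : ℝ)| ≤ E * X * lm f := by
      have h9 : ((j : ℕ) : ℝ) ≤ X := by exact_mod_cast j.2.le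
      calc (E : ℝ) * j * Real.log |(f.leadingCoeff : ℝ)|
          ≤ E * X * Real.log |(f.leadingCoeff : ℝ)| := by gcongr
        _ ≤ E * X * lm f := by gcongr
    linarith
  refine le_trans (le_of_eq ?_) (Finset.sum_le_sum fun i _ => h1 i)
  rw [← Finset.sum_mul, card_pairs]

end

end Pool.Agent.H420R4
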