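import Mathlib
import Pool.Agent.H420R4.ML.Stubs

set_option autoImplicit false

namespace Pool.Agent.H420R4

open Polynomial Real

namespace T2a

variable {p : ℕ} [Fact p.Prime]

/-- powers of elements of norm at most one -/
lemma norm_pow_sub_one_le (z : PadicAlgCl p) (hz : ‖z‖ ≤ 1) (m : ℕ) :
    ‖z ^ m - 1‖ ≤ ‖z - 1‖ := by
  have h : z ^ m - 1 = (∑ i ∈ Finset.range m, z ^ i) * (z - 1) := (geom_sum_mul z m).symm
  rw [h, norm_mul]
  have h1 : ‖∑ i ∈ Finset.range m, z ^ i‖ ≤ 1 := by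
    apply IsUltrametricDist.norm_sum_le_of_forall_le_of_nonneg zero_le_one
    intro i _
    rw [norm_pow]
    exact pow_le_one₀ (norm_nonneg _) hz
  calc ‖∑ i ∈ Finset.range m, z ^ i‖ * ‖z - 1‖ ≤ 1 * ‖z - 1‖ :=
        mul_le_mul_of_nonneg_right h1 (norm_nonneg _)
    _ = ‖z - 1‖ := one_mul _

/-- the embedding of the p-adic integers -/
noncomputable def phi (p : ℕ) [Fact p.Prime] : ℤ_[p] →+* PadicAlgCl p :=
  (algebraMap ℚ_[p] (PadicAlgCl p)).comp (PadicInt.Coe.ringHom (p := p))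

lemma norm_phi (x : ℤ_[p]) : ‖phi p x‖ = ‖x‖ := by
  have := PadicAlgCl.norm_extends p (x : ℚ_[p])
  rw [PadicInt.norm_def, ← this]
  rfl

lemma exists_monic (z : PadicAlgCl p) (hz : ‖z‖ ≤ 1) :
    ∃ g : ℤ_[p][X], g.Monic ∧ g.natDegree = (minpoly ℚ_[p] z).natDegree ∧
      eval₂ (phi p) z g = 0 := by
  have hint : IsIntegral ℚ_[p] z := Algebra.IsIntegral.isIntegral z
  have hmonic : (minpoly ℚ_[p] z).Monic := minpoly.monic hint
  have hcoeff : ∀ n : ℕ, ‖(minpoly ℚ_[p] z).coeff n‖ ≤ 1 :=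
    (spectralValue_le_one_iff hmonic).1 hz
  have hl : (minpoly ℚ_[p] z) ∈ Polynomial.lifts (PadicInt.Coe.ringHom (p := p)) := by
    rw [Polynomial.lifts_iff_coeff_lifts]
    intro n
    exact ⟨⟨_, hcoeff n⟩, rfl⟩
  obtain ⟨g, hg, hdeg, hgm⟩ := Polynomial.lifts_and_natDegree_eq_and_monic hl hmonic
  refine ⟨g, hgm, hdeg, ?_⟩
  have h := minpoly.aeval ℚ_[p] z
  rw [← hg, aeval_def, eval₂_map] at h
  exact h

lemma eval_small (z : PadicAlgCl p) (hz : ‖z‖ ≤ 1) (r : ℤ_[p][X]) (C : ℝ) (hC : 0 ≤ C)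
    (h : ∀ i, ‖r.coeff i‖ ≤ C) : ‖eval₂ (phi p) z r‖ ≤ C := by
  rw [eval₂_eq_sum_range]
  apply IsUltrametricDist.norm_sum_le_of_forall_le_of_nonneg hC
  intro i _
  rw [norm_mul, norm_phi, norm_pow]
  calc ‖r.coeff i‖ * ‖z‖ ^ i ≤ ‖r.coeff i‖ * 1 :=
        mul_le_mul_of_nonneg_left (pow_le_one₀ (norm_nonneg _) hz) (norm_nonneg _)
    _ ≤ C := by rw [mul_one]; exact h i

end T2a

open T2a in
theorem t2a : St_T2a := by
  intro p _ n
  refine ⟨(p ^ (2 * n)).factorial, Nat.factorial_pos _, ?_⟩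
  intro z hdeg hz
  obtain ⟨g, hgm, hgd, hg0⟩ := exists_monic z hz.le
  have hpow : ∀ k : ℕ, eval₂ (phi p) z ((X : ℤ_[p][X]) ^ k %ₘ g) = z ^ k := by
    intro k
    have h := modByMonic_add_div ((X : ℤ_[p][X]) ^ k) g
    have h2 := congrArg (eval₂ (phi p) z) h
    rw [eval₂_add, eval₂_mul, hg0, zero_mul, add_zero, eval₂_X_pow] at h2
    exact h2
  have hcoef0 : ∀ k i : ℕ, n ≤ i → ((X : ℤ_[p][X]) ^ k %ₘ g).coeff i = 0 := by
    intro k i hi
    apply coeff_eq_zero_of_degree_lt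
    calc ((X : ℤ_[p][X]) ^ k %ₘ g).degree < g.degree := degree_modByMonic_lt _ hgm
      _ ≤ (i : WithBot ℕ) := by
        rw [degree_eq_natDegree hgm.ne_zero, hgd]
        exact_mod_cast hdeg.trans hi
  let F : Fin (p ^ (2 * n) + 1) → (Fin n → ZMod (p ^ 2)) := fun k i =>
    PadicInt.toZModPow 2 (((X : ℤ_[p][X]) ^ (k : ℕ) %ₘ g).coeff i)
  have : NeZero (p ^ 2) := ⟨pow_ne_zero _ (Fact.out : p.Prime).ne_zero⟩
  have hcard : Fintype.card (Fin n → ZMod (p ^ 2)) < Fintype.card (Fin (p ^ (2 * n) + 1)) := by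
    rw [Fintype.card_fin, Fintype.card_fun, Fintype.card_fin, ZMod.card, ← pow_mul]
    exact Nat.lt_succ_self _
  obtain ⟨a, b, hab, hF⟩ := Fintype.exists_ne_map_eq_of_card_lt F hcard
  have key : ∀ a b : Fin (p ^ (2 * n) + 1), (a : ℕ) < b → F a = F b →
      ‖z ^ (p ^ (2 * n)).factorial - 1‖ ≤ (p : ℝ) ^ (-2 : ℤ) := by
    intro a b hlt hF
    have hC : (0 : ℝ) ≤ (p : ℝ) ^ (-2 : ℤ) := zpow_nonneg (Nat.cast_nonneg _) _
    have h1 : ‖z ^ (b : ℕ) - z ^ (a : ℕ)‖ ≤ (p : ℝ) ^ (-2 : ℤ) := by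
      rw [← hpow, ← hpow, ← eval₂_sub]
      apply eval_small z hz.le _ _ hC
      intro i
      rw [coeff_sub]
      by_cases hi : i < n
      · have h2 := congrFun hF ⟨i, hi⟩
        simp only [F] at h2
        have h3 : (((X : ℤ_[p][X]) ^ (b : ℕ) %ₘ g).coeff i -
            ((X : ℤ_[p][X]) ^ (a : ℕ) %ₘ g).coeff i) ∈
            RingHom.ker (PadicInt.toZModPow 2 : ℤ_[p] →+* ZMod (p ^ 2)) := by
          rw [RingHom.mem_ker, map_sub, h2, sub_self]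
        rw [PadicInt.ker_toZModPow, ← PadicInt.norm_le_pow_iff_mem_span_pow] at h3
        exact_mod_cast h3
      · rw [hcoef0 _ _ (not_lt.1 hi), hcoef0 _ _ (not_lt.1 hi), sub_self, norm_zero]
        exact hC
    have h4 : z ^ (b : ℕ) - z ^ (a : ℕ) = z ^ (a : ℕ) * (z ^ ((b : ℕ) - a) - 1) := by
      rw [mul_sub, ← pow_add, mul_one, Nat.add_sub_cancel' hlt.le]
    rw [h4, norm_mul, norm_pow, hz, one_pow, one_mul] at h1
    have hdvd : ((b : ℕ) - a) ∣ (p ^ (2 * n)).factorial := by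
      apply Nat.dvd_factorial
      · omega
      · have := b.2
        omega
    obtain ⟨m, hm⟩ := hdvd
    rw [hm, pow_mul]
    refine (norm_pow_sub_one_le _ ?_ m).trans h1
    rw [norm_pow, hz, one_pow]
  rcases lt_or_gt_of_ne (fun h => hab (Fin.ext h) : (a : ℕ) ≠ b) with h | h
  · exact key a b h hF
  · exact key b a h hF.symm

end Pool.Agent.H420R4
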