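import Mathlib
import Pool.Agent.H420R4.ML.Stubs
import Pool.Agent.H420R4.ML.Gauss

/-! T2c: few roots of bounded degree over `ℚ_p` are not units. -/

set_option autoImplicit false

namespace Pool.Agent.H420R4

open Polynomial Real GA

namespace T2caux

variable (p : ℕ) [hp : Fact p.Prime]

theorem norm_eval_zero (s : Multiset (PadicAlgCl p)) :
    ‖eval 0 ((s.map (fun a => X - C a)).prod)‖ = (s.map (fun a => ‖a‖)).prod := by
  induction s using Multiset.induction_on with
  | empty => simp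
  | cons a s ih =>
    rw [Multiset.map_cons, Multiset.prod_cons, Multiset.map_cons, Multiset.prod_cons, eval_mul,
      norm_mul, ih]
    simp

theorem log_prod_multiset (s : Multiset (PadicAlgCl p)) (g : PadicAlgCl p → ℝ)
    (hg : ∀ a ∈ s, 0 < g a) : Real.log ((s.map g).prod) = (s.map (fun a => Real.log (g a))).sum := by
  induction s using Multiset.induction_on with
  | empty => simp
  | cons a s ih =>
    have h1 : 0 < (s.map g).prod := by
      refine Multiset.prod_pos fun x hx => ?_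
      obtain ⟨y, hy, rfl⟩ := Multiset.mem_map.1 hx
      exact hg y (Multiset.mem_cons_of_mem hy)
    rw [Multiset.map_cons, Multiset.prod_cons, Multiset.map_cons, Multiset.sum_cons,
      Real.log_mul (hg a (Multiset.mem_cons_self a s)).ne' h1.ne',
      ih (fun y hy => hg y (Multiset.mem_cons_of_mem hy))]

theorem deg_bound {n : ℕ} {z : PadicAlgCl p} (hz : (minpoly ℚ_[p] z).natDegree ≤ n) (hz0 : z ≠ 0)
    (hz1 : ‖z‖ ≠ 1) : Real.log p ≤ n * |Real.log ‖z‖| := by
  have hint : IsIntegral ℚ_[p] z := (Algebra.IsAlgebraic.isAlgebraic z).isIntegral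
  set d := (minpoly ℚ_[p] z).natDegree with hd
  have hd0 : 0 < d := minpoly.natDegree_pos hint
  set c := (minpoly ℚ_[p] z).coeff 0 with hc
  have hc0 : c ≠ 0 := minpoly.coeff_zero_ne_zero hint hz0
  have h1 : ‖z‖ = ‖c‖ ^ (1 / (d : ℝ)) := by
    have := spectralNorm.spectralNorm_eq_norm_coeff_zero_rpow (K := ℚ_[p]) (L := PadicAlgCl p) z
    rw [PadicAlgCl.spectralNorm_eq] at this
    exact this
  have hcn : 0 < ‖c‖ := norm_pos_iff.2 hc0
  have h2 : Real.log ‖z‖ = 1 / (d : ℝ) * Real.log ‖c‖ := by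
    rw [h1, Real.log_rpow hcn]
  have hp1 : (1 : ℝ) < p := by exact_mod_cast hp.out.one_lt
  have hlp : 0 < Real.log p := Real.log_pos hp1
  have h3 : Real.log ‖c‖ = ((-c.valuation : ℤ) : ℝ) * Real.log p := by
    rw [Padic.norm_eq_zpow_neg_valuation hc0, Real.log_zpow]
  have hv : (-c.valuation : ℤ) ≠ 0 := by
    intro h
    rw [h, Int.cast_zero, zero_mul] at h3
    rw [h3, mul_zero] at h2
    have h4 := Real.eq_one_of_pos_of_log_eq_zero (norm_pos_iff.2 hz0) h2
    exact hz1 h4
  have h5 : Real.log p ≤ |Real.log ‖c‖| := by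
    rw [h3, abs_mul, abs_of_pos hlp]
    have : (1 : ℝ) ≤ |((-c.valuation : ℤ) : ℝ)| := by
      have := Int.one_le_abs hv
      exact_mod_cast this
    nlinarith
  have hdR : (0 : ℝ) < d := by exact_mod_cast hd0
  have h6 : |Real.log ‖c‖| = d * |Real.log ‖z‖| := by
    rw [h2, abs_mul, abs_of_pos (by positivity : (0 : ℝ) < 1 / d)]
    field_simp
  have h7 : (d : ℝ) ≤ n := by exact_mod_cast hz
  calc Real.log p ≤ d * |Real.log ‖z‖| := by rw [← h6]; exact h5
    _ ≤ n * |Real.log ‖z‖| := mul_le_mul_of_nonneg_right h7 (abs_nonneg _)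

theorem abs_log_eq {x : ℝ} (hx : 0 < x) :
    |Real.log x| = 2 * Real.log (max 1 x) - Real.log x := by
  rcases le_total 1 x with h | h
  · rw [max_eq_right h, abs_of_nonneg (Real.log_nonneg h)]
    ring
  · rw [max_eq_left h, abs_of_nonpos (Real.log_nonpos hx.le h), Real.log_one]
    ring

end T2caux

open T2caux

theorem t2c : St_T2c := by
  classical
  intro p hp n f Z hf0 hZ
  have hf : f ≠ 0 := by
    rintro rfl
    simp at hf0
  have hlc : f.leadingCoeff ≠ 0 := leadingCoeff_ne_zero.2 hf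
  set R := (f.map (Int.castRingHom (PadicAlgCl p))).roots with hR
  have hne : ∀ z : PadicAlgCl p, aeval z f = 0 → z ≠ 0 := by
    intro z hz h0
    rw [h0, ← coeff_zero_eq_aeval_zero'] at hz
    have : ((f.coeff 0 : ℤ) : PadicAlgCl p) = 0 := hz
    exact hf0 (by exact_mod_cast this)
  have hRz : ∀ z ∈ R, z ≠ 0 := fun z hz => hne z ((mem_roots'' hf z).1 hz)
  have hRn : ∀ z ∈ R, 0 < ‖z‖ := fun z hz => norm_pos_iff.2 (hRz z hz)
  -- the sum over all roots
  set L := ‖(f.leadingCoeff : PadicAlgCl p)‖ with hL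
  set L0 := ‖((f.coeff 0 : ℤ) : PadicAlgCl p)‖ with hL0
  have hLpos : 0 < L := norm_pos_iff.2 (by exact_mod_cast hlc)
  have hL0pos : 0 < L0 := norm_pos_iff.2 (by exact_mod_cast hf0)
  have hconst : L0 = L * (R.map (fun a => ‖a‖)).prod := by
    have h1 : ((f.coeff 0 : ℤ) : PadicAlgCl p) = eval 0 (f.map (Int.castRingHom (PadicAlgCl p))) := by
      rw [← coeff_zero_eq_eval_zero, coeff_map]
      rfl
    rw [hL0, h1, map_eq f, eval_mul, eval_C, norm_mul, norm_eval_zero]
  have hM := gauss_ineq p f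
  rw [← hL, ← hR] at hM
  have hPpos : 0 < (R.map (fun a => ‖a‖)).prod := by
    refine Multiset.prod_pos fun x hx => ?_
    obtain ⟨y, hy, rfl⟩ := Multiset.mem_map.1 hx
    exact hRn y hy
  have hMpos : 0 < (R.map (fun a => max 1 ‖a‖)).prod := by
    refine Multiset.prod_pos fun x hx => ?_
    obtain ⟨y, hy, rfl⟩ := Multiset.mem_map.1 hx
    exact lt_max_of_lt_left one_pos
  have hsum : (R.map (fun a => |Real.log ‖a‖|)).sum =
      2 * Real.log ((R.map (fun a => max 1 ‖a‖)).prod) - Real.log ((R.map (fun a => ‖a‖)).prod) := by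
    rw [log_prod_multiset p R (fun a => max 1 ‖a‖) (fun a _ => lt_max_of_lt_left one_pos),
      log_prod_multiset p R (fun a => ‖a‖) hRn, ← Multiset.sum_map_mul_left,
      ← Multiset.sum_map_sub]
    congr 1
    refine Multiset.map_congr rfl fun a ha => ?_
    exact abs_log_eq (hRn a ha)
  have hlogM : Real.log L + Real.log ((R.map (fun a => max 1 ‖a‖)).prod) ≤ 0 := by
    rw [← Real.log_mul hLpos.ne' hMpos.ne']
    exact Real.log_nonpos (by positivity) hM
  have hlogP : Real.log L0 = Real.log L + Real.log ((R.map (fun a => ‖a‖)).prod) := by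
    rw [hconst, Real.log_mul hLpos.ne' hPpos.ne']
  -- comparison with the Mahler measure
  have hMf1 : |(f.leadingCoeff : ℝ)| ≤ (f.map (Int.castRingHom ℂ)).mahlerMeasure := by
    have := leadingCoeff_le_mahlerMeasure (f.map (Int.castRingHom ℂ))
    rw [lc_map] at this
    rwa [Complex.norm_intCast] at this
  have hMf2 : |(f.coeff 0 : ℝ)| ≤ (f.map (Int.castRingHom ℂ)).mahlerMeasure := by
    have := norm_coeff_le_choose_mul_mahlerMeasure 0 (f.map (Int.castRingHom ℂ))
    rw [coeff_map, Nat.choose_zero_right, Nat.cast_one, one_mul] at this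
    have h2 : ‖Int.castRingHom ℂ (f.coeff 0)‖ = |(f.coeff 0 : ℝ)| := Complex.norm_intCast _
    rwa [h2] at this
  have hl1 : -Real.log L ≤ lm f := by
    have h1 := inv_abs_le_norm_int p hlc
    have h2 : (0 : ℝ) < |(f.leadingCoeff : ℝ)| := abs_pos.2 (by exact_mod_cast hlc)
    have h3 := Real.log_le_log (inv_pos.2 h2) h1
    rw [Real.log_inv] at h3
    have h4 := Real.log_le_log h2 hMf1
    unfold lm
    linarith
  have hl2 : -Real.log L0 ≤ lm f := by
    have h1 := inv_abs_le_norm_int p hf0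
    have h2 : (0 : ℝ) < |(f.coeff 0 : ℝ)| := abs_pos.2 (by exact_mod_cast hf0)
    have h3 := Real.log_le_log (inv_pos.2 h2) h1
    rw [Real.log_inv] at h3
    have h4 := Real.log_le_log h2 hMf2
    unfold lm
    linarith
  have htot : (R.map (fun a => |Real.log ‖a‖|)).sum ≤ 2 * lm f := by
    rw [hsum]
    linarith
  -- the part over `Z`
  have hZR : Z.val ≤ R := by
    rw [Multiset.le_iff_subset Z.nodup]
    intro z hz
    exact (mem_roots'' hf z).2 (hZ z hz).1
  obtain ⟨R', hR'⟩ := Multiset.le_iff_exists_add.1 hZR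
  have hZsum : ∑ z ∈ Z, |Real.log ‖z‖| ≤ 2 * lm f := by
    refine le_trans ?_ htot
    rw [hR', Multiset.map_add, Multiset.sum_add]
    have h1 : 0 ≤ (R'.map (fun a => |Real.log ‖a‖|)).sum := by
      refine Multiset.sum_nonneg fun x hx => ?_
      obtain ⟨y, _, rfl⟩ := Multiset.mem_map.1 hx
      exact abs_nonneg _
    have h2 : ∑ z ∈ Z, |Real.log ‖z‖| = (Z.val.map (fun a => |Real.log ‖a‖|)).sum := rfl
    linarith
  calc (Z.card : ℝ) * Real.log p = ∑ _z ∈ Z, Real.log p := by
        rw [Finset.sum_const, nsmul_eq_mul]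
    _ ≤ ∑ z ∈ Z, (n : ℝ) * |Real.log ‖z‖| := Finset.sum_le_sum fun z hz =>
        deg_bound p (hZ z hz).2.1 (hne z (hZ z hz).1) (hZ z hz).2.2
    _ = n * ∑ z ∈ Z, |Real.log ‖z‖| := by rw [Finset.mul_sum]
    _ ≤ n * (2 * lm f) := mul_le_mul_of_nonneg_left hZsum (Nat.cast_nonneg n)
    _ = 2 * n * lm f := by ring

end Pool.Agent.H420R4
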