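import Mathlib
import Pool.Agent.H420R4.ML.Stubs

/-!
T6: most roots of a polynomial of small Mahler measure are close to the unit circle in absolute
value.
-/

set_option autoImplicit false

namespace Pool.Agent.H420R4

open Polynomial Real

private theorem t6_log_prod (m : Multiset ℂ) (h : ∀ z ∈ m, z ≠ 0) :
    Real.log ‖m.prod‖ = (m.map (fun z => Real.log ‖z‖)).sum := by
  induction m using Multiset.induction with
  | empty => simp
  | cons a m ih =>
    have h1 : a ≠ 0 := h a (Multiset.mem_cons_self a m)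
    have h2 : ∀ z ∈ m, z ≠ 0 := fun z hz => h z (Multiset.mem_cons_of_mem hz)
    have h3 : m.prod ≠ 0 := by
      rw [Ne, Multiset.prod_eq_zero_iff]
      intro h0
      exact h2 0 h0 rfl
    rw [Multiset.prod_cons, norm_mul, Real.log_mul (norm_ne_zero_iff.2 h1) (norm_ne_zero_iff.2 h3),
      Multiset.map_cons, Multiset.sum_cons, ih h2]

private theorem t6_int (a : ℤ) (ha : a ≠ 0) : 0 ≤ Real.log ‖((a : ℤ) : ℂ)‖ := by
  refine Real.log_nonneg ?_
  rw [Complex.norm_intCast]
  exact_mod_cast Int.one_le_abs ha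

theorem t6 : St_T6 := by
  intro f S hf0 hS
  set g := f.map (Int.castRingHom ℂ) with hg
  have hinj : Function.Injective (Int.castRingHom ℂ) := Int.cast_injective
  have hg0 : g.coeff 0 ≠ 0 := by
    rw [hg, coeff_map]
    intro h
    exact hf0 (hinj (by rw [h, map_zero]))
  have hgne : g ≠ 0 := by
    intro h
    rw [h, coeff_zero] at hg0
    exact hg0 rfl
  have hfne : f ≠ 0 := by
    intro h
    rw [h, coeff_zero] at hf0
    exact hf0 rfl
  have hroot : ∀ z ∈ g.roots, z ≠ 0 := by
    intro z hz h0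
    rw [mem_roots hgne, IsRoot.def, h0, ← coeff_zero_eq_eval_zero] at hz
    exact hg0 hz
  have hSsub : S.val ≤ g.roots := by
    rw [Multiset.le_iff_subset S.nodup]
    intro z hz
    rw [mem_roots hgne, IsRoot.def]
    have h1 := hS z hz
    rw [aeval_def, eval₂_eq_eval_map] at h1
    exact h1
  -- the sum over `S` is at most the sum over all roots
  have h1 : ∑ z ∈ S, |Real.log ‖z‖| ≤ (g.roots.map (fun z => |Real.log ‖z‖|)).sum := by
    obtain ⟨t, ht⟩ := Multiset.le_iff_exists_add.1 hSsub
    rw [ht, Multiset.map_add, Multiset.sum_add]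
    have h2 : 0 ≤ (t.map (fun z : ℂ => |Real.log ‖z‖|)).sum := by
      refine Multiset.sum_nonneg fun x hx => ?_
      obtain ⟨z, _, rfl⟩ := Multiset.mem_map.1 hx
      exact abs_nonneg _
    have h3 : ∑ z ∈ S, |Real.log ‖z‖| = (S.val.map (fun z => |Real.log ‖z‖|)).sum := rfl
    rw [h3]
    linarith
  have h2 : (g.roots.map (fun z => |Real.log ‖z‖|)).sum =
      2 * (g.roots.map (fun z => log⁺ ‖z‖)).sum - (g.roots.map (fun z => Real.log ‖z‖)).sum := by
    rw [← Multiset.sum_map_mul_left, ← Multiset.sum_map_sub]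
    refine congrArg Multiset.sum (Multiset.map_congr rfl fun z _ => ?_)
    rw [← Real.half_mul_log_add_log_abs]
    ring
  have h3 : lm f = Real.log ‖g.leadingCoeff‖ + (g.roots.map (fun z => log⁺ ‖z‖)).sum := by
    unfold lm
    rw [← hg, ← logMahlerMeasure_eq_log_MahlerMeasure,
      logMahlerMeasure_eq_log_leadingCoeff_add_sum_log_roots]
  have h4 : Real.log ‖g.coeff 0‖ =
      Real.log ‖g.leadingCoeff‖ + (g.roots.map (fun z => Real.log ‖z‖)).sum := by
    have h5 := (IsAlgClosed.splits g).coeff_zero_eq_leadingCoeff_mul_prod_roots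
    rw [h5, norm_mul, norm_mul, norm_pow, norm_neg, norm_one, one_pow, one_mul,
      Real.log_mul, t6_log_prod _ hroot]
    · exact norm_ne_zero_iff.2 (leadingCoeff_ne_zero.2 hgne)
    · rw [norm_ne_zero_iff, Ne, Multiset.prod_eq_zero_iff]
      intro h0
      exact hroot 0 h0 rfl
  have h5 : 0 ≤ Real.log ‖g.coeff 0‖ := by
    rw [hg, coeff_map]
    exact t6_int _ hf0
  have h6 : 0 ≤ Real.log ‖g.leadingCoeff‖ := by
    rw [hg, leadingCoeff_map_of_injective hinj]
    exact t6_int _ (leadingCoeff_ne_zero.2 hfne)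
  linarith

end Pool.Agent.H420R4
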