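import Mathlib
import Pool.Agent.H420R4.ML.Fej
import Pool.Agent.H420R4.ML.T2a
import Pool.Agent.H420R4.ML.T2c
import Pool.Agent.H420R4.ML.T6

/-!
The bound `log M(f) ≥ c N ^ 2 / (D log (2 D / N))`.
-/

set_option autoImplicit false

namespace Pool.Agent.H420R4

open Polynomial Real GA

noncomputable section

lemma final_arith2 (E : ℕ) (hE : 1 ≤ E) (κ : ℝ) (hκ : 0 < κ) (hκ1 : κ ≤ 1) :
    ∃ c : ℝ, 0 < c ∧ ∀ (D N : ℕ) (m M : ℝ), 1 ≤ D → N ≤ D → 0 ≤ m → m ≤ M →
      (∀ X : ℕ, 2 ≤ X → κ * N / X ≤ M ∨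
        κ * N * X ≤ D * Real.log X + 2 * E * (X : ℝ) ^ 2 * m) →
      c * ((N : ℝ) ^ 2 / D * (1 / Real.log (2 * D / N))) ≤ M := by
  obtain ⟨K, hK1, hK⟩ : ∃ K : ℝ, 1 ≤ K ∧ 2 * (3 + 2 * Real.log (K + 3)) ≤ κ * K / 2 := by
    refine ⟨(1000 / κ) ^ 2, ?_, ?_⟩
    · have : 1 ≤ 1000 / κ := by rw [le_div_iff₀ hκ]; linarith
      nlinarith
    · set y := 1000 / κ with hy
      have hy1 : 1000 ≤ y := by rw [hy, le_div_iff₀ hκ]; nlinarith
      have h1 : Real.log (y ^ 2 + 3) ≤ 2 * y := by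
        have h2 : y ^ 2 + 3 ≤ (2 * y) ^ 2 := by nlinarith
        have h3 := Real.log_le_log (by positivity) h2
        rw [Real.log_pow] at h3
        have h5 : Real.log (2 * y) ≤ y := by
          have h6 : Real.log (2 * y) = Real.log 2 + Real.log y := by
            rw [Real.log_mul (by norm_num) (by positivity)]
          have h7 : Real.log y ≤ y - 1 := Real.log_le_sub_one_of_pos (by positivity)
          have h8 : Real.log 2 ≤ 1 := by
            have := Real.log_two_lt_d9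
            linarith
          linarith
        push_cast at h3
        linarith
      have h2 : κ * y = 1000 := by rw [hy]; field_simp
      have h3 : κ * y ^ 2 = 1000 * y := by rw [pow_two, ← mul_assoc, h2]
      rw [h3]
      linarith
  refine ⟨κ / (4 * E * (K + 6)), by positivity, ?_⟩
  intro D N m M hD hND hm hmM hX
  have hE' : (1 : ℝ) ≤ E := by exact_mod_cast hE
  have hD' : (1 : ℝ) ≤ D := by exact_mod_cast hD
  have hND' : (N : ℝ) ≤ D := by exact_mod_cast hND
  rcases Nat.eq_zero_or_pos N with rfl | hN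
  · simp
    linarith
  have hN' : (1 : ℝ) ≤ N := by exact_mod_cast hN
  set t : ℝ := D / N with ht
  have ht1 : 1 ≤ t := by rw [ht, one_le_div (by positivity)]; exact hND'
  have htN : t * N = D := by rw [ht]; field_simp
  have hlog2 : 1 / 2 ≤ Real.log 2 := by
    have := Real.log_two_gt_d9
    linarith
  have h2t : 2 * (D : ℝ) / N = 2 * t := by rw [ht]; ring
  rw [h2t]
  have hlogD : Real.log 2 ≤ Real.log (2 * t) := Real.log_le_log (by norm_num) (by linarith)
  set ℓ := Real.log (2 * t) with hℓ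
  have hℓpos : 1 / 2 ≤ ℓ := by linarith
  have htl : 1 / 2 ≤ t * ℓ := by nlinarith
  set X : ℕ := ⌈K * (t * ℓ)⌉₊ + 2 with hXdef
  have hX2 : 2 ≤ X := by omega
  have hX2' : (2 : ℝ) ≤ X := by exact_mod_cast hX2
  have hXlow : K * (t * ℓ) ≤ X := by
    have := Nat.le_ceil (K * (t * ℓ))
    have h2 : ((⌈K * (t * ℓ)⌉₊ : ℕ) : ℝ) ≤ X := by exact_mod_cast (by omega)
    linarith
  have hXup : (X : ℝ) ≤ K * (t * ℓ) + 3 := by
    have := Nat.ceil_lt_add_one (show 0 ≤ K * (t * ℓ) by positivity)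
    rw [hXdef]
    push_cast
    linarith
  have hlogX : Real.log X ≤ (3 + 2 * Real.log (K + 3)) * ℓ := by
    have h1 : (X : ℝ) ≤ (K + 3) * (2 * t) ^ 3 := by
      have h3 : ℓ ≤ 2 * t := by
        have := Real.log_le_sub_one_of_pos (show (0 : ℝ) < 2 * t by positivity)
        linarith
      have h4 : K * (t * ℓ) ≤ K * (t * (2 * t)) := by gcongr
      have h6 : (1 : ℝ) ≤ t ^ 3 := one_le_pow₀ ht1
      have h7 : t ^ 2 ≤ t ^ 3 := pow_le_pow_right₀ ht1 (by norm_num)
      have h8 : (K + 3) * (2 * t) ^ 3 = 8 * K * t ^ 3 + 24 * t ^ 3 := by ring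
      have h9 : K * (t * (2 * t)) = 2 * K * t ^ 2 := by ring
      have h10 : 2 * K * t ^ 2 ≤ 2 * K * t ^ 3 := by gcongr
      have h11 : 0 ≤ K * t ^ 3 := by positivity
      rw [h8]
      linarith
    have h2 := Real.log_le_log (by positivity) h1
    rw [Real.log_mul (x := K + 3) (by positivity) (by positivity), Real.log_pow] at h2
    have h3 : 0 ≤ Real.log (K + 3) := Real.log_nonneg (by linarith)
    have h4 : Real.log (K + 3) ≤ 2 * Real.log (K + 3) * ℓ := by nlinarith
    push_cast at h2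
    rw [← hℓ] at h2
    linarith
  have hmain : κ * N / (4 * E * X) ≤ M := by
    rcases hX X hX2 with h | h
    · refine le_trans ?_ h
      apply div_le_div_of_nonneg_left (by positivity) (by positivity)
      nlinarith
    · have h1 : D * Real.log X ≤ κ * N * X / 2 := by
        have h2 : 2 * (3 + 2 * Real.log (K + 3)) * ℓ ≤ κ * K / 2 * ℓ :=
          mul_le_mul_of_nonneg_right hK (by linarith)
        have h3 : D * Real.log X ≤ D * (κ * K / 4 * ℓ) := by
          apply mul_le_mul_of_nonneg_left _ (by positivity)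
          linarith
        have h4 : D * (κ * K / 4 * ℓ) = κ * N * (K * (t * ℓ)) / 4 := by
          rw [← htN]; ring
        have h5 : κ * N * (K * (t * ℓ)) ≤ κ * N * X := by gcongr
        have h6 : 0 ≤ κ * N * X := by positivity
        linarith
      have h2 : κ * N * X / 2 ≤ 2 * E * (X : ℝ) ^ 2 * m := by linarith
      have h3 : κ * N / (4 * E * X) ≤ m := by
        rw [div_le_iff₀ (by positivity)]
        have h4 : κ * N * X ≤ m * (4 * E * X) * X := by
          have : m * (4 * E * X) * X = 2 * (2 * E * (X : ℝ) ^ 2 * m) := by ring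
          linarith
        exact le_of_mul_le_mul_right h4 (by positivity)
      linarith
  refine le_trans ?_ hmain
  have hXup2 : (X : ℝ) ≤ (K + 6) * (t * ℓ) := by nlinarith
  have h1 : κ / (4 * E * (K + 6)) * ((N : ℝ) ^ 2 / D * (1 / ℓ)) =
      κ * N / (4 * E * ((K + 6) * (t * ℓ))) := by
    rw [← htN]
    field_simp
  rw [h1]
  apply div_le_div_of_nonneg_left (by positivity) (by positivity)
  gcongr

/-- the general upper bound for the sum of the energies -/
lemma sum_VE_upper {f : ℤ[X]} (hf : Irreducible f) (h0 : f.coeff 0 ≠ 0) (hm : 0 < lm f)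
    (hD : 0 < f.natDegree) (E X : ℕ) (hE : 1 ≤ E) (hX : 1 ≤ X) (S : Finset ℂ) (hS : S ⊆ crts f)
    (b : ℝ) (hSb : ∀ z ∈ S, VE (z ^ E) X ≤ b) :
    ∑ z ∈ crts f, VE (z ^ E) X ≤ S.card * b + f.natDegree * (X * Real.log X) +
      (X : ℝ) ^ 3 * E * lm f := by
  classical
  have hf0 := hf.ne_zero
  have hsep := irr_sep hf hD
  have hlX : 0 ≤ Real.log (X : ℝ) := Real.log_nonneg (by exact_mod_cast hX)
  have h1 : ∀ z ∈ crts f, VE (z ^ E) X ≤
      (if z ∈ S then b else 0) + (X * Real.log X + (X : ℝ) ^ 3 * E * Real.posLog ‖z‖) := by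
    intro z hz
    have hnn : 0 ≤ X * Real.log X + (X : ℝ) ^ 3 * E * Real.posLog ‖z‖ := by
      have := Real.posLog_nonneg (x := ‖z‖)
      positivity
    split_ifs with h
    · linarith [hSb z h]
    · rw [zero_add]
      have hz' := (mem_crts hf0 z).mp hz
      have h2 := VE_upper (z ^ E) X (pow_ne_zero _ (root_ne_zero h0 hz')) (fun k hk => by
        rw [← pow_mul]
        exact not_unity hf h0 hm hz' (Nat.mul_pos (by omega) (by omega)))
      rw [norm_pow, Real.posLog_pow] at h2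
      linarith
  refine (Finset.sum_le_sum h1).trans ?_
  rw [Finset.sum_add_distrib, Finset.sum_add_distrib, ← Finset.sum_filter, Finset.sum_const,
    Finset.sum_const, nsmul_eq_mul, nsmul_eq_mul, ← Finset.mul_sum, card_crts hsep]
  have h2 : (crts f).filter (fun z => z ∈ S) = S := by
    ext z
    simp only [Finset.mem_filter]
    exact ⟨fun h => h.2, fun h => ⟨hS h, h⟩⟩
  rw [h2]
  have h3 : ∑ z ∈ crts f, Real.posLog ‖z‖ ≤ lm f := by
    rw [lm_eq hsep]
    linarith [lc_log_nonneg hf0]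
  have h4 : (X : ℝ) ^ 3 * E * ∑ z ∈ crts f, Real.posLog ‖z‖ ≤ (X : ℝ) ^ 3 * E * lm f :=
    mul_le_mul_of_nonneg_left h3 (by positivity)
  linarith

lemma fej_arch (f : ℤ[X]) (hf : Irreducible f) (h0 : f.coeff 0 ≠ 0) (hm : 0 < lm f)
    (hD : 0 < f.natDegree) (E : ℕ) (hE : 1 ≤ E) (θ : ℝ) (hθ : 0 ≤ θ) (S : Finset ℂ)
    (hS : ∀ z ∈ S, aeval z f = 0 ∧ |Complex.arg (z ^ E)| ≤ θ) (X : ℕ) (hX : 2 ≤ X) :
    1 / (48 * (E : ℝ)) * S.card / X ≤ lm f + S.card * θ ∨
    1 / (48 * (E : ℝ)) * S.card * X ≤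
      f.natDegree * Real.log X + 2 * E * (X : ℝ) ^ 2 * lm f := by
  classical
  set D := f.natDegree with hDdef
  set N := S.card with hN
  set m := lm f with hmdef
  have hf0 : f ≠ 0 := hf.ne_zero
  have hX' : (2 : ℝ) ≤ X := by exact_mod_cast hX
  have hD' : (1 : ℝ) ≤ D := by exact_mod_cast hD
  have hE' : (1 : ℝ) ≤ E := by exact_mod_cast hE
  rcases Nat.eq_zero_or_pos N with hN0 | hNpos
  · left
    have : (N : ℝ) = 0 := by exact_mod_cast hN0
    rw [this]
    simp
    exact hm.le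
  have hN' : (1 : ℝ) ≤ N := by exact_mod_cast hNpos
  set S' := S.filter (fun z => |Real.log ‖z‖| ≤ 4 * m / N) with hS'
  have hgood : N ≤ 2 * S'.card := by
    have h1 := t6 f S h0 (fun z hz => (hS z hz).1)
    have h2 : ((S.filter (fun z => ¬ |Real.log ‖z‖| ≤ 4 * m / N)).card : ℝ) * (4 * m / N) ≤
        2 * m := by
      refine le_trans ?_ h1
      rw [← nsmul_eq_mul]
      refine (Finset.card_nsmul_le_sum _ _ _ ?_).trans
        (Finset.sum_le_sum_of_subset_of_nonneg (Finset.filter_subset _ _)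
          (fun _ _ _ => abs_nonneg _))
      intro z hz
      exact (not_le.mp (Finset.mem_filter.mp hz).2).le
    have h3 : (2 : ℝ) * (S.filter (fun z => ¬ |Real.log ‖z‖| ≤ 4 * m / N)).card ≤ N := by
      have h4 : ((S.filter (fun z => ¬ |Real.log ‖z‖| ≤ 4 * m / N)).card : ℝ) * (4 * m / N) =
        (2 * (S.filter (fun z => ¬ |Real.log ‖z‖| ≤ 4 * m / N)).card) * (2 * m) / N := by ring
      rw [h4, div_le_iff₀ (by linarith)] at h2
      have : (2 * ((S.filter (fun z => ¬ |Real.log ‖z‖| ≤ 4 * m / N)).card : ℝ)) * (2 * m) ≤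
        N * (2 * m) := by linarith
      exact le_of_mul_le_mul_right this (by positivity)
    have h5 : 2 * (S.filter (fun z => ¬ |Real.log ‖z‖| ≤ 4 * m / N)).card ≤ N := by
      exact_mod_cast h3
    have h6 : S'.card + (S.filter (fun z => ¬ |Real.log ‖z‖| ≤ 4 * m / N)).card = N :=
      Finset.card_filter_add_card_filter_not (s := S) (fun z => |Real.log ‖z‖| ≤ 4 * m / N)
    omega
  set η := E * (4 * m / N) + θ with hη
  have hηpos : 0 < η := by positivity
  set δ := X * η with hδ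
  have hδpos : 0 < δ := by positivity
  by_cases hcase : δ ≤ 1 / 12
  swap
  · left
    push Not at hcase
    have h2 : δ * N = X * (4 * E * m + N * θ) := by
      rw [hδ, hη]
      field_simp
    have h3 : 1 / 12 * (N : ℝ) < X * (4 * E * m + N * θ) := by
      rw [← h2]
      exact mul_lt_mul_of_pos_right hcase (by linarith)
    have h4 : X * (4 * E * m + N * θ) ≤ X * (4 * E * (m + N * θ)) := by
      apply mul_le_mul_of_nonneg_left _ (by positivity)
      have h41 : 0 ≤ N * θ := by positivity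
      have h42 : 1 * (N * θ) ≤ (4 * E) * (N * θ) := mul_le_mul_of_nonneg_right (by linarith) h41
      linarith
    have h5 : 1 / (48 * (E : ℝ)) * N / X = N / (48 * E * X) := by field_simp
    rw [h5, div_le_iff₀ (by positivity)]
    have h6 : (m + N * θ) * (48 * E * X) = 12 * (X * (4 * E * (m + N * θ))) := by ring
    linarith
  right
  have hS'sub : S' ⊆ crts f := fun z hz =>
    (mem_crts hf0 z).mpr (hS z (Finset.mem_filter.mp hz).1).1
  have hVE : ∀ z ∈ S', VE (z ^ E) X ≤ -((X : ℝ) * (X - 1) / 2) := by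
    intro z hz
    obtain ⟨hzS, hzlog⟩ := Finset.mem_filter.mp hz
    obtain ⟨hz1, hz2⟩ := hS z hzS
    have hz0 : z ≠ 0 := root_ne_zero h0 hz1
    have hc0 : z ^ E ≠ 0 := pow_ne_zero _ hz0
    have hcl : ‖Complex.log (z ^ E)‖ ≤ η := by
      have h1 : Complex.log (z ^ E) = (Real.log ‖z ^ E‖ : ℂ) + Complex.arg (z ^ E) * Complex.I :=
        rfl
      rw [h1]
      refine (norm_add_le _ _).trans ?_
      rw [norm_mul, Complex.norm_I, mul_one, Complex.norm_real, Complex.norm_real, norm_pow,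
        Real.log_pow, Real.norm_eq_abs, Real.norm_eq_abs, abs_mul, abs_of_nonneg
        (show (0 : ℝ) ≤ (E : ℝ) by positivity), hη]
      gcongr
    have hnear : ∀ j : ℕ, j < X → ‖(z ^ E) ^ j - 1‖ ≤ 2 * δ := by
      intro j hj
      have h1 : (z ^ E) ^ j = Complex.exp (j * Complex.log (z ^ E)) := by
        rw [Complex.exp_nat_mul, Complex.exp_log hc0]
      have h2 : ‖(j : ℂ) * Complex.log (z ^ E)‖ ≤ δ := by
        rw [norm_mul, Complex.norm_natCast, hδ]
        have : (j : ℝ) ≤ X := by exact_mod_cast hj.le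
        gcongr
      rw [h1]
      refine (Complex.norm_exp_sub_one_le (h2.trans (by linarith))).trans ?_
      linarith
    have h1 := VE_upper_close (z ^ E) X (1 / 3) hc0 (fun k hk => by
        rw [← pow_mul]
        exact not_unity hf h0 hm hz1 (Nat.mul_pos (by omega) (by omega)))
      (fun i j hi hj => by
        have h1 : (z ^ E) ^ j - (z ^ E) ^ i = ((z ^ E) ^ j - 1) - ((z ^ E) ^ i - 1) := by ring
        rw [h1]
        refine (norm_sub_le _ _).trans ?_
        linarith [hnear i hi, hnear j hj])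
    have h2 : Real.log (1 / 3) ≤ -1 := by
      rw [one_div, Real.log_inv, neg_le_neg_iff, Real.le_log_iff_exp_le (by norm_num)]
      exact Real.exp_one_lt_d9.le.trans (by norm_num)
    have h3 : (0 : ℝ) ≤ X * (X - 1) / 2 := by
      have : (0 : ℝ) ≤ X - 1 := by linarith
      positivity
    have h4 : (X : ℝ) * (X - 1) / 2 * Real.log (1 / 3) ≤ X * (X - 1) / 2 * (-1) :=
      mul_le_mul_of_nonneg_left h2 h3
    linarith
  have hXX : (0 : ℝ) ≤ X * (X - 1) / 2 := by
    have : (0 : ℝ) ≤ X - 1 := by linarith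
    positivity
  have hup := sum_VE_upper hf h0 hm hD E X hE (by omega) S' hS'sub (-((X : ℝ) * (X - 1) / 2)) hVE
  have : Fact (Nat.Prime 2) := ⟨Nat.prime_two⟩
  have hlow := VE_sum_lower 2 f hf h0 hm hD E X hE ∅ (by simp) (by simp)
  simp only [Finset.card_empty, Nat.cast_zero, mul_zero, zero_mul, zero_sub] at hlow
  have h1 := hlow.trans hup
  have hEXm : (X : ℝ) * (X - 1) / 2 * (E * X * m) ≤ (X : ℝ) ^ 3 * E * m := by
    have h2 : (X : ℝ) * (X - 1) / 2 ≤ X ^ 2 := by nlinarith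
    calc (X : ℝ) * (X - 1) / 2 * (E * X * m) ≤ X ^ 2 * (E * X * m) :=
          mul_le_mul_of_nonneg_right h2 (by positivity)
      _ = (X : ℝ) ^ 3 * E * m := by ring
  have h2 : (S'.card : ℝ) * (X * (X - 1) / 2) ≤ X * (D * Real.log X + 2 * E * (X : ℝ) ^ 2 * m) := by
    have e1 : (X : ℝ) * (D * Real.log X + 2 * E * (X : ℝ) ^ 2 * m) =
      D * (X * Real.log X) + 2 * ((X : ℝ) ^ 3 * E * m) := by ring
    rw [e1]
    have e2 : (X : ℝ) * (X - 1) / 2 * -(↑E * ↑X * lm f) = -((X : ℝ) * (X - 1) / 2 * (E * X * m)) := by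
      rw [← hmdef]; ring
    rw [e2] at h1
    have e3 : (S'.card : ℝ) * -(X * (X - 1) / 2) = -(S'.card * (X * (X - 1) / 2)) := by ring
    rw [e3] at h1
    rw [← hmdef, ← hDdef] at h1
    linarith
  have hgood' : (N : ℝ) ≤ 2 * S'.card := by exact_mod_cast hgood
  have h3 : (N : ℝ) / 8 * X * X ≤ S'.card * (X * (X - 1) / 2) := by
    have e1 : (N : ℝ) / 8 * X * X ≤ (2 * S'.card) / 8 * X * X := by gcongr
    have e2 : (2 * (S'.card : ℝ)) / 8 * X * X = S'.card * (X * (X / 2) / 2) := by ring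
    rw [e2] at e1
    refine e1.trans ?_
    apply mul_le_mul_of_nonneg_left _ (by positivity)
    have : (X : ℝ) * (X / 2) ≤ X * (X - 1) := mul_le_mul_of_nonneg_left (by linarith) (by linarith)
    linarith
  have h4 : (N : ℝ) / 8 * X ≤ D * Real.log X + 2 * E * (X : ℝ) ^ 2 * m := by
    have h5 : (N : ℝ) / 8 * X * X ≤ (D * Real.log X + 2 * E * (X : ℝ) ^ 2 * m) * X := by linarith
    exact le_of_mul_le_mul_right h5 (by linarith)
  refine le_trans ?_ h4
  have h5 : 1 / (48 * (E : ℝ)) ≤ 1 / 8 := by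
    apply one_div_le_one_div_of_le (by norm_num)
    linarith
  have h6 : 1 / (48 * (E : ℝ)) * N * X ≤ 1 / 8 * N * X := by gcongr
  linarith

lemma fej_padic (p : ℕ) [Fact p.Prime] (n E : ℕ) (hE : 1 ≤ E)
    (hEp : ∀ z : PadicAlgCl p, (minpoly ℚ_[p] z).natDegree ≤ n → ‖z‖ = 1 →
      ‖z ^ E - 1‖ ≤ (p : ℝ) ^ (-2 : ℤ)) (f : ℤ[X])
    (hf : Irreducible f) (h0 : f.coeff 0 ≠ 0) (hm : 0 < lm f) (hD : 0 < f.natDegree)
    (S : Finset (PadicAlgCl p))
    (hS : ∀ z ∈ S, aeval z f = 0 ∧ (minpoly ℚ_[p] z).natDegree ≤ n) (X : ℕ) (hX : 2 ≤ X) :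
    1 / (8 * ((n : ℝ) + 1)) * S.card / X ≤ lm f ∨
    1 / (8 * ((n : ℝ) + 1)) * S.card * X ≤
      f.natDegree * Real.log X + 2 * E * (X : ℝ) ^ 2 * lm f := by
  classical
  set D := f.natDegree with hDdef
  set N := S.card with hN
  set m := lm f with hmdef
  have hf0 : f ≠ 0 := hf.ne_zero
  have hX' : (2 : ℝ) ≤ X := by exact_mod_cast hX
  have hD' : (1 : ℝ) ≤ D := by exact_mod_cast hD
  have hE' : (1 : ℝ) ≤ E := by exact_mod_cast hE
  have hp2 : (2 : ℝ) ≤ p := by exact_mod_cast (Fact.out : p.Prime).two_le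
  have hlogp : 1 / 2 ≤ Real.log p := by
    have h1 := Real.log_two_gt_d9
    have h2 := Real.log_le_log (by norm_num) hp2
    linarith
  set Z := S.filter (fun z => ¬ ‖z‖ = 1) with hZ
  set S' := S.filter (fun z => ‖z‖ = 1) with hS'
  have hsum : S'.card + Z.card = N :=
    Finset.card_filter_add_card_filter_not (s := S) (fun z => ‖z‖ = 1)
  have hZm := t2c p n f Z h0 (fun z hz => ⟨(hS z (Finset.mem_filter.mp hz).1).1,
    (hS z (Finset.mem_filter.mp hz).1).2, (Finset.mem_filter.mp hz).2⟩)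
  rcases Nat.lt_or_ge N (2 * Z.card) with hcase | hcase
  · left
    have hcase' : (N : ℝ) ≤ 2 * Z.card := by exact_mod_cast hcase.le
    have h1 : (Z.card : ℝ) * (1 / 2) ≤ 2 * n * m :=
      (mul_le_mul_of_nonneg_left hlogp (by positivity)).trans hZm
    have h2 : (N : ℝ) ≤ 8 * n * m := by linarith
    have h4 : 1 / (8 * ((n : ℝ) + 1)) * N / X = N / (8 * (n + 1) * X) := by field_simp
    rw [h4, div_le_iff₀ (by positivity)]
    refine h2.trans ?_
    have h6 : m * (8 * (n + 1)) * 1 ≤ m * (8 * (n + 1)) * X :=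
      mul_le_mul_of_nonneg_left (by linarith) (by positivity)
    linarith
  right
  have hgood : N ≤ 2 * S'.card := by omega
  have hpz1 : (p : ℝ) ^ (-2 : ℤ) ≤ 1 := by
    rw [zpow_neg]
    apply inv_le_one_of_one_le₀
    have : (1 : ℝ) ≤ (p : ℝ) ^ 2 := one_le_pow₀ (by linarith)
    exact_mod_cast this
  have hclose : ∀ c ∈ S', ∀ j : ℕ, 1 ≤ j → ‖c ^ (E * j) - 1‖ ≤ (p : ℝ) ^ (-2 : ℤ) := by
    intro c hc j _
    obtain ⟨hcS, hc1⟩ := Finset.mem_filter.mp hc
    have h1 : c ^ (E * j) - 1 = (∑ i ∈ Finset.range j, (c ^ E) ^ i) * (c ^ E - 1) := by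
      rw [geom_sum_mul, pow_mul]
    rw [h1, norm_mul]
    have h2 : ‖∑ i ∈ Finset.range j, (c ^ E) ^ i‖ ≤ 1 := by
      apply IsUltrametricDist.norm_sum_le_of_forall_le_of_nonneg zero_le_one
      intro i _
      rw [norm_pow, norm_pow, hc1, one_pow, one_pow]
    calc ‖∑ i ∈ Finset.range j, (c ^ E) ^ i‖ * ‖c ^ E - 1‖ ≤ 1 * (p : ℝ) ^ (-2 : ℤ) :=
          mul_le_mul h2 (hEp c (hS c hcS).2 hc1) (norm_nonneg _) zero_le_one
      _ = _ := one_mul _
  have hlow := VE_sum_lower p f hf h0 hm hD E X hE S'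
    (fun c hc => (hS c (Finset.mem_filter.mp hc).1).1) hclose
  have hup := sum_VE_upper hf h0 hm hD E X hE (by omega) ∅ (by simp) 0 (by simp)
  simp only [Finset.card_empty, Nat.cast_zero, zero_mul, zero_add] at hup
  have h1 := hlow.trans hup
  rw [← hmdef, ← hDdef] at h1
  have hXX : (0 : ℝ) ≤ X * (X - 1) / 2 := by
    have : (0 : ℝ) ≤ X - 1 := by linarith
    positivity
  have hEXm : (X : ℝ) * (X - 1) / 2 * (E * X * m) ≤ (X : ℝ) ^ 3 * E * m := by
    have h2 : (X : ℝ) * (X - 1) / 2 ≤ X ^ 2 := by nlinarith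
    calc (X : ℝ) * (X - 1) / 2 * (E * X * m) ≤ X ^ 2 * (E * X * m) :=
          mul_le_mul_of_nonneg_right h2 (by positivity)
      _ = (X : ℝ) ^ 3 * E * m := by ring
  have h2 : (S'.card : ℝ) * (X * (X - 1) / 2) ≤ X * (D * Real.log X + 2 * E * (X : ℝ) ^ 2 * m) := by
    have e1 : (X : ℝ) * (D * Real.log X + 2 * E * (X : ℝ) ^ 2 * m) =
      D * (X * Real.log X) + 2 * ((X : ℝ) ^ 3 * E * m) := by ring
    rw [e1]
    have e2 : (X : ℝ) * (X - 1) / 2 * (2 * S'.card * 1 / 2) ≤
        (X : ℝ) * (X - 1) / 2 * (2 * S'.card * Real.log p) := by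
      apply mul_le_mul_of_nonneg_left _ hXX
      have : 2 * (S'.card : ℝ) * (1 / 2) ≤ 2 * (S'.card : ℝ) * Real.log p :=
        mul_le_mul_of_nonneg_left hlogp (by positivity)
      linarith
    rw [mul_sub] at h1
    linarith
  have hgood' : (N : ℝ) ≤ 2 * S'.card := by exact_mod_cast hgood
  have h3 : (N : ℝ) / 8 * X * X ≤ S'.card * (X * (X - 1) / 2) := by
    have e1 : (N : ℝ) / 8 * X * X ≤ (2 * S'.card) / 8 * X * X := by gcongr
    have e2 : (2 * (S'.card : ℝ)) / 8 * X * X = S'.card * (X * (X / 2) / 2) := by ring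
    rw [e2] at e1
    refine e1.trans ?_
    apply mul_le_mul_of_nonneg_left _ (by positivity)
    have : (X : ℝ) * (X / 2) ≤ X * (X - 1) := mul_le_mul_of_nonneg_left (by linarith) (by linarith)
    linarith
  have h4 : (N : ℝ) / 8 * X ≤ D * Real.log X + 2 * E * (X : ℝ) ^ 2 * m := by
    have h5 : (N : ℝ) / 8 * X * X ≤ (D * Real.log X + 2 * E * (X : ℝ) ^ 2 * m) * X := by linarith
    exact le_of_mul_le_mul_right h5 (by linarith)
  refine le_trans ?_ h4
  have h5 : 1 / (8 * ((n : ℝ) + 1)) ≤ 1 / 8 := by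
    apply one_div_le_one_div_of_le (by norm_num)
    have : (0 : ℝ) ≤ n := by positivity
    linarith
  have h6 : 1 / (8 * ((n : ℝ) + 1)) * N * X ≤ 1 / 8 * N * X := by gcongr
  linarith

end

end Pool.Agent.H420R4
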