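import Mathlib
import Pool.Agent.H420R4.ML.Stubs
import Pool.Agent.H420R4.ML.Arch

/-!
The p-adic step.
-/

set_option autoImplicit false

namespace Pool.Agent.H420R4

open Polynomial Real

noncomputable section

lemma padic_num (N n1 E X D T : ℕ) (m L en lc σs lp : ℝ)
    (hn1 : 1 ≤ n1) (hX : 2 ≤ X) (hE : 1 ≤ E) (hT : T ≤ X * D) (hT1 : 1 ≤ T)
    (hD : 1 ≤ D) (hN : N ≤ 2 * E * n1) (hm : 0 ≤ m) (hL : L ≤ E * (X : ℝ) ^ 2 * m)
    (hlp : 1 / 2 ≤ lp)
    (hE1 : ((X * n1 : ℕ) : ℝ) * (((X * n1 : ℕ) : ℝ) - 1) * (2 * lp) ≤ 2 * T * lc + en)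
    (hE2 : en ≤ 2 * T * Real.log T + 2 * T * σs) (hLm : L = lc + σs) :
    X * ((N : ℝ) ^ 2 / D) / (16 * (E : ℝ) ^ 2) ≤
      2 * Real.log (X * D) + 2 * E * (X : ℝ) ^ 2 * m := by
  have hX' : (2 : ℝ) ≤ X := by exact_mod_cast hX
  have hn1' : (1 : ℝ) ≤ n1 := by exact_mod_cast hn1
  have hTpos : (1 : ℝ) ≤ T := by exact_mod_cast hT1
  apply finish N n1 E X D T m L hX hE hT hT1 hD hN hm hL
  generalize hn : ((X * n1 : ℕ) : ℝ) = n at hE1 ⊢
  have hn' : n = X * n1 := by rw [← hn]; push_cast; ring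
  have hn2 : 2 ≤ n := by
    rw [hn']
    calc (2 : ℝ) = 2 * 1 := by norm_num
      _ ≤ X * n1 := mul_le_mul hX' hn1' (by norm_num) (by positivity)
  have hn0 : 0 < n := by linarith
  have h0 : 0 ≤ n * (n - 1) := mul_nonneg hn0.le (by linarith)
  have h1 : n * (n - 1) * 1 ≤ n * (n - 1) * (2 * lp) :=
    mul_le_mul_of_nonneg_left (by linarith) h0
  have h2 : n * 2 ≤ n * n := mul_le_mul_of_nonneg_left hn2 (by linarith)
  have h3 : n * (n - 1) = n ^ 2 - n := by ring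
  have h4 : n * n = n ^ 2 := by ring
  have h5 : (2 : ℝ) * T * L = 2 * T * lc + 2 * T * σs := by rw [hLm]; ring
  rw [h5]
  linarith

lemma padic_step (t1 : St_T1) (t2b : St_T2b) (t2c : St_T2c) (t3 : St_T3) (t4 : St_T4)
    (t5 : St_T5) (p : ℕ) [Fact p.Prime] (n E : ℕ) (hE : 1 ≤ E)
    (hEp : ∀ z : PadicAlgCl p, (minpoly ℚ_[p] z).natDegree ≤ n → ‖z‖ = 1 →
      ‖z ^ E - 1‖ ≤ (p : ℝ) ^ (-2 : ℤ)) (f : ℤ[X])
    (hf : Irreducible f) (h0 : f.coeff 0 ≠ 0) (hm : 0 < lm f) (hD : 0 < f.natDegree)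
    (S : Finset (PadicAlgCl p))
    (hS : ∀ z ∈ S, aeval z f = 0 ∧ (minpoly ℚ_[p] z).natDegree ≤ n) (X : ℕ) (hX : 2 ≤ X) :
    1 / (16 * (n + 1) * (E : ℝ) ^ 2) * ((S.card : ℝ) ^ 2 / f.natDegree) / X ≤ lm f ∨
    1 / (16 * (n + 1) * (E : ℝ) ^ 2) * X * ((S.card : ℝ) ^ 2 / f.natDegree) ≤
      2 * Real.log (X * f.natDegree) + 2 * E * (X : ℝ) ^ 2 * lm f := by
  classical
  set D := f.natDegree with hDdef
  set N := S.card with hN
  set m := lm f with hmdef
  have hf0 : f ≠ 0 := hf.ne_zero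
  have hX' : (2 : ℝ) ≤ X := by exact_mod_cast hX
  have hD' : (1 : ℝ) ≤ D := by exact_mod_cast hD
  have hE' : (1 : ℝ) ≤ E := by exact_mod_cast hE
  have hp2 : (2 : ℝ) ≤ p := by exact_mod_cast (Fact.out : p.Prime).two_le
  have hlogp : 1 / 2 ≤ Real.log p := by
    have h1 := Real.log_two_gt_d9
    have h2 := Real.log_le_log (by norm_num) hp2
    linarith
  have hND : N ≤ D := by
    have h1 : S ⊆ (f.map (algebraMap ℤ (PadicAlgCl p))).roots.toFinset := by
      intro z hz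
      rw [Multiset.mem_toFinset, mem_roots, IsRoot.def, eval_map, ← aeval_def]
      · exact (hS z hz).1
      · rwa [Ne, Polynomial.map_eq_zero_iff (RingHom.injective_int _)]
    refine (Finset.card_le_card h1).trans ?_
    refine (Multiset.toFinset_card_le _).trans ((card_roots' _).trans ?_)
    exact natDegree_map_le
  have hND' : (N : ℝ) ≤ D := by exact_mod_cast hND
  rcases Nat.eq_zero_or_pos N with hN0 | hNpos
  · right
    have : (N : ℝ) = 0 := by exact_mod_cast hN0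
    rw [this]
    have h1 : 0 ≤ Real.log (X * D) := Real.log_nonneg (by nlinarith)
    have h2 : 0 ≤ 2 * E * (X : ℝ) ^ 2 * m := by positivity
    have h3 : 1 / (16 * (n + 1) * (E : ℝ) ^ 2) * X * ((0 : ℝ) ^ 2 / D) = 0 := by simp
    rw [h3]
    linarith
  have hN' : (1 : ℝ) ≤ N := by exact_mod_cast hNpos
  set Z := S.filter (fun z => ¬ ‖z‖ = 1) with hZ
  set S' := S.filter (fun z => ‖z‖ = 1) with hS'
  have hsum : S'.card + Z.card = N :=
    Finset.card_filter_add_card_filter_not (s := S) (fun z => ‖z‖ = 1)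
  have hZm := t2c p n f Z h0 (fun z hz => ⟨(hS z (Finset.mem_filter.mp hz).1).1,
    (hS z (Finset.mem_filter.mp hz).1).2, (Finset.mem_filter.mp hz).2⟩)
  rcases Nat.lt_or_ge N (2 * Z.card) with hcase | hcase
  · left
    have hcase' : (N : ℝ) ≤ 2 * Z.card := by exact_mod_cast hcase.le
    have h1 : (Z.card : ℝ) * (1 / 2) ≤ 2 * n * m :=
      (mul_le_mul_of_nonneg_left hlogp (by positivity)).trans hZm
    have h2 : (N : ℝ) ≤ 8 * n * m := by linarith
    have h3 : (N : ℝ) ^ 2 / D ≤ N := by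
      rw [div_le_iff₀ (by positivity), pow_two]
      exact mul_le_mul_of_nonneg_left hND' (by positivity)
    have h4 : 1 / (16 * (n + 1) * (E : ℝ) ^ 2) * ((N : ℝ) ^ 2 / D) / X =
        ((N : ℝ) ^ 2 / D) / (16 * (n + 1) * (E : ℝ) ^ 2 * X) := by
      field_simp
    rw [h4, div_le_iff₀ (by positivity)]
    refine (h3.trans h2).trans ?_
    have h5 : 1 ≤ (E : ℝ) ^ 2 * X := by
      have : 1 ≤ (E : ℝ) ^ 2 := one_le_pow₀ hE'
      calc (1 : ℝ) = 1 * 1 := by norm_num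
        _ ≤ (E : ℝ) ^ 2 * X := mul_le_mul this (by linarith) (by norm_num) (by positivity)
    have h6 : m * (16 * (n + 1)) * 1 ≤ m * (16 * (n + 1)) * ((E : ℝ) ^ 2 * X) :=
      mul_le_mul_of_nonneg_left h5 (by positivity)
    have h7 : 8 * (n : ℝ) * m ≤ m * (16 * (n + 1)) := by
      have : 0 ≤ (n : ℝ) * m := by positivity
      nlinarith
    calc 8 * (n : ℝ) * m ≤ m * (16 * (n + 1)) * 1 := by linarith
      _ ≤ m * (16 * (n + 1)) * ((E : ℝ) ^ 2 * X) := h6
      _ = m * (16 * (n + 1) * (E : ℝ) ^ 2 * X) := by ring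
  right
  have hgood : N ≤ 2 * S'.card := by omega
  set C1 := S'.image (fun z => z ^ E) with hC1
  set n1 := C1.card with hn1
  have hS'n : S'.card ≤ E * n1 := card_le_pow_image S' E hE
  have hNn : N ≤ 2 * E * n1 := by
    have : 2 * S'.card ≤ 2 * (E * n1) := Nat.mul_le_mul_left 2 hS'n
    linarith
  have hn1pos : 1 ≤ n1 := by
    by_contra h
    have : n1 = 0 := by omega
    rw [this] at hNn
    omega
  have hCnear : ∀ c ∈ C1, ‖c - 1‖ ≤ (p : ℝ) ^ (-2 : ℤ) := by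
    intro c hc
    obtain ⟨z, hz, rfl⟩ := Finset.mem_image.mp hc
    obtain ⟨hzS, hz1⟩ := Finset.mem_filter.mp hz
    exact hEp z (hS z hzS).2 hz1
  have hpz1 : (p : ℝ) ^ (-2 : ℤ) ≤ 1 := by
    rw [zpow_neg]
    apply inv_le_one_of_one_le₀
    have : (1 : ℝ) ≤ (p : ℝ) ^ 2 := one_le_pow₀ (by linarith)
    exact_mod_cast this
  have hnorm1 : ∀ c ∈ C1, ‖c‖ ≤ 1 := by
    intro c hc
    have h1 : c = (c - 1) + 1 := by ring
    rw [h1]
    refine (IsUltrametricDist.norm_add_le_max _ _).trans ?_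
    rw [norm_one]
    exact max_le ((hCnear c hc).trans hpz1) le_rfl
  set C := (C1 ×ˢ Finset.Icc 1 X).image (fun q => q.1 ^ q.2) with hC
  have hCcard : C.card = X * n1 := by
    rw [hC, Finset.card_image_of_injOn, Finset.card_product, Nat.card_Icc]
    · simp [mul_comm, hn1]
    · rintro ⟨c, j⟩ hq ⟨c', j'⟩ hq' heq
      simp only [Finset.coe_product, Set.mem_prod, Finset.mem_coe] at hq hq'
      obtain ⟨hc, hj⟩ := hq
      obtain ⟨hc', hj'⟩ := hq'
      simp only at heq hc hj hc' hj'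
      have hjj : j = j' := by
        by_contra hne
        obtain ⟨z, hz, rfl⟩ := Finset.mem_image.mp hc
        obtain ⟨z', hz', rfl⟩ := Finset.mem_image.mp hc'
        have h1 := t4 (PadicAlgCl p) f hf h0 z z' (E * j) (E * j')
          (hS z (Finset.mem_filter.mp hz).1).1
          (hS z' (Finset.mem_filter.mp hz').1).1
          (by
            intro h
            exact hne (Nat.eq_of_mul_eq_mul_left (by omega) h))
          (Nat.mul_pos (by omega) (by have := (Finset.mem_Icc.mp hj).1; omega))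
          (Nat.mul_pos (by omega) (by have := (Finset.mem_Icc.mp hj').1; omega))
          (by rw [pow_mul, pow_mul]; exact heq)
        exact hm.ne' h1
      subst hjj
      have h9 : c = c' := t2b p c c' j (hCnear c hc) (hCnear c' hc') (Finset.mem_Icc.mp hj).1 heq
      rw [h9]
  obtain ⟨G, hsep, hGpos, hGdeg, hGm, -, hGroot⟩ := t3 f hf hD E X hE (by omega)
  set W := crts G with hW
  set T := G.natDegree with hT
  have hWT : W.card = T := card_crts hsep
  have hCroot : ∀ c ∈ C, aeval c G = 0 := by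
    intro w hw
    obtain ⟨⟨c, j⟩, hq, rfl⟩ := Finset.mem_image.mp hw
    obtain ⟨hc, hj⟩ := Finset.mem_product.mp hq
    obtain ⟨z, hz, hzc⟩ := Finset.mem_image.mp hc
    simp only at hzc hj ⊢
    rw [← hzc, ← pow_mul]
    exact hGroot p z (hS z (Finset.mem_filter.mp hz).1).1 j hj
  have hnear : ∀ w ∈ C, ‖w - 1‖ ≤ (p : ℝ) ^ (-2 : ℤ) := by
    intro w hw
    obtain ⟨⟨c, j⟩, hq, rfl⟩ := Finset.mem_image.mp hw
    obtain ⟨hc, hj⟩ := Finset.mem_product.mp hq
    simp only at hc hj ⊢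
    have h1 : c ^ j - 1 = (∑ i ∈ Finset.range j, c ^ i) * (c - 1) := (geom_sum_mul c j).symm
    rw [h1, norm_mul]
    have h2 : ‖∑ i ∈ Finset.range j, c ^ i‖ ≤ 1 := by
      apply IsUltrametricDist.norm_sum_le_of_forall_le_of_nonneg zero_le_one
      intro i _
      rw [norm_pow]
      exact pow_le_one₀ (norm_nonneg _) (hnorm1 c hc)
    calc ‖∑ i ∈ Finset.range j, c ^ i‖ * ‖c - 1‖ ≤ 1 * (p : ℝ) ^ (-2 : ℤ) :=
          mul_le_mul h2 (hCnear c hc) (norm_nonneg _) zero_le_one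
      _ = _ := one_mul _
  have hpair : ∀ z ∈ C, ∀ w ∈ C, ‖z - w‖ ≤ (p : ℝ) ^ (-2 : ℤ) := by
    intro z hz w hw
    have h1 : z - w = (z - 1) - (w - 1) := by ring
    rw [h1]
    rw [sub_eq_add_neg]
    refine (IsUltrametricDist.norm_add_le_max _ _).trans ?_
    rw [norm_neg]
    exact max_le (hnear z hz) (hnear w hw)
  have hE1 := t5 p G C hsep hGpos hCroot hpair
  have hE2 := t1 W ∅ 1 1 (by simp) one_pos le_rfl (by simp) (by simp)
  simp only [Finset.card_empty, Nat.cast_zero, zero_mul, mul_zero, Real.log_one, add_zero] at hE2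
  rw [hWT] at hE2
  rw [hCcard] at hE1
  have hlmG := lm_eq hsep
  rw [← hW] at hlmG hE1
  have hfin := padic_num N n1 E X D T m (lm G) (energy W) (Real.log |(G.leadingCoeff : ℝ)|)
    (∑ z ∈ W, Real.posLog ‖z‖) (Real.log p) hn1pos hX hE hGdeg hGpos hD hNn hm.le hGm hlogp
    hE1 hE2 hlmG
  refine le_trans ?_ hfin
  have h1 : 1 / (16 * (n + 1) * (E : ℝ) ^ 2) * X * ((N : ℝ) ^ 2 / D) =
      X * ((N : ℝ) ^ 2 / D) / (16 * (n + 1) * (E : ℝ) ^ 2) := by field_simp
  rw [h1]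
  apply div_le_div_of_nonneg_left (by positivity) (by positivity)
  have h2 : (0 : ℝ) ≤ (E : ℝ) ^ 2 := by positivity
  have h3 : (0 : ℝ) ≤ n * (E : ℝ) ^ 2 := by positivity
  nlinarith

end

end Pool.Agent.H420R4
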