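import Mathlib
import Pool.Agent.H420R4.ML.Stubs

set_option autoImplicit false

namespace Pool.Agent.H420R4

open Polynomial Real

namespace T2b

variable {p : ℕ} [Fact p.Prime]

lemma norm_sum_le' {ι : Type*} (s : Finset ι) (f : ι → PadicAlgCl p) (C : ℝ) (hC : 0 ≤ C)
    (h : ∀ i ∈ s, ‖f i‖ ≤ C) : ‖∑ i ∈ s, f i‖ ≤ C :=
  IsUltrametricDist.norm_sum_le_of_forall_le_of_nonneg hC h

/-- powers of elements of norm at most one -/
lemma norm_pow_sub_one_le (z : PadicAlgCl p) (hz : ‖z‖ ≤ 1) (m : ℕ) :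
    ‖z ^ m - 1‖ ≤ ‖z - 1‖ := by
  have h : z ^ m - 1 = (∑ i ∈ Finset.range m, z ^ i) * (z - 1) := (geom_sum_mul z m).symm
  rw [h, norm_mul]
  have h1 : ‖∑ i ∈ Finset.range m, z ^ i‖ ≤ 1 := by
    apply norm_sum_le' _ _ _ zero_le_one
    intro i _
    rw [norm_pow]
    exact pow_le_one₀ (norm_nonneg _) hz
  calc ‖∑ i ∈ Finset.range m, z ^ i‖ * ‖z - 1‖ ≤ 1 * ‖z - 1‖ :=
        mul_le_mul_of_nonneg_right h1 (norm_nonneg _)
    _ = ‖z - 1‖ := one_mul _

lemma norm_eq_one_of_close (c : PadicAlgCl p) (h : ‖c - 1‖ ≤ (p : ℝ) ^ (-2 : ℤ)) : ‖c‖ = 1 := by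
  have hp : (1 : ℝ) < p := by exact_mod_cast (Fact.out : p.Prime).one_lt
  have h2 : (p : ℝ) ^ (-2 : ℤ) < 1 := by
    rw [zpow_neg]
    apply inv_lt_one_of_one_lt₀
    exact one_lt_zpow₀ hp (by norm_num)
  have h3 : ‖c - 1‖ < ‖(1 : PadicAlgCl p)‖ := by rw [norm_one]; linarith
  have h4 : c = (c - 1) + 1 := by ring
  rw [h4, IsUltrametricDist.norm_add_eq_max_of_norm_ne_norm h3.ne, max_eq_right h3.le, norm_one]

lemma norm_prime_gt (q : ℕ) (hq : q.Prime) : (p : ℝ) ^ (-2 : ℤ) < ‖(q : PadicAlgCl p)‖ := by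
  have hp : (1 : ℝ) < p := by exact_mod_cast (Fact.out : p.Prime).one_lt
  have h1 : ‖(q : PadicAlgCl p)‖ = ‖(q : ℚ_[p])‖ := by
    have := PadicAlgCl.norm_extends p (q : ℚ_[p])
    rw [← this]
    congr 1
  rw [h1]
  by_cases hqp : q = p
  · subst hqp
    rw [Padic.norm_p, zpow_neg]
    apply inv_strictAnti₀
    · linarith
    · have : (q : ℝ) ^ (2 : ℤ) = q * q := by
        rw [zpow_ofNat]; ring
      rw [this]
      nlinarith
  · have : ‖(q : ℚ_[p])‖ = 1 := by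
      rw [Padic.norm_natCast_eq_one_iff]
      exact (Nat.coprime_primes Fact.out hq).2 (Ne.symm hqp)
    rw [this, zpow_neg]
    apply inv_lt_one_of_one_lt₀
    exact one_lt_zpow₀ hp (by norm_num)

end T2b

open T2b in
theorem t2b : St_T2b := by
  intro p _ c c' j hc hc' hj h
  have hn' := norm_eq_one_of_close c' hc'
  have hn := norm_eq_one_of_close c hc
  have hc'0 : c' ≠ 0 := by
    intro h0; rw [h0, norm_zero] at hn'; exact zero_ne_one hn'
  set u : PadicAlgCl p := c / c' with hu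
  have huj : u ^ j = 1 := by
    rw [hu, div_pow, h, div_self (pow_ne_zero _ hc'0)]
  have hun : ‖u‖ = 1 := by rw [hu, norm_div, hn, hn', div_one]
  have hu1 : ‖u - 1‖ ≤ (p : ℝ) ^ (-2 : ℤ) := by
    have e : u - 1 = (c - c') / c' := by rw [hu]; field_simp
    rw [e, norm_div, hn', div_one]
    have e2 : c - c' = (c - 1) + (-(c' - 1)) := by ring
    rw [e2]
    refine (IsUltrametricDist.norm_add_le_max _ _).trans (max_le hc ?_)
    rw [norm_neg]
    exact hc'
  by_contra hne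
  have hu_ne : u ≠ 1 := by
    intro h1
    apply hne
    rw [hu, div_eq_one_iff_eq hc'0] at h1
    exact h1
  have hfin : IsOfFinOrder u := isOfFinOrder_iff_pow_eq_one.2 ⟨j, hj, huj⟩
  have hm : 0 < orderOf u := hfin.orderOf_pos
  have hm1 : orderOf u ≠ 1 := by
    intro h1; exact hu_ne (orderOf_eq_one_iff.1 h1)
  set q := (orderOf u).minFac with hq
  have hqp : q.Prime := Nat.minFac_prime hm1
  have hqd : q ∣ orderOf u := Nat.minFac_dvd _
  set v := u ^ (orderOf u / q) with hv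
  have hvq : v ^ q = 1 := by
    rw [hv, ← pow_mul, Nat.div_mul_cancel hqd, pow_orderOf_eq_one]
  have hv1 : v ≠ 1 := by
    intro h1
    have hdvd := orderOf_dvd_of_pow_eq_one h1
    have h2 := Nat.le_of_dvd (Nat.div_pos (Nat.le_of_dvd hm hqd) hqp.pos) hdvd
    have h3 := Nat.div_lt_self hm hqp.one_lt
    omega
  have hvn : ‖v‖ = 1 := by rw [hv, norm_pow, hun, one_pow]
  have hvc : ‖v - 1‖ ≤ (p : ℝ) ^ (-2 : ℤ) :=
    (norm_pow_sub_one_le u hun.le _).trans hu1
  have hsum : ∑ i ∈ Finset.range q, v ^ i = 0 := by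
    have := geom_sum_mul v q
    rw [hvq, sub_self] at this
    rcases mul_eq_zero.1 this with h | h
    · exact h
    · exact absurd (sub_eq_zero.1 h) hv1
  have hq2 : (q : PadicAlgCl p) = - ∑ i ∈ Finset.range q, (v ^ i - 1) := by
    rw [Finset.sum_sub_distrib, hsum]
    simp
  have hqn : ‖(q : PadicAlgCl p)‖ ≤ (p : ℝ) ^ (-2 : ℤ) := by
    rw [hq2, norm_neg]
    apply norm_sum_le' _ _ _ (zpow_nonneg (Nat.cast_nonneg _) _)
    intro i _
    exact (norm_pow_sub_one_le v hvn.le i).trans hvc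
  exact absurd hqn (not_le.2 (norm_prime_gt q hqp))

end Pool.Agent.H420R4
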