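import Mathlib
import Pool.Agent.H420R4.ML.Stubs
import Pool.Agent.H420R4.ML.Gauss

/-! T3: a separable integer polynomial vanishing at all the powers `z ^ (E * j)`. -/

set_option autoImplicit false

namespace Pool.Agent.H420R4

open Polynomial Real GA

namespace T3aux

/-! ### Squarefree over `ℤ` implies separable over `ℚ` -/

theorem squarefree_map {G : ℤ[X]} (hG0 : G ≠ 0) (hG : Squarefree G) :
    Squarefree (G.map (Int.castRingHom ℚ)) := by
  intro q hq
  have hGQ : G.map (Int.castRingHom ℚ) ≠ 0 := (Polynomial.map_ne_zero_iff inj).2 hG0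
  have hq0 : q ≠ 0 := by
    rintro rfl
    rw [zero_mul, zero_dvd_iff] at hq
    exact hGQ hq
  set q1 := IsLocalization.integerNormalization (nonZeroDivisors ℤ) q with hq1
  obtain ⟨b, hb0, hb⟩ := IsLocalization.integerNormalization_spec (nonZeroDivisors ℤ) q
  have hb0' : (b : ℚ) ≠ 0 := by
    exact_mod_cast nonZeroDivisors.ne_zero hb0
  have h1 : q1.primPart.map (Int.castRingHom ℚ) ∣ q := by
    have h2 : q1.primPart.map (Int.castRingHom ℚ) ∣ q1.map (Int.castRingHom ℚ) :=
      Polynomial.map_dvd _ (primPart_dvd q1)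
    have h3 : q1.map (Int.castRingHom ℚ) = C (b : ℚ) * q := by
      have : q1.map (Int.castRingHom ℚ) = b • q := hb
      rw [this, zsmul_eq_mul]
      simp
    rw [h3] at h2
    have hu : IsUnit (C (b : ℚ)) := isUnit_C.2 (isUnit_iff_ne_zero.2 hb0')
    exact (hu.dvd_mul_left).1 h2
  have h4 : (q1.primPart * q1.primPart).map (Int.castRingHom ℚ) ∣ G.map (Int.castRingHom ℚ) := by
    rw [Polynomial.map_mul]
    exact (mul_dvd_mul h1 h1).trans hq
  have hprim : (q1.primPart * q1.primPart).IsPrimitive :=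
    q1.isPrimitive_primPart.mul q1.isPrimitive_primPart
  have h5 : q1.primPart * q1.primPart ∣ G :=
    (IsPrimitive.Int.dvd_iff_map_cast_dvd_map_cast _ _ hprim).2 h4
  exact isUnit_or_eq_zero_of_isUnit_integerNormalization_primPart hq0 (hG _ h5)

/-! ### The polynomial whose roots are the `k`-th powers of the roots of `f` -/

/-- `Res_Y(f(Y), X - Y^k)` -/
noncomputable def PP (f : ℤ[X]) (k : ℕ) : ℤ[X] :=
  resultant (f.map (C : ℤ →+* ℤ[X])) (C X - X ^ k) f.natDegree k

variable {A : Type*} [Field A] [CharZero A] [IsAlgClosed A]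

theorem PP_map (f : ℤ[X]) (k : ℕ) : (PP f k).map (Int.castRingHom A) =
    C ((f.leadingCoeff : A) ^ k) *
      ((f.map (Int.castRingHom A)).roots.map (fun a => X - C (a ^ k))).prod := by
  set fA := f.map (Int.castRingHom A) with hfA
  have h1 : (PP f k).map (Int.castRingHom A) =
      mapRingHom (Int.castRingHom A) (PP f k) := rfl
  rw [h1, PP, ← resultant_map_map]
  have h2 : (f.map (C : ℤ →+* ℤ[X])).map (mapRingHom (Int.castRingHom A)) = fA.map C := by
    rw [Polynomial.map_map, hfA, Polynomial.map_map]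
    congr 1
    exact RingHom.ext_int _ _
  have h3 : (C X - X ^ k : ℤ[X][X]).map (mapRingHom (Int.castRingHom A)) = C X - X ^ k := by
    simp
  rw [h2, h3]
  have hC : Function.Injective (C : A →+* A[X]) := C_injective
  have h4 : (fA.map C).natDegree = f.natDegree := by
    rw [natDegree_map_eq_of_injective hC, natDegree_map']
  have hspl : fA.Splits := IsAlgClosed.splits fA
  have h5 : (C X - X ^ k : A[X][X]).natDegree ≤ k := by
    refine (natDegree_sub_le _ _).trans (max_le ?_ ?_)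
    · simp
    · exact natDegree_X_pow_le k
  rw [← h4, resultant_eq_prod_eval _ _ k h5 (hspl.map _), leadingCoeff_map_of_injective hC,
    hspl.roots_map, Multiset.map_map, hfA, lc_map, C_pow]
  congr 2
  refine Multiset.map_congr rfl fun a _ => ?_
  simp

attribute [local irreducible] PP

theorem PP_ne_zero {f : ℤ[X]} (hf : f ≠ 0) (k : ℕ) : PP f k ≠ 0 := by
  intro h
  have h1 := PP_map (A := ℂ) f k
  rw [h, Polynomial.map_zero] at h1
  have h2 : C ((f.leadingCoeff : ℂ) ^ k) *
      ((f.map (Int.castRingHom ℂ)).roots.map (fun a => X - C (a ^ k))).prod ≠ 0 := by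
    refine mul_ne_zero ?_ ?_
    · rw [Ne, C_eq_zero]
      refine pow_ne_zero _ ?_
      exact_mod_cast leadingCoeff_ne_zero.2 hf
    · refine Multiset.prod_ne_zero ?_
      intro h0
      obtain ⟨a, _, ha⟩ := Multiset.mem_map.1 h0
      exact X_sub_C_ne_zero _ ha
  exact h2 h1.symm

theorem PP_natDegree {f : ℤ[X]} (hf : f ≠ 0) (k : ℕ) : (PP f k).natDegree = f.natDegree := by
  have h1 : ((f.map (Int.castRingHom ℂ)).roots.map (fun a => X - C (a ^ k))) =
      ((f.map (Int.castRingHom ℂ)).roots.map (fun a => a ^ k)).map (fun a => X - C a) := by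
    rw [Multiset.map_map]
    rfl
  rw [← natDegree_map' (A := ℂ) (PP f k), PP_map (A := ℂ) f k, natDegree_C_mul, h1,
    natDegree_multiset_prod_X_sub_C_eq_card, Multiset.card_map, H420R4.GA.card_roots']
  refine pow_ne_zero _ ?_
  exact_mod_cast leadingCoeff_ne_zero.2 hf

theorem PP_root {f : ℤ[X]} (hf : f ≠ 0) (k : ℕ) {z : A} (hz : aeval z f = 0) :
    aeval (z ^ k) (PP f k) = 0 := by
  have h1 : aeval (z ^ k) (PP f k) = eval (z ^ k) ((PP f k).map (Int.castRingHom A)) := by
    rw [eval_map, aeval_def]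
    rfl
  rw [h1, PP_map, eval_mul]
  have h2 : z ∈ (f.map (Int.castRingHom A)).roots := (mem_roots'' hf z).2 hz
  obtain ⟨s, hs⟩ := Multiset.exists_cons_of_mem h2
  rw [hs, Multiset.map_cons, Multiset.prod_cons, eval_mul]
  simp

theorem PP_lm (f : ℤ[X]) (k : ℕ) : lm (PP f k) = k * lm f := by
  unfold lm
  rw [PP_map (A := ℂ) f k, mahlerMeasure_mul, mahlerMeasure_const,
    prod_mahlerMeasure_eq_mahlerMeasure_prod, Multiset.map_map]
  have h1 : (f.map (Int.castRingHom ℂ)).mahlerMeasure = ‖(f.leadingCoeff : ℂ)‖ *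
      ((f.map (Int.castRingHom ℂ)).roots.map (fun a => max 1 ‖a‖)).prod := by
    rw [mahlerMeasure_eq_leadingCoeff_mul_prod_roots, lc_map]
  rw [h1, ← Real.log_pow, mul_pow, norm_pow, ← Multiset.prod_map_pow]
  congr 3
  refine Multiset.map_congr rfl fun a _ => ?_
  simp only [Function.comp_apply, mahlerMeasure_X_sub_C, norm_pow]
  rcases le_total 1 ‖a‖ with h | h
  · rw [max_eq_right h, max_eq_right (one_le_pow₀ h)]
  · rw [max_eq_left h, max_eq_left (pow_le_one₀ (norm_nonneg a) h), one_pow]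

/-! ### Mahler measures of integer polynomials -/

theorem lm_nonneg {f : ℤ[X]} (hf : f ≠ 0) : 0 ≤ lm f := by
  unfold lm
  apply Real.log_nonneg
  apply one_le_mahlerMeasure_of_one_le_norm_leadingCoeff
  rw [lc_map, Complex.norm_intCast]
  have := Int.one_le_abs (leadingCoeff_ne_zero.2 hf)
  exact_mod_cast this

theorem lm_mul {f g : ℤ[X]} (hf : f ≠ 0) (hg : g ≠ 0) : lm (f * g) = lm f + lm g := by
  unfold lm
  rw [Polynomial.map_mul, mahlerMeasure_mul, Real.log_mul]
  · exact (mahlerMeasure_pos_of_ne_zero ((Polynomial.map_ne_zero_iff inj).2 hf)).ne'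
  · exact (mahlerMeasure_pos_of_ne_zero ((Polynomial.map_ne_zero_iff inj).2 hg)).ne'

theorem lm_le_of_dvd {f g : ℤ[X]} (hg : g ≠ 0) (h : f ∣ g) : lm f ≤ lm g := by
  obtain ⟨c, rfl⟩ := h
  have hf : f ≠ 0 := left_ne_zero_of_mul hg
  have hc : c ≠ 0 := right_ne_zero_of_mul hg
  rw [lm_mul hf hc]
  linarith [lm_nonneg hc]

theorem lm_prod (s : Finset ℕ) (F : ℕ → ℤ[X]) (hF : ∀ j, F j ≠ 0) :
    lm (∏ j ∈ s, F j) = ∑ j ∈ s, lm (F j) := by
  classical
  induction s using Finset.induction_on with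
  | empty => simp [lm]
  | insert a s ha ih =>
    rw [Finset.prod_insert ha, Finset.sum_insert ha,
      lm_mul (hF a) (Finset.prod_ne_zero_iff.2 fun j _ => hF j), ih]

end T3aux

open T3aux

theorem t3 : St_T3 := by
  intro f hirr hdeg E N hE hN
  have hf : f ≠ 0 := hirr.ne_zero
  set Q := ∏ j ∈ Finset.Icc 1 N, PP f (E * j) with hQ
  have hQ0 : Q ≠ 0 := Finset.prod_ne_zero_iff.2 fun j _ => PP_ne_zero hf _
  obtain ⟨G, m, hsq, hdvd, hpow⟩ := exists_squarefree_dvd_pow_of_ne_zero hQ0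
  have hG0 : G ≠ 0 := by
    rintro rfl
    exact hQ0 (zero_dvd_iff.1 hdvd)
  have hroot : ∀ (A : Type) [Field A] [CharZero A] [IsAlgClosed A] (z : A), aeval z f = 0 →
      ∀ j ∈ Finset.Icc 1 N, aeval (z ^ (E * j)) G = 0 := by
    intro A _ _ _ z hz j hj
    have h1 : aeval (z ^ (E * j)) (PP f (E * j)) = 0 := PP_root hf _ hz
    have h2' : PP f (E * j) ∣ Q := Finset.dvd_prod_of_mem (fun j => PP f (E * j)) hj
    have h2 : PP f (E * j) ∣ G ^ m := h2'.trans hpow
    obtain ⟨c, hc⟩ := h2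
    have h3 : aeval (z ^ (E * j)) (G ^ m) = 0 := by
      rw [hc, map_mul, h1, zero_mul]
    rw [map_pow] at h3
    exact eq_zero_of_pow_eq_zero h3
  refine ⟨G, ?_, ?_, ?_, ?_, fun z hz => hroot ℂ z hz, fun p hp z hz => hroot (PadicAlgCl p) z hz⟩
  · exact PerfectField.separable_iff_squarefree.2 (squarefree_map hG0 hsq)
  · -- positive degree
    by_contra h0
    have h1 : G.natDegree = 0 := by omega
    obtain ⟨z, hz⟩ : ∃ z : ℂ, z ∈ (f.map (Int.castRingHom ℂ)).roots := by
      have : 0 < (f.map (Int.castRingHom ℂ)).roots.card := by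
        rw [H420R4.GA.card_roots']
        exact hdeg
      exact Multiset.card_pos_iff_exists_mem.1 this
    have h2 := hroot ℂ z ((mem_roots'' hf z).1 hz) 1 (Finset.mem_Icc.2 ⟨le_refl 1, hN⟩)
    rw [eq_C_of_natDegree_eq_zero h1, aeval_C] at h2
    have h3 : G.coeff 0 = 0 := by
      have : ((G.coeff 0 : ℤ) : ℂ) = 0 := h2
      exact_mod_cast this
    apply hG0
    rw [eq_C_of_natDegree_eq_zero h1, h3, C_0]
  · have h1 := natDegree_le_of_dvd hdvd hQ0
    have h2 : Q.natDegree = N * f.natDegree := by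
      rw [hQ, natDegree_prod _ _ (fun j _ => PP_ne_zero hf _)]
      rw [Finset.sum_congr rfl (fun j _ => PP_natDegree hf (E * j)), Finset.sum_const,
        Nat.card_Icc, smul_eq_mul]
      simp
    omega
  · have h1 := lm_le_of_dvd hQ0 hdvd
    have h2 : lm Q = ∑ j ∈ Finset.Icc 1 N, ((E * j : ℕ) : ℝ) * lm f := by
      rw [hQ, lm_prod _ _ (fun j => PP_ne_zero hf _)]
      exact Finset.sum_congr rfl fun j _ => PP_lm f _
    have h3 : ∑ j ∈ Finset.Icc 1 N, ((E * j : ℕ) : ℝ) * lm f ≤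
        ∑ _j ∈ Finset.Icc 1 N, ((E * N : ℕ) : ℝ) * lm f := by
      refine Finset.sum_le_sum fun j hj => ?_
      refine mul_le_mul_of_nonneg_right ?_ (lm_nonneg hf)
      have := (Finset.mem_Icc.1 hj).2
      exact_mod_cast Nat.mul_le_mul_left E this
    rw [Finset.sum_const, Nat.card_Icc, nsmul_eq_mul] at h3
    refine h1.trans (h2.le.trans (h3.trans (le_of_eq ?_)))
    push_cast [Nat.add_sub_cancel]
    ring

end Pool.Agent.H420R4
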