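import Mathlib
import Pool.Agent.H420R4.ML.Stubs
import Pool.Agent.H420R4.ML.Arith
import Pool.Agent.H420R4.ML.Arch
import Pool.Agent.H420R4.ML.Padic
import Pool.Agent.H420R4.ML.T1
import Pool.Agent.H420R4.ML.T2a
import Pool.Agent.H420R4.ML.T2b
import Pool.Agent.H420R4.ML.T2c
import Pool.Agent.H420R4.ML.T3
import Pool.Agent.H420R4.ML.T4
import Pool.Agent.H420R4.ML.T5
import Pool.Agent.H420R4.ML.T6

/-!
Assembly: lower bounds for Mahler measures of irreducible integer polynomials with many real,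
sectorial or p-adic zeros.
-/

set_option autoImplicit false

namespace Pool.Agent.H420R4

open Polynomial Real

noncomputable section

lemma one_le_M {f : ℤ[X]} (hf : f ≠ 0) : 1 ≤ (f.map (Int.castRingHom ℂ)).mahlerMeasure := by
  apply one_le_mahlerMeasure_of_one_le_norm_leadingCoeff
  rw [leadingCoeff_map_of_injective (RingHom.injective_int _)]
  have h1 : (f.leadingCoeff : ℤ) ≠ 0 := leadingCoeff_ne_zero.mpr hf
  have h2 : (1 : ℤ) ≤ |f.leadingCoeff| := Int.one_le_abs h1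
  have h3 : (1 : ℝ) ≤ |(f.leadingCoeff : ℝ)| := by exact_mod_cast h2
  simpa using h3

lemma lm_pos {f : ℤ[X]} (hf : f ≠ 0) (hM : (f.map (Int.castRingHom ℂ)).mahlerMeasure ≠ 1) :
    0 < lm f := by
  apply Real.log_pos
  exact lt_of_le_of_ne (one_le_M hf) (Ne.symm hM)

lemma coeff_zero_ne {f : ℤ[X]} (hf : Irreducible f)
    (hM : (f.map (Int.castRingHom ℂ)).mahlerMeasure ≠ 1) : f.coeff 0 ≠ 0 := by
  intro h0
  apply hM
  have h1 : X ∣ f := X_dvd_iff.mpr h0
  obtain ⟨g, hg⟩ := h1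
  have h2 : IsUnit g := by
    rcases hf.isUnit_or_isUnit hg with h | h
    · exact absurd h not_isUnit_X
    · exact h
  obtain ⟨u, hu, rfl⟩ := Polynomial.isUnit_iff.mp h2
  rw [hg, Polynomial.map_mul, map_X, map_C, mahlerMeasure_mul, mahlerMeasure_const]
  have h3 : (X : ℂ[X]).mahlerMeasure = 1 := by
    have := mahlerMeasure_X_sub_C 0
    simpa using this
  rw [h3]
  rcases Int.isUnit_iff.mp hu with h | h <;> simp [h]

lemma A_alt (N D : ℕ) (hD : 1 ≤ D) :
    (N : ℝ) ^ 2 / D = 0 ∨ 1 / (D : ℝ) ≤ (N : ℝ) ^ 2 / D := by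
  rcases Nat.eq_zero_or_pos N with h | h
  · left; simp [h]
  · right
    have : (1 : ℝ) ≤ N := by exact_mod_cast h
    apply div_le_div_of_nonneg_right _ (by positivity)
    exact one_le_pow₀ this

lemma no_roots {A : Type*} [Field A] [CharZero A] {f : ℤ[X]} (hf : f ≠ 0)
    (hD : f.natDegree = 0) (S : Finset A) (hS : ∀ z ∈ S, aeval z f = 0) : S = ∅ := by
  rw [Finset.eq_empty_iff_forall_notMem]
  intro z hz
  have h1 := hS z hz
  rw [eq_C_of_natDegree_eq_zero hD, aeval_C] at h1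
  apply hf
  rw [eq_C_of_natDegree_eq_zero hD]
  have h2 : f.coeff 0 = 0 := by
    have h3 : ((f.coeff 0 : ℤ) : A) = 0 := by simpa using h1
    exact_mod_cast h3
  rw [h2, C_0]

theorem main_arch (E : ℕ) (hE : 1 ≤ E) : ∃ c : ℝ, 0 < c ∧ ∀ f : ℤ[X], Irreducible f →
    (f.map (Int.castRingHom ℂ)).mahlerMeasure ≠ 1 → ∀ (θ : ℝ) (S : Finset ℂ), 0 ≤ θ →
    (∀ z ∈ S, aeval z f = 0 ∧ |Complex.arg (z ^ E)| ≤ θ) →
    c * ((S.card : ℝ) ^ 2 / f.natDegree *
      min 1 ((S.card : ℝ) ^ 2 / (f.natDegree * Real.log (2 * f.natDegree)))) ≤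
      Real.log (f.map (Int.castRingHom ℂ)).mahlerMeasure + S.card * θ := by
  have hE' : (1 : ℝ) ≤ E := by exact_mod_cast hE
  obtain ⟨c, hc, h⟩ := final_arith E hE (1 / (1000 * (E : ℝ) ^ 2)) (by positivity) (by
    rw [div_le_one (by positivity)]
    nlinarith [one_le_pow₀ hE' (n := 2)])
  refine ⟨c, hc, ?_⟩
  intro f hf hM θ S hθ hS
  have hm := lm_pos hf.ne_zero hM
  have h0 := coeff_zero_ne hf hM
  have hnn : 0 ≤ (S.card : ℝ) * θ := by positivity
  rcases Nat.eq_zero_or_pos f.natDegree with hD | hD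
  · have hSe := no_roots hf.ne_zero hD S (fun z hz => (hS z hz).1)
    subst hSe
    simp only [Finset.card_empty, Nat.cast_zero, zero_mul, add_zero]
    have : (0 : ℝ) ^ 2 / f.natDegree = 0 := by simp
    rw [this, zero_mul, mul_zero]
    exact hm.le
  have key := h f.natDegree ((S.card : ℝ) ^ 2 / f.natDegree) (lm f) (lm f + S.card * θ) hD hm.le
    (by linarith) (A_alt _ _ hD) (fun X hX =>
      arch_step t1 t3 t4 t5 t6 f hf h0 hm hD E hE θ hθ S hS X hX)
  rw [div_div] at key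
  exact key

theorem main_padic (p : ℕ) [Fact p.Prime] (n : ℕ) : ∃ c : ℝ, 0 < c ∧ ∀ f : ℤ[X], Irreducible f →
    (f.map (Int.castRingHom ℂ)).mahlerMeasure ≠ 1 → ∀ S : Finset (PadicAlgCl p),
    (∀ z ∈ S, aeval z f = 0 ∧ (minpoly ℚ_[p] z).natDegree ≤ n) →
    c * ((S.card : ℝ) ^ 2 / f.natDegree *
      min 1 ((S.card : ℝ) ^ 2 / (f.natDegree * Real.log (2 * f.natDegree)))) ≤
      Real.log (f.map (Int.castRingHom ℂ)).mahlerMeasure := by
  obtain ⟨E, hE, hEp⟩ := t2a p n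
  have hE' : (1 : ℝ) ≤ E := by exact_mod_cast hE
  obtain ⟨c, hc, h⟩ := final_arith E hE (1 / (16 * (n + 1) * (E : ℝ) ^ 2)) (by positivity) (by
    rw [div_le_one (by positivity)]
    have h1 := one_le_pow₀ hE' (n := 2)
    have h2 : (0 : ℝ) ≤ n := by positivity
    have h3 : (0 : ℝ) ≤ n * (E : ℝ) ^ 2 := by positivity
    nlinarith)
  refine ⟨c, hc, ?_⟩
  intro f hf hM S hS
  have hm := lm_pos hf.ne_zero hM
  have h0 := coeff_zero_ne hf hM
  rcases Nat.eq_zero_or_pos f.natDegree with hD | hD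
  · have hSe := no_roots hf.ne_zero hD S (fun z hz => (hS z hz).1)
    subst hSe
    have : (0 : ℝ) ^ 2 / f.natDegree = 0 := by simp
    simp only [Finset.card_empty, Nat.cast_zero]
    rw [this, zero_mul, mul_zero]
    exact hm.le
  have key := h f.natDegree ((S.card : ℝ) ^ 2 / f.natDegree) (lm f) (lm f) hD hm.le
    le_rfl (A_alt _ _ hD) (fun X hX =>
      padic_step t1 t2b t2c t3 t4 t5 p n E hE hEp f hf h0 hm hD S hS X hX)
  rw [div_div] at key
  exact key

end

end Pool.Agent.H420R4
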