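import Mathlib
import Pool.Agent.H420R4.ML.Main
import Pool.Agent.H420R4.ML.FejMain

/-!
The combined bounds.
-/

set_option autoImplicit false

namespace Pool.Agent.H420R4

open Polynomial Real

noncomputable section

/-- the lower bound, as a function of the degree `D` and the number `N` of zeros -/
def bd (D N : ℕ) : ℝ := (N : ℝ) ^ 2 / D *
  max (1 / Real.log (2 * D / N)) (min 1 ((N : ℝ) ^ 2 / (D * Real.log (2 * D))))

lemma combine {D N : ℕ} {c1 c2 M : ℝ} (hc1 : 0 < c1) (hc2 : 0 < c2)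
    (h1 : c1 * ((N : ℝ) ^ 2 / D * min 1 ((N : ℝ) ^ 2 / (D * Real.log (2 * D)))) ≤ M)
    (h2 : c2 * ((N : ℝ) ^ 2 / D * (1 / Real.log (2 * D / N))) ≤ M) (hM : 0 ≤ M) :
    min c1 c2 * bd D N ≤ M := by
  unfold bd
  have hA : 0 ≤ (N : ℝ) ^ 2 / D := by positivity
  rcases le_total (1 / Real.log (2 * (D : ℝ) / N))
    (min 1 ((N : ℝ) ^ 2 / (D * Real.log (2 * D)))) with h | h
  · rw [max_eq_right h]
    rcases le_or_gt 0 ((N : ℝ) ^ 2 / D * min 1 ((N : ℝ) ^ 2 / (D * Real.log (2 * D)))) with h3 | h3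
    · exact (mul_le_mul_of_nonneg_right (min_le_left _ _) h3).trans h1
    · refine le_trans (le_of_lt ?_) hM
      exact mul_neg_of_pos_of_neg (lt_min hc1 hc2) h3
  · rw [max_eq_left h]
    rcases le_or_gt 0 ((N : ℝ) ^ 2 / D * (1 / Real.log (2 * D / N))) with h3 | h3
    · exact (mul_le_mul_of_nonneg_right (min_le_right _ _) h3).trans h2
    · refine le_trans (le_of_lt ?_) hM
      exact mul_neg_of_pos_of_neg (lt_min hc1 hc2) h3

lemma card_le_deg {A : Type*} [Field A] [CharZero A] {f : ℤ[X]} (hf : f ≠ 0) (S : Finset A)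
    (hS : ∀ z ∈ S, aeval z f = 0) : S.card ≤ f.natDegree := by
  classical
  have h1 : S ⊆ (f.map (algebraMap ℤ A)).roots.toFinset := by
    intro z hz
    rw [Multiset.mem_toFinset, mem_roots, IsRoot.def, eval_map, ← aeval_def]
    · exact hS z hz
    · rwa [Ne, Polynomial.map_eq_zero_iff (RingHom.injective_int _)]
  refine (Finset.card_le_card h1).trans ?_
  refine (Multiset.toFinset_card_le _).trans ((card_roots' _).trans ?_)
  exact natDegree_map_le

theorem main2_arch (E : ℕ) (hE : 1 ≤ E) : ∃ c : ℝ, 0 < c ∧ ∀ f : ℤ[X], Irreducible f →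
    (f.map (Int.castRingHom ℂ)).mahlerMeasure ≠ 1 → ∀ (θ : ℝ) (S : Finset ℂ), 0 ≤ θ →
    (∀ z ∈ S, aeval z f = 0 ∧ |Complex.arg (z ^ E)| ≤ θ) →
    c * bd f.natDegree S.card ≤
      Real.log (f.map (Int.castRingHom ℂ)).mahlerMeasure + S.card * θ := by
  have hE' : (1 : ℝ) ≤ E := by exact_mod_cast hE
  obtain ⟨c1, hc1, h1⟩ := main_arch E hE
  obtain ⟨c2, hc2, h2⟩ := final_arith2 E hE (1 / (48 * (E : ℝ))) (by positivity) (by
    rw [div_le_one (by positivity)]
    linarith)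
  refine ⟨min c1 c2, lt_min hc1 hc2, ?_⟩
  intro f hf hM θ S hθ hS
  have hm := lm_pos hf.ne_zero hM
  have h0 := coeff_zero_ne hf hM
  have hnn : 0 ≤ (S.card : ℝ) * θ := by positivity
  have hMM : 0 ≤ Real.log (f.map (Int.castRingHom ℂ)).mahlerMeasure + S.card * θ := by
    have : lm f = Real.log (f.map (Int.castRingHom ℂ)).mahlerMeasure := rfl
    linarith
  have hcard := card_le_deg hf.ne_zero S (fun z hz => (hS z hz).1)
  refine combine hc1 hc2 (h1 f hf hM θ S hθ hS) ?_ hMM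
  rcases Nat.eq_zero_or_pos f.natDegree with hD | hD
  · have : S.card = 0 := by omega
    rw [this]
    have h3 : lm f = Real.log (f.map (Int.castRingHom ℂ)).mahlerMeasure := rfl
    rw [h3] at hm
    simpa using hm.le
  exact h2 f.natDegree S.card (lm f) (lm f + S.card * θ) hD hcard hm.le (by linarith)
    (fun X hX => fej_arch f hf h0 hm hD E hE θ hθ S hS X hX)

theorem main2_padic (p : ℕ) [Fact p.Prime] (n : ℕ) : ∃ c : ℝ, 0 < c ∧ ∀ f : ℤ[X], Irreducible f →
    (f.map (Int.castRingHom ℂ)).mahlerMeasure ≠ 1 → ∀ S : Finset (PadicAlgCl p),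
    (∀ z ∈ S, aeval z f = 0 ∧ (minpoly ℚ_[p] z).natDegree ≤ n) →
    c * bd f.natDegree S.card ≤ Real.log (f.map (Int.castRingHom ℂ)).mahlerMeasure := by
  obtain ⟨c1, hc1, h1⟩ := main_padic p n
  obtain ⟨E, hE, hEp⟩ := t2a p n
  have hn0 : (0 : ℝ) ≤ n := by positivity
  obtain ⟨c2, hc2, h2⟩ := final_arith2 E hE (1 / (8 * ((n : ℝ) + 1))) (by positivity) (by
    rw [div_le_one (by positivity)]
    linarith)
  refine ⟨min c1 c2, lt_min hc1 hc2, ?_⟩
  intro f hf hM S hS
  have hm := lm_pos hf.ne_zero hM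
  have h0 := coeff_zero_ne hf hM
  have hcard := card_le_deg hf.ne_zero S (fun z hz => (hS z hz).1)
  refine combine hc1 hc2 (h1 f hf hM S hS) ?_ hm.le
  rcases Nat.eq_zero_or_pos f.natDegree with hD | hD
  · have : S.card = 0 := by omega
    rw [this]
    have h3 : lm f = Real.log (f.map (Int.castRingHom ℂ)).mahlerMeasure := rfl
    rw [h3] at hm
    simpa using hm.le
  exact h2 f.natDegree S.card (lm f) (lm f) hD hcard hm.le le_rfl
    (fun X hX => fej_padic p n E hE hEp f hf h0 hm hD S hS X hX)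

end

end Pool.Agent.H420R4
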